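import Pool.Agent.Lib.MP_c82047_co97.Seven

/-!
# Counting identities in linear triple systems
-/

namespace Pool.Agent.Lib.MP_c82047_co97

variable {V : Type*} [DecidableEq V] {K : Finset (Finset V)}

omit [DecidableEq V] in
theorem Adj.symm {x y : V} (h : Adj K x y) : Adj K y x :=
  ⟨h.1.symm, by obtain ⟨E, hE, h1, h2⟩ := h.2; exact ⟨E, hE, h2, h1⟩⟩

theorem line_unique (hK : Lin K) {E F : Finset V} (hE : E ∈ K) (hF : F ∈ K) {x y : V}
    (hxy : x ≠ y) (h1 : x ∈ E) (h2 : y ∈ E) (h3 : x ∈ F) (h4 : y ∈ F) : E = F := by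
  by_contra hne
  have h5 := hK.2 E hE F hF hne
  have h6 : 1 < (E ∩ F).card :=
    Finset.one_lt_card.2 ⟨x, Finset.mem_inter.2 ⟨h1, h3⟩, y, Finset.mem_inter.2 ⟨h2, h4⟩, hxy⟩
  omega

variable [Fintype V]

theorem card_nbr (hK : Lin K) (v : V) :
    (Finset.univ.filter (fun u => Adj K v u)).card = 2 * deg K v := by
  have h1 : Finset.univ.filter (fun u => Adj K v u) =
      (K.filter (fun E => v ∈ E)).biUnion (fun E => E.erase v) := by
    ext u
    simp only [Finset.mem_filter, Finset.mem_univ, true_and, Finset.mem_biUnion, Finset.mem_erase]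
    constructor
    · rintro ⟨h, E, hE, hv, hu⟩
      exact ⟨E, ⟨hE, hv⟩, h.symm, hu⟩
    · rintro ⟨E, ⟨hE, hv⟩, h, hu⟩
      exact ⟨h.symm, E, hE, hv, hu⟩
  rw [h1, Finset.card_biUnion]
  · rw [Finset.sum_congr rfl (g := fun _ => 2)]
    · rw [Finset.sum_const, smul_eq_mul, mul_comm]
      rfl
    · intro E hE
      rw [Finset.mem_filter] at hE
      rw [Finset.card_erase_of_mem hE.2, hK.1 E hE.1]
  · intro E hE F hF hEF
    rw [Finset.mem_coe, Finset.mem_filter] at hE hF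
    rw [Function.onFun, Finset.disjoint_left]
    intro u hu hu'
    rw [Finset.mem_erase] at hu hu'
    exact hEF (line_unique hK hE.1 hF.1 hu.1 hu.2 hE.2 hu'.2 hF.2)

theorem sum_edges (φ : V → ℤ) : ∑ E ∈ K, ∑ a ∈ E, φ a = ∑ a, (deg K a : ℤ) * φ a := by
  have h1 : ∀ E ∈ K, ∑ a ∈ E, φ a = ∑ a, if a ∈ E then φ a else 0 := by
    intro E _
    rw [← Finset.sum_filter]
    congr 1
    ext a
    simp
  rw [Finset.sum_congr rfl h1, Finset.sum_comm]
  refine Finset.sum_congr rfl fun a _ => ?_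
  rw [← Finset.sum_filter, Finset.sum_const, nsmul_eq_mul]
  rfl

theorem jj_eq_sum (E : Finset V) (x : V) :
    (jj K E x : ℤ) = ∑ a ∈ E, if Adj K x a then 1 else 0 := by
  unfold jj
  rw [Finset.card_filter]
  push_cast
  rfl

theorem jj_of_mem (hK : Lin K) {E : Finset V} (hE : E ∈ K) {x : V} (hx : x ∈ E) :
    jj K E x = 2 := by
  unfold jj
  have : E.filter (fun a => Adj K x a) = E.erase x := by
    ext a
    simp only [Finset.mem_filter, Finset.mem_erase]
    constructor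
    · rintro ⟨ha, h⟩
      exact ⟨h.1.symm, ha⟩
    · rintro ⟨h, ha⟩
      exact ⟨ha, h.symm, E, hE, hx, ha⟩
  rw [this, Finset.card_erase_of_mem hx, hK.1 E hE]

theorem sum_jj (hK : Lin K) : ∑ E ∈ K, ∑ x ∈ Eᶜ, (jj K E x : ℤ) =
    ∑ a, (deg K a : ℤ) * (2 * (deg K a : ℤ) - 2) := by
  rw [← sum_edges]
  refine Finset.sum_congr rfl fun E hE => ?_
  have h1 : ∑ x ∈ Eᶜ, (jj K E x : ℤ) = ∑ x, (jj K E x : ℤ) - ∑ x ∈ E, (jj K E x : ℤ) := by
    rw [← Finset.sum_add_sum_compl E (fun x => (jj K E x : ℤ))]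
    ring
  have h2 : ∑ x ∈ E, (jj K E x : ℤ) = 6 := by
    rw [Finset.sum_congr rfl (g := fun _ => (2 : ℤ))]
    · rw [Finset.sum_const, hK.1 E hE]; norm_num
    · intro x hx
      rw [jj_of_mem hK hE hx]; norm_num
  have h3 : ∑ x, (jj K E x : ℤ) = ∑ a ∈ E, 2 * (deg K a : ℤ) := by
    simp_rw [jj_eq_sum]
    rw [Finset.sum_comm]
    refine Finset.sum_congr rfl fun a _ => ?_
    have h4 := card_nbr hK a
    rw [Finset.card_filter] at h4
    have h5 : (∑ x, if Adj K x a then (1 : ℤ) else 0) = ∑ x, if Adj K a x then (1 : ℤ) else 0 := by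
      refine Finset.sum_congr rfl fun x _ => ?_
      by_cases h : Adj K x a
      · rw [if_pos h, if_pos h.symm]
      · rw [if_neg h, if_neg fun h' => h h'.symm]
    rw [h5]
    exact_mod_cast h4
  rw [h1, h2, h3, Finset.sum_sub_distrib, Finset.sum_const, hK.1 E hE]
  norm_num

/-- The ordered adjacent pairs. -/
theorem adj_pairs (hK : Lin K) :
    Finset.univ.filter (fun p : V × V => Adj K p.1 p.2) = K.biUnion (fun E => E.offDiag) := by
  ext ⟨x, y⟩
  simp only [Finset.mem_filter, Finset.mem_univ, true_and, Finset.mem_biUnion, Finset.mem_offDiag]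
  constructor
  · rintro ⟨h, E, hE, h1, h2⟩
    exact ⟨E, hE, h1, h2, h⟩
  · rintro ⟨E, hE, h1, h2, h⟩
    exact ⟨h, E, hE, h1, h2⟩

theorem pairs_disjoint (hK : Lin K) :
    Set.PairwiseDisjoint (K : Set (Finset V)) (fun E => E.offDiag) := by
  intro E hE F hF hEF
  rw [Function.onFun, Finset.disjoint_left]
  rintro ⟨x, y⟩ h1 h2
  rw [Finset.mem_offDiag] at h1 h2
  exact hEF (line_unique hK hE hF h1.2.2 h1.1 h1.2.1 h2.1 h2.2.1)

theorem card_adj_pairs (hK : Lin K) :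
    (Finset.univ.filter (fun p : V × V => Adj K p.1 p.2)).card = 6 * K.card := by
  rw [adj_pairs hK, Finset.card_biUnion (pairs_disjoint hK),
    Finset.sum_congr rfl (g := fun _ => 6), Finset.sum_const, smul_eq_mul, mul_comm]
  intro E hE
  rw [Finset.offDiag_card, hK.1 E hE]

theorem sum_cdeg (hK : Lin K) :
    ∑ p ∈ Finset.univ.filter (fun p : V × V => Adj K p.1 p.2),
      ((Finset.univ.filter (fun u => Adj K p.1 u ∧ Adj K p.2 u)).card : ℤ) =
    ∑ E ∈ K, ∑ x ∈ Eᶜ, (jj K E x : ℤ) * ((jj K E x : ℤ) - 1) + 6 * K.card := by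
  rw [adj_pairs hK, Finset.sum_biUnion (pairs_disjoint hK)]
  have h1 : ∀ E ∈ K, ∑ p ∈ E.offDiag,
      ((Finset.univ.filter (fun u => Adj K p.1 u ∧ Adj K p.2 u)).card : ℤ) =
      ∑ x ∈ Eᶜ, (jj K E x : ℤ) * ((jj K E x : ℤ) - 1) + 6 := by
    intro E hE
    have h2 : ∑ p ∈ E.offDiag,
        ((Finset.univ.filter (fun u => Adj K p.1 u ∧ Adj K p.2 u)).card : ℤ) =
        ∑ u, (jj K E u : ℤ) * ((jj K E u : ℤ) - 1) := by
      simp_rw [Finset.card_filter]
      push_cast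
      rw [Finset.sum_comm]
      refine Finset.sum_congr rfl fun u _ => ?_
      rw [← Finset.sum_filter, Finset.sum_const, nsmul_eq_mul, mul_one]
      have h3 : E.offDiag.filter (fun p => Adj K p.1 u ∧ Adj K p.2 u) =
          (E.filter (fun a => Adj K u a)).offDiag := by
        ext ⟨a, b⟩
        simp only [Finset.mem_filter, Finset.mem_offDiag]
        constructor
        · rintro ⟨⟨ha, hb, hab⟩, h, h'⟩
          exact ⟨⟨ha, h.symm⟩, ⟨hb, h'.symm⟩, hab⟩
        · rintro ⟨⟨ha, h⟩, ⟨hb, h'⟩, hab⟩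
          exact ⟨⟨ha, hb, hab⟩, h.symm, h'.symm⟩
      rw [h3, Finset.offDiag_card]
      change (((jj K E u) * (jj K E u) - jj K E u : ℕ) : ℤ) = _
      rw [Nat.cast_sub (Nat.le_mul_self _)]
      push_cast
      ring
    rw [h2, ← Finset.sum_add_sum_compl E (fun u => (jj K E u : ℤ) * ((jj K E u : ℤ) - 1)),
      Finset.sum_congr rfl (g := fun _ => (2 : ℤ)), Finset.sum_const, hK.1 E hE]
    · simp only [nsmul_eq_mul, Nat.cast_ofNat]
      ring
    · intro x hx
      rw [jj_of_mem hK hE hx]; norm_num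
  rw [Finset.sum_congr rfl h1, Finset.sum_add_distrib, Finset.sum_const, nsmul_eq_mul]
  ring

/-- The codegree of a nonadjacent pair. -/
theorem cdeg_ge (hK : Lin K) {x y : V} (hxy : ¬ Adj K x y) :
    (K.filter (fun F => x ∈ F ∧ 1 ≤ jj K F y)).card ≤
      (Finset.univ.filter (fun u => Adj K x u ∧ Adj K y u)).card := by
  classical
  have hch : ∀ F : Finset V, ∃ u, F ∈ K → x ∈ F → 1 ≤ jj K F y → u ∈ F ∧ Adj K y u := by
    intro F
    by_cases h : F ∈ K ∧ x ∈ F ∧ 1 ≤ jj K F y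
    · obtain ⟨u, hu⟩ := Finset.card_pos.1 (lt_of_lt_of_le Nat.zero_lt_one h.2.2)
      rw [Finset.mem_filter] at hu
      exact ⟨u, fun _ _ _ => hu⟩
    · exact ⟨x, fun h1 h2 h3 => absurd ⟨h1, h2, h3⟩ h⟩
  choose w hw using hch
  refine Finset.card_le_card_of_injOn w ?_ ?_
  · intro F hF
    rw [Finset.mem_coe, Finset.mem_filter] at hF
    obtain ⟨h1, h2⟩ := hw F hF.1 hF.2.1 hF.2.2
    rw [Finset.mem_coe, Finset.mem_filter]
    refine ⟨Finset.mem_univ _, ⟨?_, F, hF.1, hF.2.1, h1⟩, h2⟩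
    rintro h
    rw [← h] at h2
    exact hxy h2.symm
  · intro F hF F' hF' heq
    rw [Finset.mem_coe, Finset.mem_filter] at hF hF'
    obtain ⟨h1, h2⟩ := hw F hF.1 hF.2.1 hF.2.2
    obtain ⟨h1', h2'⟩ := hw F' hF'.1 hF'.2.1 hF'.2.2
    have hne : w F ≠ x := by
      intro h
      rw [h] at h2
      exact hxy h2.symm
    rw [← heq] at h1'
    exact line_unique hK hF.1 hF'.1 hne h1 hF.2.1 h1' hF'.2.1

end Pool.Agent.Lib.MP_c82047_co97
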