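import Pool.Agent.Lib.MP_c82047_co97.Blocks
import Pool.Agent.Lib.MP_c82047_co97.Counts

/-!
# Goodman's inequality for two-coloured nearly complete linear triple systems
-/

namespace Pool.Agent.Lib.MP_c82047_co97

/-- Goodman's inequality for two disjoint graphs. -/
theorem goodman_graph {V : Type*} [Fintype V] (p q : V → V → ℤ)
    (hp : ∀ x y, p x y = 0 ∨ p x y = 1) (hq : ∀ x y, q x y = 0 ∨ q x y = 1)
    (hpq : ∀ x y, p x y + q x y ≤ 1) (hps : ∀ x y, p x y = p y x) (hqs : ∀ x y, q x y = q y x) :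
    3 * (∑ x, (∑ y, p x y) ^ 2 + ∑ x, (∑ y, q x y) ^ 2) ≤ (Fintype.card V : ℤ) ^ 3 +
      2 * (∑ x, ∑ y, ∑ z, p x y * p x z * p y z + ∑ x, ∑ y, ∑ z, q x y * q x z * q y z) := by
  have hsq : ∀ r : V → V → ℤ, (∀ x y, r x y = r y x) →
      ∑ x, ∑ y, ∑ z, (r x y * r x z + r x y * r y z + r x z * r y z) =
        3 * ∑ x, (∑ y, r x y) ^ 2 := by
    intro r hr
    have h1 : ∑ x, ∑ y, ∑ z, r x y * r x z = ∑ x, (∑ y, r x y) ^ 2 := by
      refine Finset.sum_congr rfl fun x _ => ?_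
      rw [sq, Finset.sum_mul_sum]
    have h2 : ∑ x, ∑ y, ∑ z, r x y * r y z = ∑ x, (∑ y, r x y) ^ 2 := by
      rw [Finset.sum_comm, ← h1]
      refine Finset.sum_congr rfl fun x _ => Finset.sum_congr rfl fun y _ =>
        Finset.sum_congr rfl fun z _ => ?_
      rw [hr y x]
    have h3 : ∑ x, ∑ y, ∑ z, r x z * r y z = ∑ x, (∑ y, r x y) ^ 2 := by
      calc ∑ x, ∑ y, ∑ z, r x z * r y z = ∑ x, ∑ z, ∑ y, r x z * r y z :=
            Finset.sum_congr rfl fun x _ => Finset.sum_comm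
        _ = ∑ z, ∑ x, ∑ y, r x z * r y z := Finset.sum_comm
        _ = ∑ x, (∑ y, r x y) ^ 2 := by
            rw [← h1]
            refine Finset.sum_congr rfl fun x _ => Finset.sum_congr rfl fun y _ =>
              Finset.sum_congr rfl fun z _ => ?_
            rw [hr y x, hr z x]
    simp only [Finset.sum_add_distrib]
    rw [h1, h2, h3]
    ring
  rw [mul_add, ← hsq p hps, ← hsq q hqs]
  have hcard : (Fintype.card V : ℤ) ^ 3 = ∑ _x : V, ∑ _y : V, ∑ _z : V, (1 : ℤ) := by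
    simp only [Finset.sum_const, Finset.card_univ, nsmul_eq_mul, mul_one]
    ring
  rw [hcard, mul_add, Finset.mul_sum, Finset.mul_sum, ← Finset.sum_add_distrib,
    ← Finset.sum_add_distrib, ← Finset.sum_add_distrib]
  refine Finset.sum_le_sum fun x _ => ?_
  rw [Finset.mul_sum, Finset.mul_sum, ← Finset.sum_add_distrib,
    ← Finset.sum_add_distrib, ← Finset.sum_add_distrib]
  refine Finset.sum_le_sum fun y _ => ?_
  rw [Finset.mul_sum, Finset.mul_sum, ← Finset.sum_add_distrib,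
    ← Finset.sum_add_distrib, ← Finset.sum_add_distrib]
  refine Finset.sum_le_sum fun z _ => ?_
  have a1 := hpq x y
  have a2 := hpq x z
  have a3 := hpq y z
  rcases hp x y with h1 | h1 <;> rcases hp x z with h2 | h2 <;> rcases hp y z with h3 | h3 <;>
    rcases hq x y with h4 | h4 <;> rcases hq x z with h5 | h5 <;> rcases hq y z with h6 | h6 <;>
    rw [h1, h4] at a1 <;> rw [h2, h5] at a2 <;> rw [h3, h6] at a3 <;>
    rw [h1, h2, h3, h4, h5, h6] <;> omega

variable {V : Type*} [DecidableEq V] [Fintype V]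

theorem theta_eq {C : Finset (Finset V)} (hC : Lin C) :
    theta C = 2 * ∑ x, (deg C x : ℤ) ^ 2 - ∑ x, ∑ y, ∑ z,
      (if Adj C x y then (1 : ℤ) else 0) * (if Adj C x z then 1 else 0) *
        (if Adj C y z then 1 else 0) := by
  have h1 : theta C = ∑ E ∈ C, ∑ x ∈ Eᶜ, (jj C E x : ℤ) -
      ∑ E ∈ C, ∑ x ∈ Eᶜ, (jj C E x : ℤ) * ((jj C E x : ℤ) - 1) := by
    unfold theta f
    rw [← Finset.sum_sub_distrib]
    refine Finset.sum_congr rfl fun E _ => ?_
    rw [← Finset.sum_sub_distrib]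
    exact Finset.sum_congr rfl fun x _ => by ring
  have h2 := sum_cdeg hC
  have h3 : ∑ p ∈ Finset.univ.filter (fun p : V × V => Adj C p.1 p.2),
      ((Finset.univ.filter (fun u => Adj C p.1 u ∧ Adj C p.2 u)).card : ℤ) =
      ∑ x, ∑ y, ∑ z, (if Adj C x y then (1 : ℤ) else 0) * (if Adj C x z then 1 else 0) *
        (if Adj C y z then 1 else 0) := by
    rw [Finset.sum_filter, Fintype.sum_prod_type]
    refine Finset.sum_congr rfl fun x _ => Finset.sum_congr rfl fun y _ => ?_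
    by_cases h : Adj C x y
    · simp only [h, if_true, one_mul, Finset.card_filter]
      push_cast
      refine Finset.sum_congr rfl fun z _ => ?_
      by_cases h' : Adj C x z <;> by_cases h'' : Adj C y z <;> simp [h', h'']
    · simp only [h, if_false, zero_mul, Finset.sum_const_zero]
  have h4 := sum_jj hC
  have h5 : ∑ a, (deg C a : ℤ) * (2 * (deg C a : ℤ) - 2) =
      2 * ∑ a, (deg C a : ℤ) ^ 2 - 6 * C.card := by
    have h6 := sum_deg hC.1
    have h7 : ∑ a, (deg C a : ℤ) = 3 * C.card := by exact_mod_cast h6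
    calc ∑ a, (deg C a : ℤ) * (2 * (deg C a : ℤ) - 2) =
        2 * ∑ a, (deg C a : ℤ) ^ 2 - 2 * ∑ a, (deg C a : ℤ) := by
          rw [Finset.mul_sum, Finset.mul_sum, ← Finset.sum_sub_distrib]
          exact Finset.sum_congr rfl fun a _ => by ring
      _ = _ := by rw [h7]; ring
  rw [h1, h4, h5, ← h3, h2]
  ring

theorem cnt_ge {C : Finset (Finset V)} (hC : Lin C) :
    2 * ∑ x, (deg C x : ℤ) ^ 2 - 6 * C.card ≤ 3 * cnt C := by
  have h4 := sum_jj hC
  have h5 : ∑ a, (deg C a : ℤ) * (2 * (deg C a : ℤ) - 2) =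
      2 * ∑ a, (deg C a : ℤ) ^ 2 - 6 * C.card := by
    have h6 := sum_deg hC.1
    have h7 : ∑ a, (deg C a : ℤ) = 3 * C.card := by exact_mod_cast h6
    calc ∑ a, (deg C a : ℤ) * (2 * (deg C a : ℤ) - 2) =
        2 * ∑ a, (deg C a : ℤ) ^ 2 - 2 * ∑ a, (deg C a : ℤ) := by
          rw [Finset.mul_sum, Finset.mul_sum, ← Finset.sum_sub_distrib]
          exact Finset.sum_congr rfl fun a _ => by ring
      _ = _ := by rw [h7]; ring
  rw [← h5, ← h4]
  unfold cnt
  push_cast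
  rw [Finset.mul_sum]
  refine Finset.sum_le_sum fun E hE => ?_
  rw [Finset.card_filter]
  push_cast
  rw [Finset.mul_sum]
  refine Finset.sum_le_sum fun x _ => ?_
  have h3 := jj_le_three (H := C) (hC.1 E hE) x
  split_ifs with h
  · have : (jj C E x : ℤ) ≤ 3 := by exact_mod_cast h3
    linarith
  · have : jj C E x = 0 := by omega
    rw [this]; norm_num

/-- Goodman's inequality for a two-coloured nearly complete linear triple system. -/
theorem goodman {T A B : Finset (Finset V)} (hT : Lin T) (hAB : A ∪ B = T) (hd : Disjoint A B)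
    {ε : ℝ} (h0 : 0 ≤ ε) (h1 : ε ≤ 1 / 6)
    (hsize : (1 / 6 - ε) * (Fintype.card V : ℝ) ^ 2 ≤ (T.card : ℝ)) :
    ((theta A : ℝ) + (theta B : ℝ) ≤ 6 * ε * (Fintype.card V : ℝ) ^ 3) ∧
    ((1 / 12 - ε) * (Fintype.card V : ℝ) ^ 3 - (Fintype.card V : ℝ) ^ 2 ≤
      (cnt A : ℝ) + (cnt B : ℝ)) := by
  have hA : Lin A := hT.mono (hAB ▸ Finset.subset_union_left)
  have hB : Lin B := hT.mono (hAB ▸ Finset.subset_union_right)
  have hAT : A ⊆ T := hAB ▸ Finset.subset_union_left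
  have hBT : B ⊆ T := hAB ▸ Finset.subset_union_right
  have hdis : ∀ x y, Adj A x y → Adj B x y → False := by
    rintro x y ⟨hxy, E, hE, hx, hy⟩ ⟨-, F, hF, hx', hy'⟩
    have := line_unique hT (hAT hE) (hBT hF) hxy hx hy hx' hy'
    subst this
    exact Finset.disjoint_left.1 hd hE hF
  have hsym : ∀ C : Finset (Finset V), ∀ x y, (if Adj C x y then (1 : ℤ) else 0) =
      if Adj C y x then 1 else 0 := by
    intro C x y
    by_cases h : Adj C x y
    · rw [if_pos h, if_pos h.symm]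
    · rw [if_neg h, if_neg fun h' => h h'.symm]
  have hnb : ∀ C : Finset (Finset V), Lin C → ∀ x, ∑ y, (if Adj C x y then (1 : ℤ) else 0) =
      2 * deg C x := by
    intro C hC x
    have := card_nbr hC x
    rw [Finset.card_filter] at this
    exact_mod_cast this
  have hG := goodman_graph (fun x y => if Adj A x y then (1 : ℤ) else 0)
    (fun x y => if Adj B x y then (1 : ℤ) else 0)
    (fun x y => by by_cases h : Adj A x y <;> simp [h])
    (fun x y => by by_cases h : Adj B x y <;> simp [h])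
    (fun x y => by
      by_cases h : Adj A x y
      · have h' : ¬ Adj B x y := fun h' => hdis x y h h'
        simp [h, h']
      · by_cases h' : Adj B x y <;> simp [h, h'])
    (hsym A) (hsym B)
  simp only [hnb A hA, hnb B hB] at hG
  have tA := theta_eq hA
  have tB := theta_eq hB
  have cA := cnt_ge hA
  have cB := cnt_ge hB
  have hdeg : ∀ x, deg T x = deg A x + deg B x := by
    intro x
    unfold deg
    rw [← hAB, Finset.filter_union, Finset.card_union_of_disjoint]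
    exact Finset.disjoint_filter_filter hd
  have hcard : T.card = A.card + B.card := by
    rw [← hAB, Finset.card_union_of_disjoint hd]
  obtain ⟨D, hD⟩ : ∃ D : ℤ, D = ∑ x, (deg A x : ℤ) ^ 2 + ∑ x, (deg B x : ℤ) ^ 2 := ⟨_, rfl⟩
  have e1 : ∑ x, (2 * (deg A x : ℤ)) ^ 2 + ∑ x, (2 * (deg B x : ℤ)) ^ 2 = 4 * D := by
    rw [hD, mul_add, Finset.mul_sum, Finset.mul_sum]
    congr 1 <;> exact Finset.sum_congr rfl fun x _ => by ring
  rw [e1] at hG
  have hth2 : 2 * (theta A + theta B) ≤ (Fintype.card V : ℤ) ^ 3 - 8 * D := by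
    rw [tA, tB]
    linarith
  have hDT : ∑ x, (deg T x : ℤ) ^ 2 ≤ 2 * D := by
    rw [hD, ← Finset.sum_add_distrib, Finset.mul_sum]
    refine Finset.sum_le_sum fun x _ => ?_
    rw [hdeg x]
    push_cast
    nlinarith [sq_nonneg ((deg A x : ℤ) - deg B x)]
  have hCS : (3 * (T.card : ℤ)) ^ 2 ≤ Fintype.card V * (2 * D) := by
    have h2 := sq_sum_le_card_mul_sum_sq (s := (Finset.univ : Finset V))
      (f := fun a => (deg T a : ℤ))
    have h3 := sum_deg hT.1
    have h4 : ∑ a, (deg T a : ℤ) = 3 * T.card := by exact_mod_cast h3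
    rw [h4, Finset.card_univ] at h2
    refine h2.trans (mul_le_mul_of_nonneg_left hDT (by positivity))
  have hcnt : 2 * D - 6 * T.card ≤ 3 * ((cnt A : ℤ) + cnt B) := by
    rw [hcard]
    push_cast
    linarith
  have hTup := card_le_sq hT
  -- real numbers
  obtain ⟨n, hn⟩ : ∃ n : ℝ, n = (Fintype.card V : ℝ) := ⟨_, rfl⟩
  obtain ⟨τ, hτ⟩ : ∃ τ : ℝ, τ = (T.card : ℝ) := ⟨_, rfl⟩
  obtain ⟨D', hD'⟩ : ∃ D' : ℝ, D' = (D : ℝ) := ⟨_, rfl⟩
  rw [← hn, ← hτ] at hsize
  have r1 : 2 * ((theta A : ℝ) + theta B) ≤ n ^ 3 - 8 * D' := by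
    rw [hn, hD']; exact_mod_cast hth2
  have r2 : (3 * τ) ^ 2 ≤ n * (2 * D') := by
    rw [hn, hD', hτ]; exact_mod_cast hCS
  have r3 : 2 * D' - 6 * τ ≤ 3 * ((cnt A : ℝ) + cnt B) := by
    rw [hD', hτ]; exact_mod_cast hcnt
  have r4 : 6 * τ ≤ n ^ 2 := by
    rw [hn, hτ]; exact_mod_cast hTup
  rw [← hn]
  have hn0 : 0 ≤ n := by rw [hn]; positivity
  have hτ0 : 0 ≤ τ := by rw [hτ]; positivity
  rcases hn0.eq_or_lt with h | hnpos
  · -- n = 0
    have hD0 : 0 ≤ D' := by
      rw [hD', hD]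
      push_cast
      positivity
    rw [← h] at r1 r4 ⊢
    have hτ0' : τ = 0 := by nlinarith
    refine ⟨by nlinarith, ?_⟩
    have : (0 : ℝ) ≤ (cnt A : ℝ) + cnt B := by positivity
    nlinarith
  · have h2 : ((1 / 6 - ε) * n ^ 2) ^ 2 ≤ τ ^ 2 := by
      refine pow_le_pow_left₀ ?_ hsize 2
      have : 0 ≤ 1 / 6 - ε := by linarith
      positivity
    have h3 : 9 * ((1 / 6 - ε) * n ^ 2) ^ 2 ≤ 2 * D' * n := by nlinarith
    have h4 : 9 * ((1 / 6 - ε) ^ 2 * n ^ 3) ≤ 2 * D' := by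
      refine le_of_mul_le_mul_right ?_ hnpos
      calc 9 * ((1 / 6 - ε) ^ 2 * n ^ 3) * n = 9 * ((1 / 6 - ε) * n ^ 2) ^ 2 := by ring
        _ ≤ 2 * D' * n := h3
    have h5 : (1 / 4 - 3 * ε) * n ^ 3 ≤ 2 * D' := by
      refine le_trans ?_ h4
      have h6 : 0 ≤ ε ^ 2 * n ^ 3 := by positivity
      have h7 : 9 * ((1 / 6 - ε) ^ 2 * n ^ 3) = (1 / 4 - 3 * ε) * n ^ 3 + 9 * (ε ^ 2 * n ^ 3) := by
        ring
      rw [h7]
      linarith
    constructor
    · linarith
    · linarith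

end Pool.Agent.Lib.MP_c82047_co97
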