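import Pool.Agent.Lib.MP_c82047_co97.Blocks
import Pool.Agent.Lib.MP_c82047_co97.Counts

/-!
# `θ H` as a sum over ordered cherries
-/

namespace Pool.Agent.Lib.MP_c82047_co97

variable {V : Type*} [DecidableEq V] {H : Finset (Finset V)}

/-- The triples through `x` that meet `E`. -/
def thr (H : Finset (Finset V)) (E : Finset V) (x : V) : Finset (Finset V) :=
  H.filter (fun F => x ∈ F ∧ (E ∩ F).Nonempty)

theorem jj_eq_thr (hH : Lin H) {E : Finset V} (hE : E ∈ H) {x : V} (hx : x ∉ E) :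
    jj H E x = (thr H E x).card := by
  classical
  unfold jj thr
  have hch : ∀ a : V, ∃ F : Finset V, Adj H x a → F ∈ H ∧ x ∈ F ∧ a ∈ F := by
    intro a
    by_cases h : Adj H x a
    · obtain ⟨-, F, hF⟩ := h
      exact ⟨F, fun _ => hF⟩
    · exact ⟨∅, fun h' => absurd h' h⟩
  choose ℓ hℓ using hch
  refine Finset.card_bij (fun a _ => ℓ a) ?_ ?_ ?_
  · intro a ha
    rw [Finset.mem_filter] at ha
    obtain ⟨h1, h2, h3⟩ := hℓ a ha.2
    rw [Finset.mem_filter]
    exact ⟨h1, h2, a, Finset.mem_inter.2 ⟨ha.1, h3⟩⟩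
  · intro a ha b hb hab
    rw [Finset.mem_filter] at ha hb
    obtain ⟨h1, h2, h3⟩ := hℓ a ha.2
    obtain ⟨g1, g2, g3⟩ := hℓ b hb.2
    change ℓ a = ℓ b at hab
    by_contra hne
    rw [← hab] at g3
    have := line_unique hH h1 hE hne h3 g3 ha.1 hb.1
    rw [this] at h2
    exact hx h2
  · intro F hF
    rw [Finset.mem_filter] at hF
    obtain ⟨hF1, hF2, a, ha⟩ := hF
    rw [Finset.mem_inter] at ha
    have hxa : x ≠ a := fun h => hx (h ▸ ha.1)
    have hadj : Adj H x a := ⟨hxa, F, hF1, hF2, ha.2⟩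
    obtain ⟨h1, h2, h3⟩ := hℓ a hadj
    exact ⟨a, Finset.mem_filter.2 ⟨ha.1, hadj⟩, line_unique hH h1 hF1 hxa h2 h3 hF2 ha.2⟩

/-- The ordered cherries: pairs of different triples with a common point. -/
def cherries (H : Finset (Finset V)) : Finset (Finset V × Finset V) :=
  (H ×ˢ H).filter (fun p => p.1 ≠ p.2 ∧ (p.1 ∩ p.2).Nonempty)

/-- `E, F, G` meet pairwise and have no common point. -/
def Loose (E F G : Finset V) : Prop :=
  (E ∩ F).Nonempty ∧ (E ∩ G).Nonempty ∧ (F ∩ G).Nonempty ∧ E ∩ F ∩ G = ∅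

instance (E F G : Finset V) : Decidable (Loose E F G) := by
  unfold Loose; infer_instance

/-- The number of triples forming a loose triangle with `E` and `F`. -/
def wt (H : Finset (Finset V)) (E F : Finset V) : ℕ := (H.filter (fun G => Loose E F G)).card

theorem inter_card_one (hH : Lin H) {E F : Finset V} (hE : E ∈ H) (hF : F ∈ H) (hne : E ≠ F)
    (h : (E ∩ F).Nonempty) : (E ∩ F).card = 1 := by
  have h1 := hH.2 E hE F hF hne
  have h2 := Finset.card_pos.2 h
  omega

variable [Fintype V]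

theorem sum_jj_cherries (hH : Lin H) :
    ∑ E ∈ H, ∑ x ∈ Eᶜ, jj H E x = 2 * (cherries H).card := by
  have h1 : (cherries H).card =
      ∑ E ∈ H, (H.filter (fun F => E ≠ F ∧ (E ∩ F).Nonempty)).card := by
    unfold cherries
    rw [Finset.card_filter, Finset.sum_product]
    refine Finset.sum_congr rfl fun E _ => ?_
    rw [Finset.card_filter]
  rw [h1, Finset.mul_sum]
  refine Finset.sum_congr rfl fun E hE => ?_
  have h2 : ∀ x ∈ Eᶜ, jj H E x = ∑ F ∈ H, if x ∈ F ∧ (E ∩ F).Nonempty then 1 else 0 := by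
    intro x hx
    rw [Finset.mem_compl] at hx
    rw [jj_eq_thr hH hE hx, thr, Finset.card_filter]
  rw [Finset.sum_congr rfl h2, Finset.sum_comm, Finset.card_filter, Finset.mul_sum]
  refine Finset.sum_congr rfl fun F hF => ?_
  rw [← Finset.card_filter]
  by_cases hEF : E = F
  · subst hEF
    have : Eᶜ.filter (fun x => x ∈ E ∧ (E ∩ E).Nonempty) = ∅ := by
      rw [Finset.filter_eq_empty_iff]
      intro x hx h
      exact (Finset.mem_compl.1 hx) h.1
    rw [this]
    simp
  · by_cases hn : (E ∩ F).Nonempty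
    · have h3 : Eᶜ.filter (fun x => x ∈ F ∧ (E ∩ F).Nonempty) = F \ E := by
        ext x
        simp only [Finset.mem_filter, Finset.mem_compl, Finset.mem_sdiff]
        tauto
      rw [h3, if_pos ⟨hEF, hn⟩]
      have h4 := inter_card_one hH hE hF hEF hn
      have h5 := Finset.card_sdiff_add_card_inter F E
      rw [hH.1 F hF, Finset.inter_comm F E, h4] at h5
      omega
    · have : Eᶜ.filter (fun x => x ∈ F ∧ (E ∩ F).Nonempty) = ∅ := by
        rw [Finset.filter_eq_empty_iff]
        intro x _ h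
        exact hn h.2
      rw [this, if_neg fun h => hn h.2]
      simp

theorem sum_jj2_cherries (hH : Lin H) :
    ∑ E ∈ H, ∑ x ∈ Eᶜ, (jj H E x) * (jj H E x - 1) = ∑ p ∈ cherries H, wt H p.1 p.2 := by
  have h1 : ∑ p ∈ cherries H, wt H p.1 p.2 =
      ∑ E ∈ H, ∑ F ∈ H, (H.filter (fun G => Loose E F G)).card := by
    unfold cherries wt
    rw [Finset.sum_filter, Finset.sum_product]
    refine Finset.sum_congr rfl fun E _ => Finset.sum_congr rfl fun F _ => ?_
    by_cases h : E ≠ F ∧ (E ∩ F).Nonempty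
    · rw [if_pos h]
    · rw [if_neg h, eq_comm, Finset.card_eq_zero, Finset.filter_eq_empty_iff]
      rintro G _ ⟨h1, h2, h3, h4⟩
      refine h ⟨?_, h1⟩
      rintro rfl
      rw [Finset.inter_self] at h4
      rw [h4] at h2
      exact Finset.not_nonempty_empty h2
  rw [h1]
  refine Finset.sum_congr rfl fun E hE => ?_
  have h2 : ∀ x ∈ Eᶜ, (jj H E x) * (jj H E x - 1) =
      ((thr H E x).offDiag).card := by
    intro x hx
    rw [Finset.mem_compl] at hx
    rw [jj_eq_thr hH hE hx, Finset.offDiag_card, Nat.mul_sub, mul_one]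
  rw [Finset.sum_congr rfl h2]
  have h3 : ∑ F ∈ H, (H.filter (fun G => Loose E F G)).card =
      ((H ×ˢ H).filter (fun q => Loose E q.1 q.2)).card := by
    rw [Finset.card_filter, Finset.sum_product]
    refine Finset.sum_congr rfl fun F _ => ?_
    rw [Finset.card_filter]
  have h4 : ((H ×ˢ H).filter (fun q => Loose E q.1 q.2)) =
      Eᶜ.biUnion (fun x => (thr H E x).offDiag) := by
    ext ⟨F, G⟩
    simp only [Finset.mem_filter, Finset.mem_product, Finset.mem_biUnion, Finset.mem_compl,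
      Finset.mem_offDiag, thr]
    constructor
    · rintro ⟨⟨hF, hG⟩, l1, l2, ⟨x, hx⟩, l4⟩
      rw [Finset.mem_inter] at hx
      have hxE : x ∉ E := by
        intro h
        have : x ∈ E ∩ F ∩ G := by
          simp only [Finset.mem_inter]
          exact ⟨⟨h, hx.1⟩, hx.2⟩
        rw [l4] at this
        exact absurd this (Finset.notMem_empty x)
      refine ⟨x, hxE, ⟨hF, hx.1, l1⟩, ⟨hG, hx.2, l2⟩, ?_⟩
      rintro rfl
      rw [Finset.inter_assoc, Finset.inter_self] at l4
      rw [l4] at l1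
      exact Finset.not_nonempty_empty l1
    · rintro ⟨x, hxE, ⟨hF, hxF, l1⟩, ⟨hG, hxG, l2⟩, hne⟩
      refine ⟨⟨hF, hG⟩, l1, l2, ⟨x, Finset.mem_inter.2 ⟨hxF, hxG⟩⟩, ?_⟩
      rw [Finset.eq_empty_iff_forall_notMem]
      intro y hy
      simp only [Finset.mem_inter] at hy
      have hxy : x ≠ y := fun h => hxE (h ▸ hy.1.1)
      exact hne (line_unique hH hF hG hxy hxF hy.1.2 hxG hy.2)
  rw [h3, h4, Finset.card_biUnion]
  intro x hx y hy hxy
  rw [Function.onFun, Finset.disjoint_left]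
  rintro ⟨F, G⟩ h h'
  simp only [Finset.mem_offDiag, thr, Finset.mem_filter] at h h'
  exact h.2.2 (line_unique hH h.1.1 h.2.1.1 hxy h.1.2.1 h'.1.2.1 h.2.1.2.1 h'.2.1.2.1)

theorem theta_cherries (hH : Lin H) :
    theta H = ∑ p ∈ cherries H, (2 - (wt H p.1 p.2 : ℤ)) := by
  have h1 := sum_jj_cherries hH
  have h2 := sum_jj2_cherries hH
  have h3 : theta H = ((∑ E ∈ H, ∑ x ∈ Eᶜ, jj H E x : ℕ) : ℤ) -
      ((∑ E ∈ H, ∑ x ∈ Eᶜ, (jj H E x) * (jj H E x - 1) : ℕ) : ℤ) := by
    unfold theta f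
    push_cast
    rw [← Finset.sum_sub_distrib]
    refine Finset.sum_congr rfl fun E hE => ?_
    rw [← Finset.sum_sub_distrib]
    refine Finset.sum_congr rfl fun x _ => ?_
    have h3 := jj_le_three (H := H) (hH.1 E hE) x
    interval_cases jj H E x <;> norm_num
  rw [h3, h1, h2, Finset.sum_sub_distrib, Finset.sum_const, nsmul_eq_mul]
  push_cast
  ring

/-- The number of wheels: pairs `(E, x)`, `x ∉ E`, such that `x` is adjacent to all points of `E`. -/
def wheels (H : Finset (Finset V)) : ℕ := ∑ E ∈ H, (Eᶜ.filter (fun x => jj H E x = 3)).card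

theorem cnt_cherries (hH : Lin H) :
    2 * cnt H + ∑ p ∈ cherries H, wt H p.1 p.2 = 4 * (cherries H).card + 2 * wheels H := by
  have h1 := sum_jj_cherries hH
  have h2 := sum_jj2_cherries hH
  have h3 : 2 * cnt H + ∑ E ∈ H, ∑ x ∈ Eᶜ, (jj H E x) * (jj H E x - 1) =
      2 * ∑ E ∈ H, ∑ x ∈ Eᶜ, jj H E x + 2 * wheels H := by
    unfold cnt wheels
    simp only [Finset.card_filter, Finset.mul_sum]
    rw [← Finset.sum_add_distrib, ← Finset.sum_add_distrib]
    refine Finset.sum_congr rfl fun E hE => ?_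
    rw [← Finset.sum_add_distrib, ← Finset.sum_add_distrib]
    refine Finset.sum_congr rfl fun x _ => ?_
    have h3 := jj_le_three (H := H) (hH.1 E hE) x
    interval_cases jj H E x <;> norm_num
  rw [h1, h2] at h3
  omega

end Pool.Agent.Lib.MP_c82047_co97
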