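import Pool.Agent.Lib.MP_c82047_co97.Stable
import Pool.Agent.Lib.MP_c82047_co97.Counts

/-!
# Consequences of the stable plane inequality
-/

namespace Pool.Agent.Lib.MP_c82047_co97

variable {V : Type*} [DecidableEq V] [Fintype V]

/-- `{v, x, y}` is a triple of `K` (with `v, x, y` different). -/
def L (K : Finset (Finset V)) (v x y : V) : Prop := v ≠ x ∧ v ≠ y ∧ x ≠ y ∧ {v, x, y} ∈ K

/-- The consequences of the stable plane inequality, in terms of the sets `bd E` of the points `x`
such that the plane of `(E, x)` is not a seven-point plane. -/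
theorem bad_setup {K : Finset (Finset V)} (hK : Lin K) {k : ℕ} (hk : 5 ≤ k)
    (hfree : ∀ S : Finset V, k ≤ S.card → S.card < 2 * k → e K S + 4 ≤ S.card)
    (hG2 : ∀ S : Finset V, 2 ≤ S.card → S.card < k → e K S + 2 ≤ S.card) :
    ∃ blk bd : Finset V → Finset V,
      (∀ E ∈ K, E ⊆ blk E ∧ (blk E).card < k) ∧
      (∑ E ∈ K, ((bd E).card : ℤ) ≤ 30 * (3 * (Fintype.card V : ℤ) * K.card -
        4 * ∑ a, (deg K a : ℤ) ^ 2 + (6 * k + 12) * K.card)) ∧
      (8 * ∑ E ∈ K, ∑ x ∈ Eᶜ, (jj K E x : ℤ) * ((jj K E x : ℤ) - 1) ≤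
        9 * (Fintype.card V : ℤ) * K.card + 39 * ∑ E ∈ K, ((bd E).card : ℤ) + 48 * k * K.card) ∧
      (∀ x y : V, x ≠ y → ¬ Adj K x y → deg K x ≤
        (Finset.univ.filter (fun u => Adj K x u ∧ Adj K y u)).card + k +
          (K.filter (fun F => x ∈ F ∧ y ∈ bd F)).card) ∧
      (∀ v x y x' y' : V, L K v x y → L K v x' y' → Adj K x y' → Adj K x' y →
        x' ∈ blk {v, x, y} ∪ bd {v, x, y}) := by
  classical
  obtain ⟨blk, pl, hb, hb2, hpl, hsum⟩ := exists_planes hK hk hfree hG2
  set bd : Finset V → Finset V := fun E =>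
    Finset.univ.filter (fun x => x ∉ blk E ∧ ¬ Seven K blk (pl E x)) with hbd
  have hbdc : ∀ E, ((bd E).card : ℤ) =
      ∑ x ∈ (blk E)ᶜ, if Seven K blk (pl E x) then 0 else 1 := by
    intro E
    have : bd E = (blk E)ᶜ.filter (fun x => ¬ Seven K blk (pl E x)) := by
      ext x
      simp [hbd]
    rw [this, Finset.card_filter]
    push_cast
    refine Finset.sum_congr rfl fun x _ => ?_
    by_cases h : Seven K blk (pl E x) <;> simp [h]
  have hj3 : ∀ E ∈ K, ∀ x, jj K E x ≤ 3 := fun E hE x => jj_le_three (hK.1 E hE) x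
  refine ⟨blk, bd, fun E hE => ⟨(hb E hE).1, (hb E hE).2.1⟩, ?_, ?_, ?_, ?_⟩
  · -- first inequality
    have h1 := hsum (fun E x => 30 * (3 - 2 * (jj K E x : ℤ)) -
      if Seven K blk (pl E x) then 0 else 1) (by
        intro E hE x hx
        obtain ⟨hP, hEP, hpe⟩ := hpl E hE x hx
        have h2 : ∑ F ∈ K.filter (fun F => F ⊆ pl E x), ∑ y ∈ pl E x \ blk F,
            (30 * (3 - 2 * (jj K F y : ℤ)) - if Seven K blk (pl F y) then 0 else 1) =
            ∑ F ∈ K.filter (fun F => F ⊆ pl E x), ∑ y ∈ pl E x \ blk F,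
            (30 * (3 - 2 * (jj K F y : ℤ)) - if Seven K blk (pl E x) then 0 else 1) := by
          refine Finset.sum_congr rfl fun F hF => Finset.sum_congr rfl fun y hy => ?_
          rw [Finset.mem_filter] at hF
          rw [Finset.mem_sdiff] at hy
          rw [hpe F hF.1 hF.2 y hy.1 hy.2]
        rw [h2]
        by_cases h7 : Seven K blk (pl E x)
        · simp only [h7, if_true, sub_zero, ← Finset.mul_sum]
          exact mul_nonneg (by norm_num) h7.sum_j
        · simp only [h7, if_false]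
          rcases plane_stable hK hP with h | h
          · refine le_of_le_of_eq h ?_
            refine Finset.sum_congr rfl fun F _ => Finset.sum_congr rfl fun y _ => ?_
            ring
          · exact absurd h h7)
    have h2 : ∀ E ∈ K, ∑ x ∈ (blk E)ᶜ, (30 * (3 - 2 * (jj K E x : ℤ)) -
        if Seven K blk (pl E x) then 0 else 1) ≤ 90 * (Fintype.card V : ℤ) -
        60 * ∑ x ∈ Eᶜ, (jj K E x : ℤ) + 180 * k - ((bd E).card : ℤ) := by
      intro E hE
      rw [hbdc E, Finset.sum_sub_distrib]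
      have h3 : ∑ x ∈ Eᶜ, (jj K E x : ℤ) ≤ ∑ x ∈ (blk E)ᶜ, (jj K E x : ℤ) + 3 * k := by
        have h4 : Eᶜ ⊆ (blk E)ᶜ ∪ blk E := by
          intro x _
          simp only [Finset.mem_union, Finset.mem_compl]
          tauto
        calc ∑ x ∈ Eᶜ, (jj K E x : ℤ) ≤ ∑ x ∈ (blk E)ᶜ ∪ blk E, (jj K E x : ℤ) :=
              Finset.sum_le_sum_of_subset_of_nonneg h4 fun x _ _ => by positivity
          _ = ∑ x ∈ (blk E)ᶜ, (jj K E x : ℤ) + ∑ x ∈ blk E, (jj K E x : ℤ) :=
              Finset.sum_union disjoint_compl_left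
          _ ≤ ∑ x ∈ (blk E)ᶜ, (jj K E x : ℤ) + ∑ x ∈ blk E, (3 : ℤ) := by
              refine add_le_add le_rfl (Finset.sum_le_sum fun x _ => ?_)
              exact_mod_cast hj3 E hE x
          _ ≤ ∑ x ∈ (blk E)ᶜ, (jj K E x : ℤ) + 3 * k := by
              rw [Finset.sum_const, nsmul_eq_mul]
              have : ((blk E).card : ℤ) ≤ k := by exact_mod_cast (hb E hE).2.1.le
              linarith
      have h5 : ∑ x ∈ (blk E)ᶜ, (30 * (3 - 2 * (jj K E x : ℤ))) =
          90 * ((blk E)ᶜ.card : ℤ) - 60 * ∑ x ∈ (blk E)ᶜ, (jj K E x : ℤ) := by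
        rw [Finset.mul_sum, mul_comm (90 : ℤ), ← nsmul_eq_mul, ← Finset.sum_const,
          ← Finset.sum_sub_distrib]
        exact Finset.sum_congr rfl fun x _ => by ring
      have h6 : ((blk E)ᶜ.card : ℤ) ≤ Fintype.card V := by
        exact_mod_cast Finset.card_le_univ _
      rw [h5]
      linarith
    have h3 := h1.trans (Finset.sum_le_sum h2)
    simp only [Finset.sum_sub_distrib, Finset.sum_add_distrib, Finset.sum_const, nsmul_eq_mul,
      ← Finset.mul_sum] at h3
    rw [sum_jj hK] at h3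
    have h4 : ∑ a, (deg K a : ℤ) * (2 * (deg K a : ℤ) - 2) =
        2 * ∑ a, (deg K a : ℤ) ^ 2 - 6 * K.card := by
      have h5 := sum_deg hK.1
      have h6 : ∑ a, (deg K a : ℤ) = 3 * K.card := by exact_mod_cast h5
      calc ∑ a, (deg K a : ℤ) * (2 * (deg K a : ℤ) - 2) =
          2 * ∑ a, (deg K a : ℤ) ^ 2 - 2 * ∑ a, (deg K a : ℤ) := by
            rw [Finset.mul_sum, Finset.mul_sum, ← Finset.sum_sub_distrib]
            exact Finset.sum_congr rfl fun a _ => by ring
        _ = _ := by rw [h6]; ring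
    rw [h4] at h3
    linarith
  · -- second inequality
    have h1 := hsum (fun E x => (9 - 8 * ((jj K E x : ℤ) * ((jj K E x : ℤ) - 1))) +
      39 * if Seven K blk (pl E x) then 0 else 1) (by
        intro E hE x hx
        obtain ⟨hP, hEP, hpe⟩ := hpl E hE x hx
        have h2 : ∑ F ∈ K.filter (fun F => F ⊆ pl E x), ∑ y ∈ pl E x \ blk F,
            ((9 - 8 * ((jj K F y : ℤ) * ((jj K F y : ℤ) - 1))) +
              39 * if Seven K blk (pl F y) then 0 else 1) =
            ∑ F ∈ K.filter (fun F => F ⊆ pl E x), ∑ y ∈ pl E x \ blk F,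
            ((9 - 8 * ((jj K F y : ℤ) * ((jj K F y : ℤ) - 1))) +
              39 * if Seven K blk (pl E x) then 0 else 1) := by
          refine Finset.sum_congr rfl fun F hF => Finset.sum_congr rfl fun y hy => ?_
          rw [Finset.mem_filter] at hF
          rw [Finset.mem_sdiff] at hy
          rw [hpe F hF.1 hF.2 y hy.1 hy.2]
        rw [h2]
        by_cases h7 : Seven K blk (pl E x)
        · simp only [h7, if_true, mul_zero, add_zero]
          exact h7.sum_jj
        · simp only [h7, if_false]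
          refine Finset.sum_nonneg fun F hF => Finset.sum_nonneg fun y hy => ?_
          have h3 := hj3 F (Finset.mem_filter.1 hF).1 y
          interval_cases jj K F y <;> norm_num)
    have h2 : ∀ E ∈ K, ∑ x ∈ (blk E)ᶜ, ((9 - 8 * ((jj K E x : ℤ) * ((jj K E x : ℤ) - 1))) +
        39 * if Seven K blk (pl E x) then 0 else 1) ≤ 9 * (Fintype.card V : ℤ) -
        8 * ∑ x ∈ Eᶜ, (jj K E x : ℤ) * ((jj K E x : ℤ) - 1) + 48 * k +
        39 * ((bd E).card : ℤ) := by
      intro E hE
      rw [hbdc E, Finset.sum_add_distrib, ← Finset.mul_sum]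
      have hnn : ∀ x, (0 : ℤ) ≤ (jj K E x : ℤ) * ((jj K E x : ℤ) - 1) ∧
          (jj K E x : ℤ) * ((jj K E x : ℤ) - 1) ≤ 6 := by
        intro x
        have h3 := hj3 E hE x
        interval_cases jj K E x <;> norm_num
      have h3 : ∑ x ∈ Eᶜ, (jj K E x : ℤ) * ((jj K E x : ℤ) - 1) ≤
          ∑ x ∈ (blk E)ᶜ, (jj K E x : ℤ) * ((jj K E x : ℤ) - 1) + 6 * k := by
        have h4 : Eᶜ ⊆ (blk E)ᶜ ∪ blk E := by
          intro x _
          simp only [Finset.mem_union, Finset.mem_compl]
          tauto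
        calc ∑ x ∈ Eᶜ, (jj K E x : ℤ) * ((jj K E x : ℤ) - 1)
            ≤ ∑ x ∈ (blk E)ᶜ ∪ blk E, (jj K E x : ℤ) * ((jj K E x : ℤ) - 1) :=
              Finset.sum_le_sum_of_subset_of_nonneg h4 fun x _ _ => (hnn x).1
          _ = ∑ x ∈ (blk E)ᶜ, (jj K E x : ℤ) * ((jj K E x : ℤ) - 1) +
              ∑ x ∈ blk E, (jj K E x : ℤ) * ((jj K E x : ℤ) - 1) :=
              Finset.sum_union disjoint_compl_left
          _ ≤ ∑ x ∈ (blk E)ᶜ, (jj K E x : ℤ) * ((jj K E x : ℤ) - 1) + ∑ x ∈ blk E, (6 : ℤ) :=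
              add_le_add le_rfl (Finset.sum_le_sum fun x _ => (hnn x).2)
          _ ≤ ∑ x ∈ (blk E)ᶜ, (jj K E x : ℤ) * ((jj K E x : ℤ) - 1) + 6 * k := by
              rw [Finset.sum_const, nsmul_eq_mul]
              have : ((blk E).card : ℤ) ≤ k := by exact_mod_cast (hb E hE).2.1.le
              linarith
      have h5 : ∑ x ∈ (blk E)ᶜ, (9 - 8 * ((jj K E x : ℤ) * ((jj K E x : ℤ) - 1))) =
          9 * ((blk E)ᶜ.card : ℤ) -
            8 * ∑ x ∈ (blk E)ᶜ, (jj K E x : ℤ) * ((jj K E x : ℤ) - 1) := by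
        rw [Finset.mul_sum, mul_comm (9 : ℤ), ← nsmul_eq_mul, ← Finset.sum_const,
          ← Finset.sum_sub_distrib]
      have h6 : ((blk E)ᶜ.card : ℤ) ≤ Fintype.card V := by
        exact_mod_cast Finset.card_le_univ _
      rw [h5]
      linarith
    have h3 := h1.trans (Finset.sum_le_sum h2)
    simp only [Finset.sum_sub_distrib, Finset.sum_add_distrib, Finset.sum_const, nsmul_eq_mul,
      ← Finset.mul_sum] at h3
    linarith
  · -- codegrees
    intro x y hxy hadj
    have h1 := cdeg_ge hK hadj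
    have h2 : K.filter (fun E => x ∈ E) ⊆ K.filter (fun F => x ∈ F ∧ 1 ≤ jj K F y) ∪
        K.filter (fun F => x ∈ F ∧ y ∈ blk F) ∪ K.filter (fun F => x ∈ F ∧ y ∈ bd F) := by
      intro F hF
      rw [Finset.mem_filter] at hF
      simp only [Finset.mem_union, Finset.mem_filter]
      by_cases hy : y ∈ blk F
      · exact Or.inl (Or.inr ⟨hF.1, hF.2, hy⟩)
      · obtain ⟨hP, hEP, hpe⟩ := hpl F hF.1 y hy
        by_cases h7 : Seven K blk (pl F y)
        · exact Or.inl (Or.inl ⟨hF.1, hF.2, h7.one_le F hF.1 ((Finset.subset_insert y F).trans hEP)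
            y (hEP (Finset.mem_insert_self y F)) hy⟩)
        · exact Or.inr ⟨hF.1, hF.2, by simp [hbd, hy, h7]⟩
    have h3 : (K.filter (fun F => x ∈ F ∧ y ∈ blk F)).card ≤ k := by
      rcases (K.filter (fun F => x ∈ F ∧ y ∈ blk F)).eq_empty_or_nonempty with h | ⟨F, hF⟩
      · rw [h]; simp
      · rw [Finset.mem_filter] at hF
        have h4 : K.filter (fun F => x ∈ F ∧ y ∈ blk F) ⊆
            K.filter (fun E => x ∈ E ∧ E ⊆ blk F) := by
          intro E hE
          rw [Finset.mem_filter] at hE ⊢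
          have h5 : blk E = blk F := by
            refine hb2 E hE.1 F hF.1 ?_
            have h6 : ({x, y} : Finset V) ⊆ blk E ∩ blk F := by
              intro z hz
              rw [Finset.mem_insert, Finset.mem_singleton] at hz
              rcases hz with rfl | rfl
              · exact Finset.mem_inter.2 ⟨(hb E hE.1).1 hE.2.1, (hb F hF.1).1 hF.2.1⟩
              · exact Finset.mem_inter.2 ⟨hE.2.2, hF.2.2⟩
            have h7 := Finset.card_le_card h6
            rwa [Finset.card_pair hxy] at h7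
          exact ⟨hE.1, hE.2.1, h5 ▸ (hb E hE.1).1⟩
        have h5 := Finset.card_le_card h4
        have h6 := two_mul_card_le hK x (blk F)
        have h7 := (hb F hF.1).2.1
        omega
    have h4 := Finset.card_le_card h2
    have h5 := Finset.card_union_le (K.filter (fun F => x ∈ F ∧ 1 ≤ jj K F y) ∪
        K.filter (fun F => x ∈ F ∧ y ∈ blk F)) (K.filter (fun F => x ∈ F ∧ y ∈ bd F))
    have h6 := Finset.card_union_le (K.filter (fun F => x ∈ F ∧ 1 ≤ jj K F y))
        (K.filter (fun F => x ∈ F ∧ y ∈ blk F))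
    unfold deg
    omega
  · -- matched cherries
    intro v x y x' y' h1 h2 h3 h4
    obtain ⟨a1, a2, a3, a4⟩ := h1
    obtain ⟨b1, b2, b3, b4⟩ := h2
    rw [Finset.mem_union]
    by_contra hcon
    push Not at hcon
    obtain ⟨hx', hbd'⟩ := hcon
    have h7 : Seven K blk (pl {v, x, y} x') := by
      by_contra h7
      exact hbd' (by simp [hbd, hx', h7])
    obtain ⟨hP, hEP, hpe⟩ := hpl _ a4 x' hx'
    have hsub : ({v, x, y} : Finset V) ⊆ pl {v, x, y} x' := (Finset.subset_insert x' _).trans hEP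
    have hx'P : x' ∈ pl {v, x, y} x' := hEP (Finset.mem_insert_self x' _)
    have hF' : ({v, x', y'} : Finset V) ⊆ pl {v, x, y} x' := by
      refine hP.closed _ b4 ?_
      have h5 : ({v, x'} : Finset V) ⊆ {v, x', y'} ∩ pl {v, x, y} x' := by
        intro z hz
        rw [Finset.mem_insert, Finset.mem_singleton] at hz
        rcases hz with rfl | rfl
        · exact Finset.mem_inter.2 ⟨by simp, hsub (by simp)⟩
        · exact Finset.mem_inter.2 ⟨by simp, hx'P⟩
      have h6 := Finset.card_le_card h5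
      rwa [Finset.card_pair b1] at h6
    refine h7.no_matched _ a4 _ b4 hsub hF' ?_ v x y x' y' rfl rfl ⟨h3, h4.symm⟩
    intro heq
    apply hx'
    have : x' ∈ ({v, x, y} : Finset V) := by rw [heq]; simp
    exact (hb _ a4).1 this

end Pool.Agent.Lib.MP_c82047_co97
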