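import Pool.Agent.Lib.MP_c82047_co97.Hull

/-!
# Blocks and planes

In a linear system `K` without sets `S`, `k ≤ |S| < 2k`, containing at least `|S| - 3` triples, and
such that every small set with at least two points contains at most `|S| - 2` triples, every triple
`E` lies in a block `blk E` (a maximal small set with `|S| - 2` triples) and the pairs `(E, x)`,
`x ∉ blk E`, are partitioned by the planes (the maximal small sets with `|S| - 3` triples).
-/

namespace Pool.Agent.Lib.MP_c82047_co97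

variable {V : Type*} [DecidableEq V]

theorem jj_le_three {H : Finset (Finset V)} {E : Finset V} (hE : E.card = 3) (x : V) :
    jj H E x ≤ 3 := by
  rw [← hE]
  exact Finset.card_filter_le _ _

theorem f_zero : f 0 = 0 := by simp [f]

theorem f_bounds {j : ℕ} (h : j ≤ 3) : -3 ≤ f j ∧ f j ≤ 1 := by
  interval_cases j <;> simp [f]

/-- The properties of a plane `P`. -/
structure PlaneData (K : Finset (Finset V)) (k : ℕ) (blk : Finset V → Finset V) (P : Finset V) :
    Prop where
  card_lt : P.card < k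
  card_eq : P.card = e K P + 3
  /-- blocks of triples of `P` are inside `P` -/
  blk_sub : ∀ E ∈ K, E ⊆ P → E ⊆ blk E ∧ blk E ⊆ P
  blk_card : ∀ E ∈ K, E ⊆ P → (blk E).card = e K (blk E) + 2
  blk_eq : ∀ E ∈ K, ∀ F ∈ K, E ⊆ P → F ⊆ P → 2 ≤ (blk E ∩ blk F).card → blk E = blk F
  sparse2 : ∀ S : Finset V, S ⊆ P → 2 ≤ S.card → e K S + 2 ≤ S.card
  sparse3 : ∀ E ∈ K, ∀ x ∈ P, E ⊆ P → x ∉ blk E → ∀ S : Finset V, E ⊆ S → x ∈ S → S ⊆ P →
      e K S + 3 ≤ S.card
  closed : ∀ F ∈ K, 2 ≤ (F ∩ P).card → F ⊆ P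
  exists_pair : ∃ E ∈ K, E ⊆ P ∧ ∃ x ∈ P, x ∉ blk E

variable [Fintype V]

/-- Blocks and planes exist; the planes partition the pairs `(E, x)`, `x ∉ blk E`, and a sum over
all these pairs is nonnegative as soon as its restriction to every plane is nonnegative. -/
theorem exists_planes {K : Finset (Finset V)} (hK : Lin K) {k : ℕ} (hk : 5 ≤ k)
    (hfree : ∀ S : Finset V, k ≤ S.card → S.card < 2 * k → e K S + 4 ≤ S.card)
    (hG2 : ∀ S : Finset V, 2 ≤ S.card → S.card < k → e K S + 2 ≤ S.card) :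
    ∃ blk : Finset V → Finset V, ∃ pl : Finset V → V → Finset V,
      (∀ E ∈ K, E ⊆ blk E ∧ (blk E).card < k ∧ (blk E).card = e K (blk E) + 2) ∧
      (∀ E ∈ K, ∀ F ∈ K, 2 ≤ (blk E ∩ blk F).card → blk E = blk F) ∧
      (∀ E ∈ K, ∀ x, x ∉ blk E → PlaneData K k blk (pl E x) ∧ insert x E ⊆ pl E x ∧
        ∀ F ∈ K, F ⊆ pl E x → ∀ y ∈ pl E x, y ∉ blk F → pl F y = pl E x) ∧
      ∀ g : Finset V → V → ℤ, (∀ E ∈ K, ∀ x, x ∉ blk E →
          0 ≤ ∑ F ∈ K.filter (fun F => F ⊆ pl E x), ∑ y ∈ pl E x \ blk F, g F y) →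
        0 ≤ ∑ E ∈ K, ∑ x ∈ (blk E)ᶜ, g E x := by
  have hblk : ∀ E : Finset V, ∃ M : Finset V, E ∈ K → E ⊆ M ∧ M.card < k ∧ M.card = e K M + 2 ∧
      ∀ S : Finset V, E ⊆ S → S.card < k → S.card ≤ e K S + 2 → S ⊆ M := by
    intro E
    by_cases hE : E ∈ K
    · obtain ⟨M, hM⟩ := hull hfree (r := 2) (by norm_num) (A := E) (by rw [hK.1 E hE]; omega)
        (by rw [hK.1 E hE]; have := e_pos hE (subset_refl E); omega)
        (fun S hS hSk => hG2 S (by
          have := Finset.card_le_card hS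
          rw [hK.1 E hE] at this; omega) hSk)
      exact ⟨M, fun _ => hM⟩
    · exact ⟨∅, fun h => absurd h hE⟩
  choose blk hblk using hblk
  have b0 : ∀ E ∈ K, E ⊆ blk E := fun E hE => (hblk E hE).1
  have bk : ∀ E ∈ K, (blk E).card < k := fun E hE => (hblk E hE).2.1
  have b1 : ∀ E ∈ K, (blk E).card = e K (blk E) + 2 := fun E hE => (hblk E hE).2.2.1
  have bmax : ∀ E ∈ K, ∀ S : Finset V, E ⊆ S → S.card < k → S.card ≤ e K S + 2 → S ⊆ blk E :=
    fun E hE => (hblk E hE).2.2.2
  have b2 : ∀ E ∈ K, ∀ F ∈ K, 2 ≤ (blk E ∩ blk F).card → blk E = blk F := by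
    intro E hE F hF h2
    have h1 := e_submod K (blk E) (blk F)
    have h3 := card_union_add_inter (blk E) (blk F)
    have h4 := hG2 (blk E ∩ blk F) h2
      (lt_of_le_of_lt (Finset.card_le_card Finset.inter_subset_left) (bk E hE))
    have h5 := b1 E hE
    have h6 := b1 F hF
    have hU : (blk E ∪ blk F).card ≤ e K (blk E ∪ blk F) + 2 := by omega
    have hUk := union_small hfree (by norm_num) (bk E hE) (bk F hF) hU
    have s1 : blk E ∪ blk F ⊆ blk E :=
      bmax E hE _ ((b0 E hE).trans Finset.subset_union_left) hUk hU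
    have s2 : blk E ∪ blk F ⊆ blk F :=
      bmax F hF _ ((b0 F hF).trans Finset.subset_union_right) hUk hU
    exact Finset.Subset.antisymm (Finset.subset_union_left.trans s2)
      (Finset.subset_union_right.trans s1)
  have hpl : ∀ E : Finset V, ∀ x : V, ∃ M : Finset V, E ∈ K → x ∉ blk E →
      insert x E ⊆ M ∧ M.card < k ∧ M.card = e K M + 3 ∧
      ∀ S : Finset V, insert x E ⊆ S → S.card < k → S.card ≤ e K S + 3 → S ⊆ M := by
    intro E x
    by_cases hE : E ∈ K
    · by_cases hx : x ∈ blk E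
      · exact ⟨∅, fun _ h => absurd hx h⟩
      · have hxE : x ∉ E := fun h => hx (b0 E hE h)
        have hc : (insert x E).card = 4 := by
          rw [Finset.card_insert_of_notMem hxE, hK.1 E hE]
        obtain ⟨M, hM⟩ := hull hfree (r := 3) le_rfl (A := insert x E) (by omega)
          (by rw [hc]; have := e_pos hE (Finset.subset_insert x E); omega)
          (fun S hS hSk => by
            by_contra hcon
            exact hx (bmax E hE S ((Finset.subset_insert x E).trans hS) hSk (by omega)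
              (hS (Finset.mem_insert_self x E))))
        exact ⟨M, fun _ _ => hM⟩
    · exact ⟨∅, fun h => absurd h hE⟩
  choose pl hpl using hpl
  have g3 : ∀ E ∈ K, ∀ x, x ∉ blk E → ∀ S : Finset V, E ⊆ S → x ∈ S → S.card < k →
      e K S + 3 ≤ S.card := by
    intro E hE x hx S hES hxS hSk
    by_contra hcon
    exact hx (bmax E hE S hES hSk (by omega) hxS)
  -- properties of planes
  have p2 : ∀ E ∈ K, ∀ x, x ∉ blk E → ∀ F ∈ K, F ⊆ pl E x → ∀ y ∈ pl E x, y ∉ blk F →
      pl F y = pl E x := by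
    intro E hE x hx F hF hFP y hyP hy
    obtain ⟨q0, q1, q2, q3⟩ := hpl E x hE hx
    obtain ⟨r0, r1, r2, r3⟩ := hpl F y hF hy
    have s1 : pl E x ⊆ pl F y := r3 _ (Finset.insert_subset hyP hFP) q1 (by omega)
    have s2 : pl F y ⊆ pl E x := q3 _ (q0.trans s1) r1 (by omega)
    exact Finset.Subset.antisymm s2 s1
  have p3 : ∀ E ∈ K, ∀ x, x ∉ blk E → ∀ F ∈ K, 2 ≤ (F ∩ pl E x).card → F ⊆ pl E x := by
    intro E hE x hx F hF h2
    obtain ⟨q0, q1, q2, q3⟩ := hpl E x hE hx
    have hEP : E ⊆ pl E x := (Finset.subset_insert x E).trans q0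
    by_contra hnot
    have h1 := card_union_add_inter (pl E x) F
    have hF3 := hK.1 F hF
    rw [Finset.inter_comm] at h2
    have hee : e K (pl E x) + 1 ≤ e K (pl E x ∪ F) := by
      unfold e
      have : (K.filter (fun G => G ⊆ pl E x)) ∪ {F} ⊆ K.filter (fun G => G ⊆ pl E x ∪ F) := by
        intro G hG
        simp only [Finset.mem_union, Finset.mem_filter, Finset.mem_singleton] at hG ⊢
        rcases hG with ⟨g1, g2⟩ | rfl
        · exact ⟨g1, g2.trans Finset.subset_union_left⟩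
        · exact ⟨hF, Finset.subset_union_right⟩
      have h := Finset.card_le_card this
      rw [Finset.card_union_of_disjoint] at h
      · simpa using h
      · rw [Finset.disjoint_singleton_right]
        intro h'
        exact hnot (Finset.mem_filter.1 h').2
    have hU : (pl E x ∪ F).card ≤ e K (pl E x ∪ F) + 3 := by omega
    have hUk := union_small hfree le_rfl q1 (by omega : F.card < k) hU
    exact hnot (Finset.subset_union_right.trans
      (q3 _ (q0.trans Finset.subset_union_left) hUk hU))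
  have p4 : ∀ E ∈ K, ∀ x, x ∉ blk E → ∀ F ∈ K, F ⊆ pl E x → blk F ⊆ pl E x := by
    intro E hE x hx F hF hFP
    obtain ⟨q0, q1, q2, q3⟩ := hpl E x hE hx
    have h1 := e_submod K (pl E x) (blk F)
    have h3 := card_union_add_inter (pl E x) (blk F)
    have h2 : 2 ≤ (pl E x ∩ blk F).card := by
      have := Finset.card_le_card (Finset.subset_inter hFP (b0 F hF))
      rw [hK.1 F hF] at this
      omega
    have h4 := hG2 (pl E x ∩ blk F) h2
      (lt_of_le_of_lt (Finset.card_le_card Finset.inter_subset_left) q1)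
    have h6 := b1 F hF
    have hU : (pl E x ∪ blk F).card ≤ e K (pl E x ∪ blk F) + 3 := by omega
    have hUk := union_small hfree le_rfl q1 (bk F hF) hU
    exact Finset.subset_union_right.trans (q3 _ (q0.trans Finset.subset_union_left) hUk hU)
  have hPD : ∀ E ∈ K, ∀ x, x ∉ blk E → PlaneData K k blk (pl E x) := by
    intro E hE x hx
    obtain ⟨q0, q1, q2, q3⟩ := hpl E x hE hx
    exact
      { card_lt := q1
        card_eq := q2
        blk_sub := fun F hF hFP => ⟨b0 F hF, p4 E hE x hx F hF hFP⟩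
        blk_card := fun F hF _ => b1 F hF
        blk_eq := fun F hF G hG _ _ h => b2 F hF G hG h
        sparse2 := fun S hS h2 => hG2 S h2 (lt_of_le_of_lt (Finset.card_le_card hS) q1)
        sparse3 := fun F hF y _ _ hy S hFS hyS hSP => g3 F hF y hy S hFS hyS
          (lt_of_le_of_lt (Finset.card_le_card hSP) q1)
        closed := fun F hF h => p3 E hE x hx F hF h
        exists_pair := ⟨E, hE, (Finset.subset_insert x E).trans q0, x,
          q0 (Finset.mem_insert_self x E), hx⟩ }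
  refine ⟨blk, pl, fun E hE => ⟨b0 E hE, bk E hE, b1 E hE⟩, b2, fun E hE x hx =>
    ⟨hPD E hE x hx, (hpl E x hE hx).1, p2 E hE x hx⟩, fun g' hg' => ?_⟩
  -- partition into planes
  set g : Finset V × V → ℤ := fun p => g' p.1 p.2 with hg
  set I : Finset (Finset V × V) := (K ×ˢ Finset.univ).filter (fun p => p.2 ∉ blk p.1) with hI
  have hsum : ∑ E ∈ K, ∑ x ∈ (blk E)ᶜ, g' E x = ∑ p ∈ I, g p := by
    rw [hI, Finset.sum_filter, Finset.sum_product]
    refine Finset.sum_congr rfl fun E _ => ?_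
    rw [← Finset.sum_filter]
    refine Finset.sum_congr ?_ fun x _ => rfl
    ext x
    simp
  rw [hsum, ← Finset.sum_fiberwise_of_maps_to (g := fun p => pl p.1 p.2)
    (t := I.image (fun p => pl p.1 p.2)) (fun p hp => Finset.mem_image_of_mem _ hp)]
  refine Finset.sum_nonneg fun P hP => ?_
  obtain ⟨⟨E, x⟩, hEx, hPE⟩ := Finset.mem_image.1 hP
  simp only [hI, Finset.mem_filter, Finset.mem_product, Finset.mem_univ, and_true] at hEx hPE
  obtain ⟨hE, hx⟩ := hEx
  obtain ⟨q0, q1, q2, q3⟩ := hpl E x hE hx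
  subst hPE
  set P := pl E x with hPdef
  have hfib : I.filter (fun p => pl p.1 p.2 = P) =
      ((K.filter (fun F => F ⊆ P)).sigma (fun F => P \ blk F)).image
        (fun s : (_ : Finset V) × V => (s.1, s.2)) := by
    ext ⟨F, y⟩
    simp only [hI, Finset.mem_filter, Finset.mem_product, Finset.mem_univ, and_true,
      Finset.mem_image, Finset.mem_sigma, Finset.mem_sdiff, Sigma.exists, Prod.mk.injEq]
    constructor
    · rintro ⟨⟨hF, hy⟩, hpF⟩
      obtain ⟨r0, r1, r2, r3⟩ := hpl F y hF hy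
      rw [hpF] at r0
      exact ⟨F, y, ⟨⟨hF, (Finset.subset_insert y F).trans r0⟩,
        r0 (Finset.mem_insert_self y F), hy⟩, rfl, rfl⟩
    · rintro ⟨F', y', ⟨⟨hF, hFP⟩, hyP, hy⟩, rfl, rfl⟩
      exact ⟨⟨hF, hy⟩, p2 E hE x hx F' hF hFP y' hyP hy⟩
  have hinj : Function.Injective (fun s : (_ : Finset V) × V => (s.1, s.2)) := by
    rintro ⟨a, b⟩ ⟨c, d⟩ h
    simp only [Prod.mk.injEq] at h
    obtain ⟨rfl, rfl⟩ := h
    rfl
  rw [hfib, Finset.sum_image (fun a _ b _ h => hinj h), Finset.sum_sigma]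
  exact hg' E hE x hx

/-- Blocks exist, and a sum over all pairs `(E, x)`, `x ∉ blk E`, is nonnegative as soon as its
restriction to every plane is nonnegative. -/
theorem exists_blocks {K : Finset (Finset V)} (hK : Lin K) {k : ℕ} (hk : 5 ≤ k)
    (hfree : ∀ S : Finset V, k ≤ S.card → S.card < 2 * k → e K S + 4 ≤ S.card)
    (hG2 : ∀ S : Finset V, 2 ≤ S.card → S.card < k → e K S + 2 ≤ S.card) :
    ∃ blk : Finset V → Finset V, (∀ E ∈ K, E ⊆ blk E ∧ (blk E).card < k ∧
        (blk E).card = e K (blk E) + 2) ∧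
      (∀ E ∈ K, ∀ F ∈ K, 2 ≤ (blk E ∩ blk F).card → blk E = blk F) ∧
      ∀ g : Finset V → V → ℤ, (∀ P : Finset V, PlaneData K k blk P →
          0 ≤ ∑ E ∈ K.filter (fun E => E ⊆ P), ∑ x ∈ P \ blk E, g E x) →
        0 ≤ ∑ E ∈ K, ∑ x ∈ (blk E)ᶜ, g E x := by
  obtain ⟨blk, pl, h1, h2, h3, h4⟩ := exists_planes hK hk hfree hG2
  exact ⟨blk, h1, h2, fun g hg => h4 g fun E hE x hx => hg _ (h3 E hE x hx).1⟩

end Pool.Agent.Lib.MP_c82047_co97
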