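import Pool.Agent.Lib.MP_c82047_co97.Assembly

/-!
# Counting matched cherries in a rectangle
-/

namespace Pool.Agent.Lib.MP_c82047_co97

variable {V : Type*} [DecidableEq V] {K : Finset (Finset V)}

theorem L.symm {v x y : V} (h : L K v x y) : L K v y x :=
  ⟨h.2.1, h.1, h.2.2.1.symm, by
    have := h.2.2.2
    rwa [Finset.pair_comm x y] at this⟩

theorem L.unique (hK : Lin K) {v x y z : V} (h : L K v x y) (h' : L K v x z) : y = z := by
  obtain ⟨a1, a2, a3, a4⟩ := h
  obtain ⟨b1, b2, b3, b4⟩ := h'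
  have h1 := line_unique hK a4 b4 a1 (by simp) (by simp) (by simp) (by simp)
  have h2 : y ∈ ({v, x, z} : Finset V) := by rw [← h1]; simp
  simp only [Finset.mem_insert, Finset.mem_singleton] at h2
  rcases h2 with h2 | h2 | h2
  · exact absurd h2.symm a2
  · exact absurd h2.symm a3
  · exact h2

theorem exists_third (hK : Lin K) {x y : V} (h : Adj K x y) : ∃ v, L K v x y := by
  obtain ⟨hxy, E, hE, hx, hy⟩ := h
  have h3 := hK.1 E hE
  have h1 : ((E.erase x).erase y).card = 1 := by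
    rw [Finset.card_erase_of_mem (Finset.mem_erase.2 ⟨hxy.symm, hy⟩), Finset.card_erase_of_mem hx,
      h3]
  obtain ⟨v, hv⟩ := Finset.card_eq_one.1 h1
  have hv' : v ∈ (E.erase x).erase y := by rw [hv]; simp
  rw [Finset.mem_erase, Finset.mem_erase] at hv'
  refine ⟨v, hv'.2.1, hv'.1, hxy, ?_⟩
  have h2 : ({v, x, y} : Finset V) ⊆ E := by
    intro z hz
    simp only [Finset.mem_insert, Finset.mem_singleton] at hz
    rcases hz with rfl | rfl | rfl
    · exact hv'.2.2
    · exact hx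
    · exact hy
  have h4 : ({v, x, y} : Finset V).card = 3 :=
    Finset.card_eq_three.2 ⟨v, x, y, hv'.2.1, hv'.1, hxy, rfl⟩
  rw [Finset.eq_of_subset_of_card_le h2 (by rw [h3, h4])]
  exact hE

variable [Fintype V]

theorem cherry_count (hK : Lin K) (W : Finset V → Finset V)
    (hW : ∀ v x y x' y' : V, L K v x y → L K v x' y' → Adj K x y' → Adj K x' y →
      x' ∈ W {v, x, y}) (A B : Finset V) (N : ℕ)
    (hN : ((A ×ˢ B).filter (fun p => ¬ Adj K p.1 p.2)).card ≤ N) :
    ∃ m : ℕ, A.card * B.card ≤ m + N ∧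
      m ^ 2 ≤ Fintype.card V * (2 * (Fintype.card V * N) + 9 * ∑ F ∈ K, (W F).card) := by
  classical
  set M : V → Finset (V × V) := fun v => (A ×ˢ B).filter (fun p => L K v p.1 p.2) with hM
  refine ⟨∑ v, (M v).card, ?_, ?_⟩
  · have h1 : A ×ˢ B ⊆ Finset.univ.biUnion M ∪ (A ×ˢ B).filter (fun p => ¬ Adj K p.1 p.2) := by
      intro p hp
      rw [Finset.mem_union]
      by_cases h : Adj K p.1 p.2
      · obtain ⟨v, hv⟩ := exists_third hK h
        refine Or.inl (Finset.mem_biUnion.2 ⟨v, Finset.mem_univ _, ?_⟩)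
        rw [hM, Finset.mem_filter]
        exact ⟨hp, hv⟩
      · exact Or.inr (Finset.mem_filter.2 ⟨hp, h⟩)
    have h2 := Finset.card_le_card h1
    rw [Finset.card_product] at h2
    have h3 := Finset.card_union_le (Finset.univ.biUnion M)
      ((A ×ˢ B).filter (fun p => ¬ Adj K p.1 p.2))
    have h4 : (Finset.univ.biUnion M).card ≤ ∑ v, (M v).card := Finset.card_biUnion_le
    omega
  · have h1 : (∑ v, (M v).card) ^ 2 ≤ Fintype.card V * ∑ v, (M v).card ^ 2 := by
      have := sq_sum_le_card_mul_sum_sq (s := (Finset.univ : Finset V)) (f := fun v => (M v).card)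
      simpa using this
    refine h1.trans (Nat.mul_le_mul_left _ ?_)
    -- the set of pairs of members of the same `M v`
    set Q : Finset (V × ((V × V) × (V × V))) :=
      Finset.univ.filter (fun q => q.2.1 ∈ M q.1 ∧ q.2.2 ∈ M q.1) with hQ
    have hQc : ∑ v, (M v).card ^ 2 = Q.card := by
      have h2 : Q = (Finset.univ : Finset V).biUnion (fun v => {v} ×ˢ (M v ×ˢ M v)) := by
        ext ⟨v, p, q⟩
        simp only [hQ, Finset.mem_filter, Finset.mem_univ, true_and, Finset.mem_biUnion,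
          Finset.mem_product, Finset.mem_singleton]
        constructor
        · rintro ⟨h, h'⟩
          exact ⟨v, rfl, h, h'⟩
        · rintro ⟨w, rfl, h, h'⟩
          exact ⟨h, h'⟩
      rw [h2, Finset.card_biUnion]
      · refine Finset.sum_congr rfl fun v _ => ?_
        rw [Finset.card_product, Finset.card_product, Finset.card_singleton, one_mul, sq]
      · intro v _ w _ hvw
        rw [Function.onFun, Finset.disjoint_left]
        rintro ⟨u, p⟩ h h'
        rw [Finset.mem_product, Finset.mem_singleton] at h h'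
        exact hvw (h.1.symm.trans h'.1)
    rw [hQc]
    set NA := (A ×ˢ B).filter (fun p => ¬ Adj K p.1 p.2) with hNA
    -- the three parts
    set Q1 := Q.filter (fun q => ¬ Adj K q.2.1.1 q.2.2.2) with hQ1
    set Q2 := Q.filter (fun q => ¬ Adj K q.2.2.1 q.2.1.2) with hQ2
    set Q3 := Q.filter (fun q => Adj K q.2.1.1 q.2.2.2 ∧ Adj K q.2.2.1 q.2.1.2) with hQ3
    have hcov : Q ⊆ Q1 ∪ Q2 ∪ Q3 := by
      intro q hq
      simp only [hQ1, hQ2, hQ3, Finset.mem_union, Finset.mem_filter, hq, true_and]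
      tauto
    have hmem : ∀ q ∈ Q, (q.2.1.1 ∈ A ∧ q.2.1.2 ∈ B ∧ L K q.1 q.2.1.1 q.2.1.2) ∧
        (q.2.2.1 ∈ A ∧ q.2.2.2 ∈ B ∧ L K q.1 q.2.2.1 q.2.2.2) := by
      intro q hq
      simp only [hQ, hM, Finset.mem_filter, Finset.mem_univ, true_and, Finset.mem_product] at hq
      obtain ⟨⟨⟨a1, a2⟩, a3⟩, ⟨b1, b2⟩, b3⟩ := hq
      exact ⟨⟨a1, a2, a3⟩, b1, b2, b3⟩
    have c1 : Q1.card ≤ Fintype.card V * N := by
      refine le_trans ?_ (Nat.mul_le_mul_left _ hN)
      rw [← Finset.card_univ, ← Finset.card_product]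
      refine Finset.card_le_card_of_injOn (fun q => (q.1, (q.2.1.1, q.2.2.2))) ?_ ?_
      · intro q hq
        rw [Finset.mem_coe, hQ1, Finset.mem_filter] at hq
        obtain ⟨h1, h2⟩ := hmem q hq.1
        rw [Finset.mem_coe, Finset.mem_product, hNA, Finset.mem_filter, Finset.mem_product]
        exact ⟨Finset.mem_univ _, ⟨h1.1, h2.2.1⟩, hq.2⟩
      · rintro ⟨v, ⟨x, y⟩, ⟨x', y'⟩⟩ hq ⟨w, ⟨z, t⟩, ⟨z', t'⟩⟩ hr heq
        rw [Finset.mem_coe, hQ1, Finset.mem_filter] at hq hr
        obtain ⟨⟨-, -, h1⟩, -, -, h2⟩ := hmem _ hq.1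
        obtain ⟨⟨-, -, g1⟩, -, -, g2⟩ := hmem _ hr.1
        simp only [Prod.mk.injEq] at heq h1 h2 g1 g2
        obtain ⟨rfl, rfl, rfl⟩ := heq
        obtain rfl := L.unique hK h1 g1
        obtain rfl := L.unique hK h2.symm g2.symm
        rfl
    have c2 : Q2.card ≤ Fintype.card V * N := by
      refine le_trans ?_ (Nat.mul_le_mul_left _ hN)
      rw [← Finset.card_univ, ← Finset.card_product]
      refine Finset.card_le_card_of_injOn (fun q => (q.1, (q.2.2.1, q.2.1.2))) ?_ ?_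
      · intro q hq
        rw [Finset.mem_coe, hQ2, Finset.mem_filter] at hq
        obtain ⟨h1, h2⟩ := hmem q hq.1
        rw [Finset.mem_coe, Finset.mem_product, hNA, Finset.mem_filter, Finset.mem_product]
        exact ⟨Finset.mem_univ _, ⟨h2.1, h1.2.1⟩, hq.2⟩
      · rintro ⟨v, ⟨x, y⟩, ⟨x', y'⟩⟩ hq ⟨w, ⟨z, t⟩, ⟨z', t'⟩⟩ hr heq
        rw [Finset.mem_coe, hQ2, Finset.mem_filter] at hq hr
        obtain ⟨⟨-, -, h1⟩, -, -, h2⟩ := hmem _ hq.1
        obtain ⟨⟨-, -, g1⟩, -, -, g2⟩ := hmem _ hr.1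
        simp only [Prod.mk.injEq] at heq h1 h2 g1 g2
        obtain ⟨rfl, rfl, rfl⟩ := heq
        obtain rfl := L.unique hK h1.symm g1.symm
        obtain rfl := L.unique hK h2 g2
        rfl
    have c3 : Q3.card ≤ 9 * ∑ F ∈ K, (W F).card := by
      have h1 : (K.biUnion (fun F => ({F} ×ˢ W F) ×ˢ (F ×ˢ F))).card ≤
          9 * ∑ F ∈ K, (W F).card := by
        refine Finset.card_biUnion_le.trans ?_
        rw [Finset.mul_sum]
        refine Finset.sum_le_sum fun F hF => ?_
        rw [Finset.card_product, Finset.card_product, Finset.card_product, Finset.card_singleton,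
          hK.1 F hF]
        omega
      refine le_trans ?_ h1
      refine Finset.card_le_card_of_injOn
        (fun q => (({q.1, q.2.1.1, q.2.1.2}, q.2.2.1), (q.1, q.2.1.1))) ?_ ?_
      · intro q hq
        rw [Finset.mem_coe, hQ3, Finset.mem_filter] at hq
        obtain ⟨h1, h2⟩ := hmem q hq.1
        rw [Finset.mem_coe, Finset.mem_biUnion]
        refine ⟨{q.1, q.2.1.1, q.2.1.2}, h1.2.2.2.2.2, ?_⟩
        simp only [Finset.mem_product, Finset.mem_singleton, true_and]
        exact ⟨hW _ _ _ _ _ h1.2.2 h2.2.2 hq.2.1 hq.2.2, by simp, by simp⟩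
      · rintro ⟨v, ⟨x, y⟩, ⟨x', y'⟩⟩ hq ⟨w, ⟨z, t⟩, ⟨z', t'⟩⟩ hr heq
        rw [Finset.mem_coe, hQ3, Finset.mem_filter] at hq hr
        obtain ⟨⟨-, -, h1⟩, -, -, h2⟩ := hmem _ hq.1
        obtain ⟨⟨-, -, g1⟩, -, -, g2⟩ := hmem _ hr.1
        simp only [Prod.mk.injEq] at heq h1 h2 g1 g2
        obtain ⟨⟨hs, rfl⟩, rfl, rfl⟩ := heq
        obtain rfl := L.unique hK h2 g2
        have h3 : y ∈ ({v, x, t} : Finset V) := by rw [← hs]; simp
        simp only [Finset.mem_insert, Finset.mem_singleton] at h3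
        rcases h3 with h3 | h3 | h3
        · exact absurd h3.symm h1.2.1
        · exact absurd h3.symm h1.2.2.1
        · rw [h3]
    have h2 := Finset.card_le_card hcov
    have h3 := Finset.card_union_le (Q1 ∪ Q2) Q3
    have h4 := Finset.card_union_le Q1 Q2
    omega

end Pool.Agent.Lib.MP_c82047_co97
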