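import Mathlib

/-!
# Linear triple systems: definitions

`e H S` is the number of triples of `H` inside `S`, `Lin H` says that `H` is a linear triple
system, `Adj H x y` says that `x`, `y` are different points of a common triple, `jj H E x` is the
number of points of `E` adjacent to `x`.
-/

namespace Pool.Agent.Lib.MP_c82047_co97

variable {V : Type*} [DecidableEq V]

/-- The number of triples of `H` contained in `S`. -/
def e (H : Finset (Finset V)) (S : Finset V) : ℕ := (H.filter (fun E => E ⊆ S)).card

/-- `H` is a linear triple system: all members have three points and two different members share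
at most one point. -/
def Lin (H : Finset (Finset V)) : Prop :=
  (∀ E ∈ H, E.card = 3) ∧ ∀ E ∈ H, ∀ F ∈ H, E ≠ F → (E ∩ F).card ≤ 1

/-- The number of triples of `H` through `v`. -/
def deg (H : Finset (Finset V)) (v : V) : ℕ := (H.filter (fun E => v ∈ E)).card

/-- `x` and `y` are two different points of a common triple of `H`. -/
def Adj (H : Finset (Finset V)) (x y : V) : Prop := x ≠ y ∧ ∃ E ∈ H, x ∈ E ∧ y ∈ E

instance (H : Finset (Finset V)) : DecidableRel (Adj H) := fun x y =>
  inferInstanceAs (Decidable (x ≠ y ∧ ∃ E ∈ H, x ∈ E ∧ y ∈ E))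

/-- The number of points of `E` adjacent to `x`. -/
def jj (H : Finset (Finset V)) (E : Finset V) (x : V) : ℕ := (E.filter (fun a => Adj H x a)).card

/-- The weight `2j - j²` : `f 0 = 0`, `f 1 = 1`, `f 2 = 0`, `f 3 = -3`. -/
def f (j : ℕ) : ℤ := 2 * (j : ℤ) - (j : ℤ) ^ 2

variable [Fintype V]

/-- `θ H = ∑_{E ∈ H} ∑_{x ∉ E} f (jj H E x)`. -/
def theta (H : Finset (Finset V)) : ℤ := ∑ E ∈ H, ∑ x ∈ Eᶜ, f (jj H E x)

/-- The number of pairs `(E, x)`, `E ∈ H`, `x ∉ E`, such that `x` is adjacent to a point of `E`. -/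
def cnt (H : Finset (Finset V)) : ℕ := ∑ E ∈ H, (Eᶜ.filter (fun x => 1 ≤ jj H E x)).card

end Pool.Agent.Lib.MP_c82047_co97
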