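import Mathlib

/-!
# A two level energy argument

A symmetric graph `G` on `n` vertices with about `n²/2` ordered adjacent pairs, whose adjacent pairs
have average codegree at most about `3n/16` and almost all of whose nonadjacent pairs have codegree at
least about `n/4`, contains an almost complete rectangle `A × B` with `|A|, |B| ≥ δ n` and at most
`δ⁴ n² / 32` nonadjacent pairs, where `δ ≥ δ₀` and `δ₀` is absolute.
-/

namespace Pool.Agent.Lib.MP_c82047_co97

open Finset

/-- number of common neighbours -/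
def cdeg {V : Type} [Fintype V] (G : V → V → Prop) [DecidableRel G] (x y : V) : ℕ :=
  (Finset.univ.filter (fun u => G x u ∧ G y u)).card

namespace GraphL

section inner

variable {E : Type*} [NormedAddCommGroup E] [InnerProductSpace ℝ E]

/-- the first `m` vectors are orthonormal -/
def ON (e : ℕ → E) (m : ℕ) : Prop :=
  ∀ i < m, ∀ j < m, inner ℝ (e i) (e j) = if i = j then (1 : ℝ) else 0

/-- the residual of `a` after projecting to the span of the first `m` vectors -/
noncomputable def res (e : ℕ → E) (m : ℕ) (a : E) : E :=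
  a - ∑ i ∈ range m, (inner ℝ (e i) a : ℝ) • e i

theorem inner_res_left (e : ℕ → E) (m : ℕ) (a b : E) :
    inner ℝ (res e m a) b = inner ℝ a b - ∑ i ∈ range m, inner ℝ (e i) a * inner ℝ (e i) b := by
  unfold res
  rw [inner_sub_left, sum_inner]
  simp [inner_smul_left]

theorem inner_e_res {e : ℕ → E} {m : ℕ} (h : ON e m) (a : E) {j : ℕ} (hj : j < m) :
    inner ℝ (res e m a) (e j) = (0 : ℝ) := by
  rw [inner_res_left]
  have : ∀ i ∈ range m, inner ℝ (e i) a * inner ℝ (e i) (e j) =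
      if i = j then inner ℝ (e j) a else (0 : ℝ) := by
    intro i hi
    rw [h i (mem_range.1 hi) j hj]
    split
    · next hij => rw [hij]; ring
    · ring
  rw [sum_congr rfl this, sum_ite_eq' (range m) j]
  simp [hj, real_inner_comm]

theorem inner_res_res {e : ℕ → E} {m : ℕ} (h : ON e m) (a : E) :
    inner ℝ (res e m a) (res e m a) = inner ℝ (res e m a) a := by
  conv_lhs => rw [show res e m a = a - ∑ i ∈ range m, (inner ℝ (e i) a : ℝ) • e i from rfl]
  rw [← show res e m a = a - ∑ i ∈ range m, (inner ℝ (e i) a : ℝ) • e i from rfl]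
  have : inner ℝ (res e m a) (a - ∑ i ∈ range m, (inner ℝ (e i) a : ℝ) • e i) =
      inner ℝ (res e m a) a := by
    rw [inner_sub_right, inner_sum]
    have : ∀ i ∈ range m, inner ℝ (res e m a) ((inner ℝ (e i) a : ℝ) • e i) = (0 : ℝ) := by
      intro i hi
      rw [inner_smul_right, inner_e_res h a (mem_range.1 hi), mul_zero]
    rw [sum_congr rfl this]
    simp
  exact this

theorem norm_res_sq {e : ℕ → E} {m : ℕ} (h : ON e m) (a : E) :
    ‖res e m a‖ ^ 2 = ‖a‖ ^ 2 - ∑ i ∈ range m, (inner ℝ (e i) a : ℝ) ^ 2 := by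
  rw [← real_inner_self_eq_norm_sq, inner_res_res h, inner_res_left, real_inner_self_eq_norm_sq]
  simp only [pow_two]

theorem bessel {e : ℕ → E} {m : ℕ} (h : ON e m) (a : E) :
    ∑ i ∈ range m, (inner ℝ (e i) a : ℝ) ^ 2 ≤ ‖a‖ ^ 2 := by
  have := norm_res_sq h a
  have h2 := sq_nonneg ‖res e m a‖
  linarith

theorem norm_res_le {e : ℕ → E} {m : ℕ} (h : ON e m) {a : E} (ha : ‖a‖ ≤ 1) :
    ‖res e m a‖ ≤ 1 := by
  have := norm_res_sq h a
  have h2 : 0 ≤ ∑ i ∈ range m, (inner ℝ (e i) a : ℝ) ^ 2 := sum_nonneg fun i _ => sq_nonneg _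
  have h3 : ‖a‖ ^ 2 ≤ 1 := by
    have := norm_nonneg a
    nlinarith
  have h4 : ‖res e m a‖ ^ 2 ≤ 1 := by linarith
  have := norm_nonneg (res e m a)
  nlinarith

theorem ON_update {e : ℕ → E} {m : ℕ} (h : ON e m) {a : E} (hw : res e m a ≠ 0) :
    ON (Function.update e m (‖res e m a‖⁻¹ • res e m a)) (m + 1) := by
  have hn : ‖res e m a‖ ≠ 0 := norm_ne_zero_iff.2 hw
  intro i hi j hj
  have hi' : i < m ∨ i = m := by omega
  have hj' : j < m ∨ j = m := by omega
  rcases hi' with hi' | hi' <;> rcases hj' with hj' | hj'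
  · rw [Function.update_of_ne (by omega), Function.update_of_ne (by omega)]
    exact h i hi' j hj'
  · subst hj'
    rw [Function.update_of_ne (by omega), Function.update_self, inner_smul_right,
      real_inner_comm, inner_e_res h a hi', mul_zero, if_neg (by omega)]
  · subst hi'
    rw [Function.update_self, Function.update_of_ne (by omega), inner_smul_left,
      inner_e_res h a hj', mul_zero, if_neg (by omega)]
  · subst hi'; subst hj'
    rw [Function.update_self, inner_smul_left, inner_smul_right, real_inner_self_eq_norm_sq,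
      if_pos rfl]
    simp only [conj_trivial]
    field_simp

/-- the energy -/
noncomputable def en {V : Type*} [Fintype V] (a : V → E) (e : ℕ → E) (s : Finset ℕ) : ℝ :=
  ∑ x, ∑ i ∈ s, (inner ℝ (e i) (a x) : ℝ) ^ 2

theorem en_nonneg {V : Type*} [Fintype V] (a : V → E) (e : ℕ → E) (s : Finset ℕ) :
    0 ≤ en a e s := sum_nonneg fun _ _ => sum_nonneg fun _ _ => sq_nonneg _

theorem en_le {V : Type*} [Fintype V] (a : V → E) (ha : ∀ x, ‖a x‖ ≤ 1) {e : ℕ → E} {m : ℕ}
    (h : ON e m) : en a e (range m) ≤ Fintype.card V := by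
  unfold en
  calc ∑ x, ∑ i ∈ range m, (inner ℝ (e i) (a x) : ℝ) ^ 2 ≤ ∑ x : V, (1 : ℝ) := by
        refine sum_le_sum fun x _ => (bessel h (a x)).trans ?_
        have := norm_nonneg (a x)
        have := ha x
        nlinarith
    _ = _ := by simp

theorem en_congr {V : Type*} [Fintype V] (a : V → E) {e e' : ℕ → E} {m : ℕ}
    (h : ∀ i < m, e' i = e i) : en a e' (range m) = en a e (range m) := by
  unfold en
  refine sum_congr rfl fun x _ => sum_congr rfl fun i hi => ?_
  rw [h i (mem_range.1 hi)]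

theorem ext_lemma {V : Type*} [Fintype V] (a : V → E) (ha : ∀ x, ‖a x‖ ≤ 1) {g κ : ℝ}
    (hg : 0 < g) (hκ : 0 < κ) (t : ℕ) :
    ∀ (e : ℕ → E) (m : ℕ), ON e m →
      (Fintype.card V : ℝ) - t * (κ * g ^ 2 * Fintype.card V) < en a e (range m) →
      ∃ (e' : ℕ → E) (m' : ℕ), m ≤ m' ∧ m' ≤ m + t ∧ (∀ i < m, e' i = e i) ∧ ON e' m' ∧
        ((univ.filter (fun p : V × V => g ≤ |inner ℝ (res e' m' (a p.1)) (a p.2)|)).card : ℝ) <
          κ * (Fintype.card V : ℝ) ^ 2 := by
  classical
  induction t with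
  | zero =>
    intro e m h hen
    have := en_le a ha h
    simp only [Nat.cast_zero, zero_mul, sub_zero] at hen
    linarith
  | succ t ih =>
    intro e m h hen
    by_cases hfew : ((univ.filter (fun p : V × V =>
        g ≤ |inner ℝ (res e m (a p.1)) (a p.2)|)).card : ℝ) < κ * (Fintype.card V : ℝ) ^ 2
    · exact ⟨e, m, le_rfl, by omega, fun _ _ => rfl, h, hfew⟩
    push Not at hfew
    -- a vertex with many large correlations
    have hn : (0 : ℝ) < Fintype.card V := by
      rcases (Nat.eq_zero_or_pos (Fintype.card V)) with h0 | h0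
      · have := en_le a ha h
        rw [h0] at hen this
        simp only [Nat.cast_zero, mul_zero, sub_zero] at hen this
        linarith
      · exact_mod_cast h0
    have hx : ∃ x : V, κ * (Fintype.card V : ℝ) ≤
        ((univ.filter (fun y : V => g ≤ |inner ℝ (res e m (a x)) (a y)|)).card : ℝ) := by
      by_contra hcon
      push Not at hcon
      have h1 : ((univ.filter (fun p : V × V =>
          g ≤ |inner ℝ (res e m (a p.1)) (a p.2)|)).card : ℝ) =
          ∑ x : V, ((univ.filter (fun y : V => g ≤ |inner ℝ (res e m (a x)) (a y)|)).card : ℝ) := by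
        rw [← Nat.cast_sum]
        congr 1
        rw [card_filter, ← univ_product_univ, sum_product]
        simp only [card_filter]
      have hne : (univ : Finset V).Nonempty := by
        rw [← card_pos]
        exact_mod_cast hn
      have h2 := sum_lt_sum_of_nonempty hne (fun x (_ : x ∈ univ) => hcon x)
      rw [← h1, sum_const, nsmul_eq_mul, card_univ] at h2
      nlinarith
    obtain ⟨x, hx⟩ := hx
    set w := res e m (a x) with hw
    have hw0 : w ≠ 0 := by
      intro h0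
      rw [h0] at hx
      simp only [inner_zero_left, abs_zero] at hx
      have : univ.filter (fun y : V => g ≤ (0 : ℝ)) = ∅ := by
        rw [filter_eq_empty_iff]
        intro y _
        push Not
        exact hg
      rw [this] at hx
      simp only [card_empty, Nat.cast_zero] at hx
      have := mul_pos hκ hn
      linarith
    have hON := ON_update h hw0
    set e1 := Function.update e m (‖w‖⁻¹ • w) with he1
    have hag : ∀ i < m, e1 i = e i := fun i hi => Function.update_of_ne (by omega) _ _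
    have hw1 : ‖w‖ ≤ 1 := norm_res_le h (ha x)
    have hwpos : 0 < ‖w‖ := norm_pos_iff.2 hw0
    have hterm : ∀ y, (inner ℝ w (a y) : ℝ) ^ 2 ≤ (inner ℝ (e1 m) (a y) : ℝ) ^ 2 := by
      intro y
      rw [he1, Function.update_self, inner_smul_left]
      simp only [conj_trivial]
      rw [mul_pow]
      have : 1 ≤ (‖w‖⁻¹) ^ 2 := by
        have := (one_le_inv₀ hwpos).2 hw1
        nlinarith
      have h3 := sq_nonneg (inner ℝ w (a y) : ℝ)
      nlinarith
    have hinc : en a e (range m) + κ * g ^ 2 * Fintype.card V ≤ en a e1 (range (m + 1)) := by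
      have h1 : en a e1 (range (m + 1)) = en a e (range m) + ∑ y, (inner ℝ (e1 m) (a y) : ℝ) ^ 2 := by
        rw [← en_congr a hag]
        unfold en
        rw [← sum_add_distrib]
        refine sum_congr rfl fun y _ => ?_
        rw [sum_range_succ]
      rw [h1]
      have h2 : κ * (Fintype.card V : ℝ) * g ^ 2 ≤ ∑ y, (inner ℝ (e1 m) (a y) : ℝ) ^ 2 := by
        calc κ * (Fintype.card V : ℝ) * g ^ 2 ≤
            ((univ.filter (fun y : V => g ≤ |inner ℝ w (a y)|)).card : ℝ) * g ^ 2 :=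
              mul_le_mul_of_nonneg_right hx (sq_nonneg g)
          _ = ∑ y ∈ univ.filter (fun y : V => g ≤ |inner ℝ w (a y)|), g ^ 2 := by
              rw [sum_const, nsmul_eq_mul]
          _ ≤ ∑ y ∈ univ.filter (fun y : V => g ≤ |inner ℝ w (a y)|),
              (inner ℝ (e1 m) (a y) : ℝ) ^ 2 := by
              refine sum_le_sum fun y hy => ?_
              rw [mem_filter] at hy
              refine le_trans ?_ (hterm y)
              rw [← sq_abs (inner ℝ w (a y))]
              exact pow_le_pow_left₀ hg.le hy.2 2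
          _ ≤ _ := sum_le_sum_of_subset_of_nonneg (filter_subset _ _) fun _ _ _ => sq_nonneg _
      nlinarith
    have hen1 : (Fintype.card V : ℝ) - t * (κ * g ^ 2 * Fintype.card V) <
        en a e1 (range (m + 1)) := by
      push_cast at hen
      linarith
    obtain ⟨e', m', h1, h2, h3, h4, h5⟩ := ih e1 (m + 1) hON hen1
    refine ⟨e', m', by omega, by omega, fun i hi => ?_, h4, h5⟩
    rw [h3 i (by omega), hag i hi]

theorem inner_split (e : ℕ → E) {m m' : ℕ} (hmm : m ≤ m') (a b : E) :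
    (inner ℝ a b : ℝ) = ∑ i ∈ range m, inner ℝ (e i) a * inner ℝ (e i) b +
      ∑ i ∈ Ico m m', inner ℝ (e i) a * inner ℝ (e i) b + inner ℝ (res e m' a) b := by
  rw [inner_res_left, sum_range_add_sum_Ico _ hmm]
  ring

theorem abs_gap_le {s : ℝ} (I : Finset ℕ) (u v : ℕ → ℝ) (hu : ∑ i ∈ I, u i ^ 2 ≤ s)
    (hv : ∑ i ∈ I, v i ^ 2 ≤ s) : |∑ i ∈ I, u i * v i| ≤ s := by
  calc |∑ i ∈ I, u i * v i| ≤ ∑ i ∈ I, |u i * v i| := abs_sum_le_sum_abs _ _
    _ ≤ ∑ i ∈ I, (u i ^ 2 + v i ^ 2) / 2 := by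
        refine sum_le_sum fun i _ => ?_
        rw [abs_le]
        constructor <;> nlinarith [sq_nonneg (u i + v i), sq_nonneg (u i - v i)]
    _ = (∑ i ∈ I, u i ^ 2 + ∑ i ∈ I, v i ^ 2) / 2 := by
        rw [← sum_add_distrib, sum_div]
    _ ≤ s := by linarith

theorem abs_inner_e_le {e : ℕ → E} {m : ℕ} (h : ON e m) {a : E} (ha : ‖a‖ ≤ 1) {j : ℕ}
    (hj : j < m) : |(inner ℝ (e j) a : ℝ)| ≤ 1 := by
  have h1 : ‖e j‖ ^ 2 = 1 := by
    rw [← real_inner_self_eq_norm_sq, h j hj j hj, if_pos rfl]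
  have h2 : ‖e j‖ = 1 := by
    have := norm_nonneg (e j)
    nlinarith
  calc |(inner ℝ (e j) a : ℝ)| ≤ ‖e j‖ * ‖a‖ := abs_real_inner_le_norm _ _
    _ ≤ 1 := by rw [h2, one_mul]; exact ha

theorem core {V : Type*} [Fintype V] [DecidableEq V] (a : V → E) (ha : ∀ x, ‖a x‖ ≤ 1)
    {e : ℕ → E} {m m' N M : ℕ} (hmm : m ≤ m') (hmN : m ≤ N) (hON : ON e m')
    {g s τ δ eps κ : ℝ} (hs : 0 < s) (hτ : 0 < τ) (hM : 2 / τ + 1 ≤ (M : ℝ))
    (gap : en a e (Ico m m') ≤ eps * Fintype.card V) (heps : eps ≤ s / 100)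
    (few : ((univ.filter (fun p : V × V => g ≤ |inner ℝ (res e m' (a p.1)) (a p.2)|)).card : ℝ) <
      κ * (Fintype.card V : ℝ) ^ 2) (hκ : κ ≤ 1 / 100)
    (hδ0 : 0 < δ) (hδ : (M : ℝ) ^ N * δ ≤ 1 / 100)
    (L : Finset (V × V)) (hL : 8 / 100 * (Fintype.card V : ℝ) ^ 2 ≤ (L.card : ℝ))
    (hn : (0 : ℝ) < Fintype.card V) :
    ∃ p ∈ L, ∃ A B : Finset V, δ * Fintype.card V ≤ (A.card : ℝ) ∧
      δ * Fintype.card V ≤ (B.card : ℝ) ∧
      ∀ x ∈ A, ∀ y ∈ B, |(inner ℝ (res e m' (a x)) (a y) : ℝ)| < g →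
        |(inner ℝ (a x) (a y) : ℝ) - inner ℝ (a p.1) (a p.2)| ≤ 2 * g + 2 * s + 2 * (N * τ) := by
  set n : ℝ := (Fintype.card V : ℝ) with hnn
  set Exc : Finset V := univ.filter (fun x => s < ∑ i ∈ Ico m m', (inner ℝ (e i) (a x) : ℝ) ^ 2)
    with hExc
  have hExc' : (Exc.card : ℝ) ≤ n / 100 := by
    have h1 : (Exc.card : ℝ) * s ≤ en a e (Ico m m') := by
      calc (Exc.card : ℝ) * s = ∑ x ∈ Exc, s := by rw [sum_const, nsmul_eq_mul]
        _ ≤ ∑ x ∈ Exc, ∑ i ∈ Ico m m', (inner ℝ (e i) (a x) : ℝ) ^ 2 := by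
            refine sum_le_sum fun x hx => ?_
            rw [hExc, mem_filter] at hx
            exact hx.2.le
        _ ≤ _ := sum_le_sum_of_subset_of_nonneg (subset_univ _)
            fun x _ _ => sum_nonneg fun _ _ => sq_nonneg _
    have h2 : (Exc.card : ℝ) * s ≤ s / 100 * n := h1.trans (gap.trans
      (mul_le_mul_of_nonneg_right heps hn.le))
    have h3 : (Exc.card : ℝ) * s ≤ (n / 100) * s := by linarith
    exact le_of_mul_le_mul_right h3 hs
  -- the cells
  have hONm : ON e m := fun i hi j hj => hON i (by omega) j (by omega)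
  set c : V → ℕ → ℝ := fun x j => if j < m then inner ℝ (e j) (a x) else 0 with hc
  have hc1 : ∀ x j, |c x j| ≤ 1 := by
    intro x j
    simp only [hc]
    split
    · next h => exact abs_inner_e_le hONm (ha x) h
    · simp
  have hfl : ∀ x j, ⌊(c x j + 1) / τ⌋₊ < M := by
    intro x j
    have h1 := hc1 x j
    rw [abs_le] at h1
    have h2 : 0 ≤ (c x j + 1) / τ := div_nonneg (by linarith) hτ.le
    have h3 : (c x j + 1) / τ ≤ 2 / τ := by
      apply div_le_div_of_nonneg_right _ hτ.le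
      linarith
    have h4 := Nat.floor_le h2
    have h5 : ((⌊(c x j + 1) / τ⌋₊ : ℕ) : ℝ) < M := by linarith
    exact_mod_cast h5
  set φ : V → (Fin N → Fin M) := fun x j => ⟨⌊(c x j + 1) / τ⌋₊, hfl x j⟩ with hφ
  have hφ1 : ∀ x x', φ x = φ x' → ∀ j < m, |(inner ℝ (e j) (a x) : ℝ) - inner ℝ (e j) (a x')| ≤ τ := by
    intro x x' h j hj
    have h1 := congrFun h ⟨j, by omega⟩
    simp only [hφ, Fin.mk.injEq] at h1
    have hcx : c x j = inner ℝ (e j) (a x) := by simp only [hc, if_pos hj]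
    have hcx' : c x' j = inner ℝ (e j) (a x') := by simp only [hc, if_pos hj]
    rw [← hcx, ← hcx']
    have h2 := hc1 x j
    have h3 := hc1 x' j
    rw [abs_le] at h2 h3
    have h4 : 0 ≤ (c x j + 1) / τ := div_nonneg (by linarith) hτ.le
    have h5 : 0 ≤ (c x' j + 1) / τ := div_nonneg (by linarith) hτ.le
    have h6 := Nat.floor_le h4
    have h7 := Nat.floor_le h5
    have h8 := Nat.lt_floor_add_one ((c x j + 1) / τ)
    have h9 := Nat.lt_floor_add_one ((c x' j + 1) / τ)
    rw [h1] at h6 h8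
    have h10 : (c x j + 1) / τ - (c x' j + 1) / τ ≤ 1 := by linarith
    have h11 : (c x' j + 1) / τ - (c x j + 1) / τ ≤ 1 := by linarith
    rw [← sub_div, div_le_one hτ] at h10 h11
    rw [abs_le]
    constructor <;> linarith
  set cell : V → Finset V := fun x => univ.filter (fun y => y ∉ Exc ∧ φ y = φ x) with hcell
  set S : Finset V := univ.filter (fun x => x ∉ Exc ∧ ((cell x).card : ℝ) < δ * n) with hS
  have hS' : (S.card : ℝ) ≤ n / 100 := by
    have h1 : S.card = ∑ k : (Fin N → Fin M), (S.filter (fun x => φ x = k)).card :=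
      card_eq_sum_card_fiberwise (fun x _ => mem_univ _)
    have h2 : ∀ k : (Fin N → Fin M), ((S.filter (fun x => φ x = k)).card : ℝ) ≤ δ * n := by
      intro k
      rcases (S.filter (fun x => φ x = k)).eq_empty_or_nonempty with h | ⟨x, hx⟩
      · rw [h, card_empty, Nat.cast_zero]
        exact mul_nonneg hδ0.le hn.le
      · rw [mem_filter] at hx
        obtain ⟨hxS, hxk⟩ := hx
        rw [hS, mem_filter] at hxS
        refine le_trans ?_ hxS.2.2.le
        norm_cast
        refine card_le_card fun y hy => ?_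
        rw [mem_filter, hS, mem_filter] at hy
        simp only [hcell, mem_filter, mem_univ, true_and]
        exact ⟨hy.1.2.1, hy.2.trans hxk.symm⟩
    calc (S.card : ℝ) = ∑ k : (Fin N → Fin M), ((S.filter (fun x => φ x = k)).card : ℝ) := by
          rw [h1]; push_cast; rfl
      _ ≤ ∑ k : (Fin N → Fin M), δ * n := sum_le_sum fun k _ => h2 k
      _ = (M : ℝ) ^ N * δ * n := by
          rw [sum_const, card_univ, Fintype.card_fun, Fintype.card_fin, Fintype.card_fin,
            nsmul_eq_mul]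
          push_cast
          ring
      _ ≤ 1 / 100 * n := mul_le_mul_of_nonneg_right hδ hn.le
      _ = n / 100 := by ring
  set X : Finset (V × V) := univ.filter
    (fun p : V × V => g ≤ |inner ℝ (res e m' (a p.1)) (a p.2)|) with hX
  have hex : ∃ p ∈ L, p ∉ (Exc ×ˢ (univ : Finset V)) ∪ ((univ : Finset V) ×ˢ Exc) ∪ X ∪
      (S ×ˢ (univ : Finset V)) ∪ ((univ : Finset V) ×ˢ S) := by
    by_contra hcon
    push Not at hcon
    have h1 : L ⊆ (Exc ×ˢ (univ : Finset V)) ∪ ((univ : Finset V) ×ˢ Exc) ∪ X ∪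
      (S ×ˢ (univ : Finset V)) ∪ ((univ : Finset V) ×ˢ S) := fun p hp => hcon p hp
    have h2 := card_le_card h1
    have h3 := card_union_le ((Exc ×ˢ (univ : Finset V)) ∪ ((univ : Finset V) ×ˢ Exc) ∪ X ∪
      (S ×ˢ (univ : Finset V))) ((univ : Finset V) ×ˢ S)
    have h4 := card_union_le ((Exc ×ˢ (univ : Finset V)) ∪ ((univ : Finset V) ×ˢ Exc) ∪ X)
      (S ×ˢ (univ : Finset V))
    have h5 := card_union_le ((Exc ×ˢ (univ : Finset V)) ∪ ((univ : Finset V) ×ˢ Exc)) X
    have h6 := card_union_le (Exc ×ˢ (univ : Finset V)) ((univ : Finset V) ×ˢ Exc)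
    have h7 : L.card ≤ (Exc ×ˢ (univ : Finset V)).card + ((univ : Finset V) ×ˢ Exc).card + X.card +
      (S ×ˢ (univ : Finset V)).card + ((univ : Finset V) ×ˢ S).card := by omega
    simp only [card_product, card_univ] at h7
    have h8 : (L.card : ℝ) ≤ Exc.card * n + n * Exc.card + X.card + S.card * n + n * S.card := by
      rw [hnn]
      exact_mod_cast h7
    nlinarith
  obtain ⟨p, hpL, hp⟩ := hex
  simp only [mem_union, mem_product, mem_univ, and_true, true_and, not_or] at hp
  obtain ⟨⟨⟨⟨hp1, hp2⟩, hp3⟩, hp4⟩, hp5⟩ := hp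
  refine ⟨p, hpL, cell p.1, cell p.2, ?_, ?_, ?_⟩
  · by_contra hcon
    push Not at hcon
    exact hp4 (by rw [hS, mem_filter]; exact ⟨mem_univ _, hp1, hcon⟩)
  · by_contra hcon
    push Not at hcon
    exact hp5 (by rw [hS, mem_filter]; exact ⟨mem_univ _, hp2, hcon⟩)
  intro x hx y hy hxy
  simp only [hcell, mem_filter, mem_univ, true_and] at hx hy
  have hgap : ∀ z, z ∉ Exc → ∑ i ∈ Ico m m', (inner ℝ (e i) (a z) : ℝ) ^ 2 ≤ s := by
    intro z hz
    by_contra hcon
    push Not at hcon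
    exact hz (by rw [hExc, mem_filter]; exact ⟨mem_univ _, hcon⟩)
  have hp3' : |(inner ℝ (res e m' (a p.1)) (a p.2) : ℝ)| < g := by
    by_contra hcon
    push Not at hcon
    exact hp3 (by rw [hX, mem_filter]; exact ⟨mem_univ _, hcon⟩)
  have h1 := abs_gap_le (Ico m m') (fun i => inner ℝ (e i) (a x)) (fun i => inner ℝ (e i) (a y))
    (hgap x hx.1) (hgap y hy.1)
  have h2 := abs_gap_le (Ico m m') (fun i => inner ℝ (e i) (a p.1))
    (fun i => inner ℝ (e i) (a p.2)) (hgap _ hp1) (hgap _ hp2)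
  have h3 := inner_split e hmm (a x) (a y)
  have h4 := inner_split e hmm (a p.1) (a p.2)
  have h5 : |∑ i ∈ range m, (inner ℝ (e i) (a x) : ℝ) * inner ℝ (e i) (a y) -
      ∑ i ∈ range m, (inner ℝ (e i) (a p.1) : ℝ) * inner ℝ (e i) (a p.2)| ≤ 2 * (N * τ) := by
    rw [← sum_sub_distrib]
    calc |∑ i ∈ range m, ((inner ℝ (e i) (a x) : ℝ) * inner ℝ (e i) (a y) -
          inner ℝ (e i) (a p.1) * inner ℝ (e i) (a p.2))| ≤
        ∑ i ∈ range m, |(inner ℝ (e i) (a x) : ℝ) * inner ℝ (e i) (a y) -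
          inner ℝ (e i) (a p.1) * inner ℝ (e i) (a p.2)| := abs_sum_le_sum_abs _ _
      _ ≤ ∑ i ∈ range m, (2 * τ) := by
          refine sum_le_sum fun i hi => ?_
          rw [mem_range] at hi
          have h6 := hφ1 _ _ hx.2 i hi
          have h7 := hφ1 _ _ hy.2 i hi
          have h8 := abs_inner_e_le hONm (ha y) hi
          have h9 := abs_inner_e_le hONm (ha p.1) hi
          have h10 : (inner ℝ (e i) (a x) : ℝ) * inner ℝ (e i) (a y) -
              inner ℝ (e i) (a p.1) * inner ℝ (e i) (a p.2) =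
              ((inner ℝ (e i) (a x) : ℝ) - inner ℝ (e i) (a p.1)) * inner ℝ (e i) (a y) +
              inner ℝ (e i) (a p.1) * (inner ℝ (e i) (a y) - inner ℝ (e i) (a p.2)) := by ring
          rw [h10]
          refine (abs_add_le _ _).trans ?_
          rw [abs_mul, abs_mul]
          have h11 := mul_le_mul h6 h8 (abs_nonneg _) hτ.le
          have h12 := mul_le_mul h9 h7 (abs_nonneg _) zero_le_one
          linarith
      _ = m * (2 * τ) := by rw [sum_const, card_range, nsmul_eq_mul]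
      _ ≤ 2 * (N * τ) := by
          have : (m : ℝ) ≤ N := by exact_mod_cast hmN
          nlinarith
  rw [h3, h4]
  rw [abs_le] at h1 h2 h5
  rw [abs_lt] at hxy hp3'
  rw [abs_le]
  constructor <;> linarith [h1.1, h1.2, h2.1, h2.2, h5.1, h5.2, hxy.1, hxy.2, hp3'.1, hp3'.2]

end inner

section graph

variable {V : Type} [Fintype V]

/-- normalised indicator vectors of neighbourhoods -/
noncomputable def vec (G : V → V → Prop) [DecidableRel G] (x : V) : EuclideanSpace ℝ V :=
  WithLp.toLp 2 (fun u => if G x u then (Real.sqrt (Fintype.card V))⁻¹ else 0)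

theorem inner_vec (G : V → V → Prop) [DecidableRel G] (x y : V) :
    (inner ℝ (vec G x) (vec G y) : ℝ) = (cdeg G x y : ℝ) / Fintype.card V := by
  have h : ∀ u : V, (if G y u then (Real.sqrt (Fintype.card V))⁻¹ else 0) *
      (if G x u then (Real.sqrt (Fintype.card V))⁻¹ else 0) =
      if (G x u ∧ G y u) then ((Fintype.card V : ℝ))⁻¹ else 0 := by
    intro u
    have h1 : (Real.sqrt (Fintype.card V))⁻¹ * (Real.sqrt (Fintype.card V))⁻¹ =
        ((Fintype.card V : ℝ))⁻¹ := by
      rw [← mul_inv, Real.mul_self_sqrt (Nat.cast_nonneg _)]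
    by_cases hx : G x u <;> by_cases hy : G y u <;> simp [hx, hy, h1]
  unfold vec
  rw [PiLp.inner_apply]
  simp only [RCLike.inner_apply, conj_trivial]
  rw [sum_congr rfl fun u _ => h u, ← sum_filter, sum_const, nsmul_eq_mul]
  unfold cdeg
  rw [div_eq_mul_inv]

theorem norm_vec_le (G : V → V → Prop) [DecidableRel G] (x : V) : ‖vec G x‖ ≤ 1 := by
  have h := inner_vec G x x
  rw [real_inner_self_eq_norm_sq] at h
  have h1 : (cdeg G x x : ℝ) / Fintype.card V ≤ 1 := by
    apply div_le_one_of_le₀ _ (Nat.cast_nonneg _)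
    unfold cdeg
    exact_mod_cast card_le_univ _
  rw [← h] at h1
  have := norm_nonneg (vec G x)
  nlinarith

theorem step (i : ℕ) : ∀ N : ℕ, ∃ δ₀ : ℝ, 0 < δ₀ ∧ ∀ η : ℝ, 0 < η → η ≤ 1 / 1000 →
    η ≤ δ₀ ^ 4 / 64 → ∀ (V : Type) [Fintype V] [DecidableEq V]
    (G : V → V → Prop) [DecidableRel G], 0 < Fintype.card V →
    (1 / 2 - η) * (Fintype.card V : ℝ) ^ 2 ≤
      ((Finset.univ.filter (fun p : V × V => G p.1 p.2)).card : ℝ) →
    ∑ p ∈ Finset.univ.filter (fun p : V × V => G p.1 p.2), (cdeg G p.1 p.2 : ℝ) ≤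
      (3 / 32 + η) * (Fintype.card V : ℝ) ^ 3 →
    ((Finset.univ.filter (fun p : V × V => ¬ G p.1 p.2 ∧
      (cdeg G p.1 p.2 : ℝ) < (1 / 4 - η) * (Fintype.card V : ℝ))).card : ℝ) ≤
      η * (Fintype.card V : ℝ) ^ 2 →
    ∀ (e : ℕ → EuclideanSpace ℝ V) (m : ℕ), ON e m → m ≤ N →
    (Fintype.card V : ℝ) * (1 - i * (1 / 120000)) < en (vec G) e (range m) →
    ∃ δ : ℝ, δ₀ ≤ δ ∧ ∃ A B : Finset V, δ * (Fintype.card V : ℝ) ≤ (A.card : ℝ) ∧
      δ * (Fintype.card V : ℝ) ≤ (B.card : ℝ) ∧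
      (((A ×ˢ B).filter (fun p => ¬ G p.1 p.2)).card : ℝ) ≤
        δ ^ 4 / 32 * (Fintype.card V : ℝ) ^ 2 := by
  induction i with
  | zero =>
    intro N
    refine ⟨1, one_pos, ?_⟩
    intro η _ _ _ V _ _ G _ _ _ _ _ e m h _ hen
    have := en_le (vec G) (norm_vec_le G) h
    simp only [Nat.cast_zero, zero_mul, sub_zero, mul_one] at hen
    linarith
  | succ i ih =>
    intro N
    set τ : ℝ := 1 / (1200 * (N + 1)) with hτd
    have hτ : 0 < τ := by positivity
    obtain ⟨M, hM⟩ : ∃ M : ℕ, 2 / τ + 1 ≤ (M : ℝ) := exists_nat_ge _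
    have hM1 : (1 : ℝ) ≤ M := by
      have : 0 < 2 / τ := by positivity
      linarith
    have hMN : (1 : ℝ) ≤ (M : ℝ) ^ N := one_le_pow₀ hM1
    set δ : ℝ := 1 / (100 * (M : ℝ) ^ N) with hδd
    have hδ0 : 0 < δ := by positivity
    have hδ1 : δ ≤ 1 / 100 := by
      rw [hδd]
      apply one_div_le_one_div_of_le (by norm_num)
      linarith
    have hδM : (M : ℝ) ^ N * δ ≤ 1 / 100 := by
      rw [hδd]
      apply le_of_eq
      field_simp
    set κ : ℝ := δ ^ 4 / 64 with hκd
    have hκ0 : 0 < κ := by positivity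
    have hκ1 : κ ≤ 1 / 100 := by
      rw [hκd]
      have : δ ^ 4 ≤ (1 / 100) ^ 4 := pow_le_pow_left₀ hδ0.le hδ1 4
      norm_num at this
      linarith
    obtain ⟨t, ht⟩ : ∃ t : ℕ, 1 / (κ * (1 / 1200) ^ 2) < (t : ℝ) := exists_nat_gt _
    have ht' : 1 < (t : ℝ) * (κ * (1 / 1200) ^ 2) := by
      rw [div_lt_iff₀ (by positivity)] at ht
      exact ht
    obtain ⟨δ₁, hδ₁, H⟩ := ih (N + t)
    refine ⟨min δ δ₁, lt_min hδ0 hδ₁, ?_⟩
    intro η hη hη1 hη2 V _ _ G _ hV h1 h2 h3 e m hON hmN hen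
    have hη3 : η ≤ δ ^ 4 / 64 := hη2.trans (by
      have : min δ δ₁ ^ 4 ≤ δ ^ 4 := pow_le_pow_left₀ (le_min hδ0.le hδ₁.le) (min_le_left _ _) 4
      linarith)
    have hη4 : η ≤ δ₁ ^ 4 / 64 := hη2.trans (by
      have : min δ δ₁ ^ 4 ≤ δ₁ ^ 4 := pow_le_pow_left₀ (le_min hδ0.le hδ₁.le) (min_le_right _ _) 4
      linarith)
    have hn : (0 : ℝ) < Fintype.card V := by exact_mod_cast hV
    set n : ℝ := (Fintype.card V : ℝ) with hnn
    obtain ⟨e', m', hmm, hmt, hag, hON', few⟩ := ext_lemma (vec G) (norm_vec_le G)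
      (g := 1 / 1200) (κ := κ) (by norm_num) hκ0 t e m hON (by
        have := en_nonneg (vec G) e (range m)
        rw [← hnn]
        nlinarith)
    have hsplit : en (vec G) e' (range m') = en (vec G) e (range m) + en (vec G) e' (Ico m m') := by
      rw [← en_congr (vec G) hag]
      unfold en
      rw [← sum_add_distrib]
      refine sum_congr rfl fun x _ => ?_
      rw [sum_range_add_sum_Ico _ hmm]
    by_cases hgap : en (vec G) e' (Ico m m') ≤ 1 / 120000 * n
    · -- success at this level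
      set L : Finset (V × V) := univ.filter
        (fun p : V × V => G p.1 p.2 ∧ (cdeg G p.1 p.2 : ℝ) < (1 / 4 - 1 / 100) * n) with hL
      have hLc : 8 / 100 * n ^ 2 ≤ (L.card : ℝ) := by
        set W : Finset (V × V) := univ.filter (fun p : V × V => G p.1 p.2) with hW
        have hLW : L ⊆ W := by
          intro p hp
          rw [hL, mem_filter] at hp
          rw [hW, mem_filter]
          exact ⟨hp.1, hp.2.1⟩
        have h4 : ((W.card : ℝ) - L.card) * ((1 / 4 - 1 / 100) * n) ≤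
            ∑ p ∈ W, (cdeg G p.1 p.2 : ℝ) := by
          have h5 : ((W \ L).card : ℝ) = (W.card : ℝ) - L.card := by
            have h6 := card_sdiff_add_card_eq_card hLW
            rw [← h6]
            push_cast
            ring
          rw [← h5]
          calc ((W \ L).card : ℝ) * ((1 / 4 - 1 / 100) * n) =
                ∑ p ∈ W \ L, ((1 / 4 - 1 / 100) * n) := by rw [sum_const, nsmul_eq_mul]
            _ ≤ ∑ p ∈ W \ L, (cdeg G p.1 p.2 : ℝ) := by
                refine sum_le_sum fun p hp => ?_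
                rw [mem_sdiff, hW, hL, mem_filter, mem_filter] at hp
                by_contra hcon
                push Not at hcon
                exact hp.2 ⟨mem_univ _, hp.1.2, hcon⟩
            _ ≤ _ := sum_le_sum_of_subset_of_nonneg sdiff_subset
                fun _ _ _ => Nat.cast_nonneg _
        have h5 := h4.trans h2
        have h6 : ((W.card : ℝ) - L.card) * (1 / 4 - 1 / 100) ≤ (3 / 32 + η) * n ^ 2 := by
          have h7 : (((W.card : ℝ) - L.card) * (1 / 4 - 1 / 100)) * n ≤ ((3 / 32 + η) * n ^ 2) * n := by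
            linarith
          exact le_of_mul_le_mul_right h7 hn
        have h8 : 0 ≤ n ^ 2 := sq_nonneg n
        nlinarith
      obtain ⟨p, hpL, A, B, hA, hB, hAB⟩ := core (vec G) (norm_vec_le G) (e := e') (m := m)
        (m' := m') (N := N) (M := M) hmm hmN hON' (g := 1 / 1200) (s := 1 / 1200) (τ := τ)
        (δ := δ) (eps := 1 / 120000) (κ := κ) (by norm_num) hτ hM hgap (by norm_num) few hκ1 hδ0
        hδM L hLc hn
      refine ⟨δ, min_le_left _ _, A, B, hA, hB, ?_⟩
      rw [hL, mem_filter, ← div_lt_iff₀ hn] at hpL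
      have hNτ : (N : ℝ) * τ ≤ 1 / 1200 := by
        rw [hτd, mul_one_div, div_le_div_iff₀ (by positivity) (by norm_num)]
        linarith
      have hsub : (A ×ˢ B).filter (fun p => ¬ G p.1 p.2) ⊆
          (univ.filter (fun p : V × V => 1 / 1200 ≤ |inner ℝ (res e' m' (vec G p.1)) (vec G p.2)|)) ∪
          (Finset.univ.filter (fun p : V × V => ¬ G p.1 p.2 ∧
            (cdeg G p.1 p.2 : ℝ) < (1 / 4 - η) * n)) := by
        intro q hq
        rw [mem_filter, mem_product] at hq
        rw [mem_union, mem_filter, mem_filter]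
        by_cases hqX : 1 / 1200 ≤ |(inner ℝ (res e' m' (vec G q.1)) (vec G q.2) : ℝ)|
        · exact Or.inl ⟨mem_univ _, hqX⟩
        right
        refine ⟨mem_univ _, hq.2, ?_⟩
        push Not at hqX
        have h4 := hAB q.1 hq.1.1 q.2 hq.1.2 hqX
        rw [inner_vec, inner_vec, abs_le] at h4
        rw [← div_lt_iff₀ hn]
        have h5 := h4.2
        have h6 := hpL.2.2
        linarith
      have h4 := card_le_card hsub
      have h5 := card_union_le
        (univ.filter (fun p : V × V => 1 / 1200 ≤ |inner ℝ (res e' m' (vec G p.1)) (vec G p.2)|))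
        (Finset.univ.filter (fun p : V × V => ¬ G p.1 p.2 ∧
            (cdeg G p.1 p.2 : ℝ) < (1 / 4 - η) * n))
      have h6 : ((((A ×ˢ B).filter (fun p => ¬ G p.1 p.2)).card : ℕ) : ℝ) ≤
        ((univ.filter (fun p : V × V =>
          1 / 1200 ≤ |inner ℝ (res e' m' (vec G p.1)) (vec G p.2)|)).card : ℝ) +
        ((Finset.univ.filter (fun p : V × V => ¬ G p.1 p.2 ∧
            (cdeg G p.1 p.2 : ℝ) < (1 / 4 - η) * n)).card : ℝ) := by
        exact_mod_cast h4.trans h5
      have h7 : 0 ≤ n ^ 2 := sq_nonneg n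
      have h8 : η * n ^ 2 ≤ δ ^ 4 / 64 * n ^ 2 := mul_le_mul_of_nonneg_right hη3 h7
      rw [← hnn] at few
      rw [← hκd] at h8
      have h9 : δ ^ 4 / 32 * n ^ 2 = κ * n ^ 2 + κ * n ^ 2 := by rw [hκd]; ring
      rw [h9]
      linarith
    · push Not at hgap
      obtain ⟨δ', hδ', A, B, hA, hB, hAB⟩ := H η hη hη1 hη4 V G hV h1 h2 h3 e' m' hON' (by omega)
        (by
          rw [hsplit]
          push_cast at hen
          rw [← hnn]
          linarith)
      exact ⟨δ', (min_le_right _ _).trans hδ', A, B, hA, hB, hAB⟩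

end graph

end GraphL

theorem graph_lemma : ∃ η : ℝ, 0 < η ∧ ∃ δ₀ : ℝ, 0 < δ₀ ∧ ∀ (V : Type) [Fintype V] [DecidableEq V]
    (G : V → V → Prop) [DecidableRel G], (∀ x y, G x y → G y x) → 0 < Fintype.card V →
    (1 / 2 - η) * (Fintype.card V : ℝ) ^ 2 ≤
      ((Finset.univ.filter (fun p : V × V => G p.1 p.2)).card : ℝ) →
    ∑ p ∈ Finset.univ.filter (fun p : V × V => G p.1 p.2), (cdeg G p.1 p.2 : ℝ) ≤
      (3 / 32 + η) * (Fintype.card V : ℝ) ^ 3 →
    ((Finset.univ.filter (fun p : V × V => ¬ G p.1 p.2 ∧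
      (cdeg G p.1 p.2 : ℝ) < (1 / 4 - η) * (Fintype.card V : ℝ))).card : ℝ) ≤
      η * (Fintype.card V : ℝ) ^ 2 →
    ∃ δ : ℝ, δ₀ ≤ δ ∧ ∃ A B : Finset V, δ * (Fintype.card V : ℝ) ≤ (A.card : ℝ) ∧
      δ * (Fintype.card V : ℝ) ≤ (B.card : ℝ) ∧
      (((A ×ˢ B).filter (fun p => ¬ G p.1 p.2)).card : ℝ) ≤
        δ ^ 4 / 32 * (Fintype.card V : ℝ) ^ 2 := by
  obtain ⟨δ₀, hδ₀, H⟩ := GraphL.step 120001 0
  refine ⟨min (1 / 1000) (δ₀ ^ 4 / 64), lt_min (by norm_num) (by positivity), δ₀, hδ₀, ?_⟩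
  intro V _ _ G _ _ hV h1 h2 h3
  refine H _ (lt_min (by norm_num) (by positivity)) (min_le_left _ _) (min_le_right _ _) V G hV
    h1 h2 h3 (fun _ => 0) 0 ?_ le_rfl ?_
  · intro i hi
    omega
  · have hn : (0 : ℝ) < Fintype.card V := by exact_mod_cast hV
    have := GraphL.en_nonneg (GraphL.vec G) (fun _ => 0) (Finset.range 0)
    push_cast
    nlinarith

end Pool.Agent.Lib.MP_c82047_co97
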