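import Mathlib

/-!
# Numerical inequalities
-/

namespace Pool.Agent.Lib.MP_c82047_co97

theorem num_b {N κ S2 k c b : ℝ} (hN : 0 < N) (hκ : 0 ≤ κ) (hc : 0 < c)
    (h78 : 78 * k + 12 ≤ 27 / 100 * (c * N))
    (i1 : b ≤ 30 * (3 * N * κ - 4 * S2 + (6 * k + 12) * κ)) (hCS : (3 * κ) ^ 2 ≤ N * S2)
    (hup : κ ≤ N ^ 2 / 6) (hlo : (1 / 12 - c / 300) * N ^ 2 - 2 * k * N ≤ κ) :
    b ≤ 2 * c * N ^ 3 := by
  have h1 : b * N ≤ 30 * κ * (3 * N ^ 2 - 36 * κ + (6 * k + 12) * N) := by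
    have := mul_le_mul_of_nonneg_right i1 hN.le
    linear_combination this + 120 * hCS
  have h2 : 3 * N ^ 2 - 36 * κ + (6 * k + 12) * N ≤ 4 / 10 * c * N ^ 2 := by
    have h3 : (78 * k + 12 : ℝ) * N ≤ 27 / 100 * (c * N) * N :=
      mul_le_mul_of_nonneg_right h78 hN.le
    have h4 : 0 < c * N ^ 2 := by positivity
    linarith
  have h3 : 30 * κ * (3 * N ^ 2 - 36 * κ + (6 * k + 12) * N) ≤
      30 * κ * (4 / 10 * c * N ^ 2) := mul_le_mul_of_nonneg_left h2 (by positivity)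
  have h4 : 30 * κ * (4 / 10 * c * N ^ 2) ≤ 30 * (N ^ 2 / 6) * (4 / 10 * c * N ^ 2) := by
    refine mul_le_mul_of_nonneg_right ?_ (by positivity)
    linarith
  have h5 : b * N ≤ 2 * c * N ^ 3 * N := by
    have : 0 < c * N ^ 4 := by positivity
    linarith
  exact le_of_mul_le_mul_right h5 hN

theorem num_κ {N κ S2 k c b : ℝ} (hN : 0 < N) (hκ : 0 ≤ κ) (hc : 0 < c) (hb : 0 ≤ b)
    (h78 : 6 * k + 12 ≤ 3 / 100 * (c * N))
    (i1 : b ≤ 30 * (3 * N * κ - 4 * S2 + (6 * k + 12) * κ)) (hCS : (3 * κ) ^ 2 ≤ N * S2) :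
    κ ≤ (1 / 12 + c / 1000) * N ^ 2 := by
  rcases hκ.eq_or_lt with h | h
  · rw [← h]; positivity
  · have h1 : 36 * κ * κ ≤ (3 * N ^ 2 + (6 * k + 12) * N) * κ := by
      have h2 : 4 * S2 ≤ 3 * N * κ + (6 * k + 12) * κ := by linarith
      have h3 := mul_le_mul_of_nonneg_left h2 hN.le
      linear_combination h3 + 4 * hCS
    have h4 := le_of_mul_le_mul_right h1 h
    have h5 : (6 * k + 12 : ℝ) * N ≤ 3 / 100 * (c * N) * N :=
      mul_le_mul_of_nonneg_right (by linarith) hN.le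
    have h6 : 0 < c * N ^ 2 := by positivity
    linarith

theorem num_var {N κ S2 k c b : ℝ} (hN : 0 < N) (hκ : 0 ≤ κ) (hc : 0 < c) (hb : 0 ≤ b)
    (hk : 5 ≤ k) (hkN : 300 * k ≤ c * N)
    (i1 : b ≤ 30 * (3 * N * κ - 4 * S2 + (6 * k + 12) * κ))
    (hup : κ ≤ N ^ 2 / 6) (hlo : (1 / 12 - c / 300) * N ^ 2 - 2 * k * N ≤ κ) :
    S2 - N / 2 * (3 * κ) + N ^ 3 / 16 ≤ c * N ^ 3 := by
  have h2 : 4 * S2 ≤ 3 * N * κ + (6 * k + 12) * κ := by linarith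
  have h3 : (6 * k + 12 : ℝ) * κ ≤ 9 * k * (N ^ 2 / 6) := by
    have : (6 * k + 12 : ℝ) * κ ≤ 9 * k * κ := mul_le_mul_of_nonneg_right (by linarith) hκ
    have h4 : 9 * (k : ℝ) * κ ≤ 9 * k * (N ^ 2 / 6) :=
      mul_le_mul_of_nonneg_left hup (by linarith)
    linarith
  have h4 : N * ((1 / 12 - c / 300) * N ^ 2 - 2 * k * N) ≤ N * κ :=
    mul_le_mul_of_nonneg_left hlo hN.le
  have h5 : 300 * (k : ℝ) * N ^ 2 ≤ c * N * N ^ 2 := mul_le_mul_of_nonneg_right hkN (by positivity)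
  have h6 : 0 < c * N ^ 3 := by positivity
  linarith

theorem num_cod {N κ k c b T η : ℝ} (hN : 0 < N) (hκ : 0 ≤ κ)
    (hk : 5 ≤ k) (hkN : 300 * k ≤ c * N) (hη : 0 < η) (hc3 : c ≤ η / 2000)
    (hb : b ≤ 2 * c * N ^ 3) (i2 : 8 * T ≤ 9 * N * κ + 39 * b + 48 * k * κ)
    (hup0 : κ ≤ N ^ 2 / 6) (hup : κ ≤ (1 / 12 + c / 1000) * N ^ 2) :
    T + 6 * κ ≤ (3 / 32 + η) * N ^ 3 := by
  have h3 : N * κ ≤ N * ((1 / 12 + c / 1000) * N ^ 2) := mul_le_mul_of_nonneg_left hup hN.le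
  have h4 : (6 * k + 6 : ℝ) * κ ≤ 9 * k * (N ^ 2 / 6) := by
    have : (6 * k + 6 : ℝ) * κ ≤ 9 * k * κ := mul_le_mul_of_nonneg_right (by linarith) hκ
    have h4 : 9 * (k : ℝ) * κ ≤ 9 * k * (N ^ 2 / 6) :=
      mul_le_mul_of_nonneg_left hup0 (by linarith)
    linarith
  have h5 : c * N ^ 3 ≤ η / 2000 * N ^ 3 := mul_le_mul_of_nonneg_right hc3 (by positivity)
  have h6 : 0 < η * N ^ 3 := by positivity
  have h7 : 300 * (k : ℝ) * N ^ 2 ≤ c * N * N ^ 2 := mul_le_mul_of_nonneg_right hkN (by positivity)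
  linarith

theorem num_adj {N κ k c η : ℝ} (hN : 0 < N)
    (hkN : 300 * k ≤ c * N) (hη : 0 < η) (hc3 : c ≤ η / 2000)
    (hlo : (1 / 12 - c / 300) * N ^ 2 - 2 * k * N ≤ κ) :
    (1 / 2 - η) * N ^ 2 ≤ 6 * κ := by
  have h1 : 300 * (k : ℝ) * N ≤ c * N * N := mul_le_mul_of_nonneg_right hkN hN.le
  have h5 : c * N ^ 2 ≤ η / 2000 * N ^ 2 := mul_le_mul_of_nonneg_right hc3 (by positivity)
  have h6 : 0 < η * N ^ 2 := by positivity
  linarith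

theorem num_term {N t k β η : ℝ} (hηN : 0 < η * N) (h4 : η * N ≤ t + k + β) :
    η * N / 2 ≤ t ^ 2 / (2 * (η * N)) + k + β := by
  generalize η * N = s at *
  have h5 : t ≤ t ^ 2 / (2 * s) + s / 2 := by
    have h6 : t ^ 2 / (2 * s) + s / 2 - t = (t - s) ^ 2 / (2 * s) := by
      field_simp
      ring
    have h7 : 0 ≤ (t - s) ^ 2 / (2 * s) := by positivity
    linarith
  linarith

theorem num_low {N k c b η l l' : ℝ} (hN : 0 < N) (hη : 0 < η)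
    (hk : 5 ≤ k) (hkN : 300 * k ≤ c * N)
    (hc1 : c ≤ η ^ 3 / 4) (hc2 : c ≤ η ^ 2 / 3000) (hc3 : c ≤ η / 2000)
    (hb : b ≤ 2 * c * N ^ 3) (hl : l ≤ l' + N)
    (hsum : η * N / 2 * l' ≤ N * (c * N ^ 3) / (2 * (η * N)) + k * N ^ 2 + 3 * b) :
    l ≤ η * N ^ 2 := by
  have hN2 : 0 < N ^ 2 := by positivity
  have hN3 : 0 < N ^ 3 := by positivity
  have hmain : l' ≤ (η / 4 + η / 100) * N ^ 2 := by
    have h2 : N * (c * N ^ 3) / (2 * (η * N)) = c * N ^ 3 / (2 * η) := by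
      field_simp
    rw [h2] at hsum
    have h3 : c * N ^ 3 / (2 * η) ≤ η * N / 2 * (η / 4 * N ^ 2) := by
      rw [div_le_iff₀ (by positivity)]
      have h4 : c * N ^ 3 ≤ η ^ 3 / 4 * N ^ 3 := mul_le_mul_of_nonneg_right hc1 hN3.le
      linarith
    have h4 : k * N ^ 2 + 3 * b ≤ η * N / 2 * (η / 100 * N ^ 2) := by
      have h5 : c * N ^ 3 ≤ η ^ 2 / 3000 * N ^ 3 := mul_le_mul_of_nonneg_right hc2 hN3.le
      have h6 : 0 < η ^ 2 * N ^ 3 := by positivity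
      have h7 : 300 * (k : ℝ) * N ^ 2 ≤ c * N * N ^ 2 :=
        mul_le_mul_of_nonneg_right hkN (by positivity)
      linarith
    have h5 : η * N / 2 * l' ≤ η * N / 2 * ((η / 4 + η / 100) * N ^ 2) := by
      linarith
    exact le_of_mul_le_mul_left h5 (by positivity)
  have h2 : N ≤ η / 4 * N ^ 2 := by
    have h3 : (1500 : ℝ) ≤ η / 2000 * N := by
      have : c * N ≤ η / 2000 * N := mul_le_mul_of_nonneg_right hc3 hN.le
      linarith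
    have h4 : (1 : ℝ) ≤ η / 4 * N := by linarith
    have h5 := mul_le_mul_of_nonneg_right h4 hN.le
    linarith
  have h3 : 0 < η * N ^ 2 := by positivity
  linarith

theorem num_fin {N κ k c b δ₀ δ m ν a a' : ℝ} (hN : 0 < N) (hc : 0 < c)
    (hk : 5 ≤ k) (hkN : 300 * k ≤ c * N) (hδ₀ : 0 < δ₀) (hc4 : c ≤ δ₀ ^ 4 / 4000) (hδ : δ₀ ≤ δ)
    (hb : b ≤ 2 * c * N ^ 3) (hup0 : κ ≤ N ^ 2 / 6) (ha : δ * N ≤ a) (ha' : δ * N ≤ a')
    (haN : a ≤ N) (hν : ν ≤ δ ^ 4 / 32 * N ^ 2) (hm1 : a * a' ≤ m + ν)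
    (hm2 : m ^ 2 ≤ N * (2 * (N * ν) + 9 * (k * κ + b))) : False := by
  have hδ0 : 0 < δ := hδ₀.trans_le hδ
  have hδ1 : δ ≤ 1 := by
    have h2 : δ * N ≤ 1 * N := by linarith
    exact le_of_mul_le_mul_right h2 hN
  have hN2 : 0 < N ^ 2 := by positivity
  have hAB : δ ^ 2 * N ^ 2 ≤ a * a' := by
    have := mul_le_mul ha ha' (by positivity) ((by positivity : 0 ≤ δ * N).trans ha)
    linarith
  have hδ2 : δ ^ 4 * N ^ 2 ≤ δ ^ 2 * N ^ 2 := by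
    refine mul_le_mul_of_nonneg_right ?_ hN2.le
    exact pow_le_pow_of_le_one hδ0.le hδ1 (by norm_num)
  have hmlo : 31 / 32 * (δ ^ 2 * N ^ 2) ≤ m := by linarith
  have hmsq : (31 / 32 * (δ ^ 2 * N ^ 2)) ^ 2 ≤ (m : ℝ) ^ 2 :=
    pow_le_pow_left₀ (by positivity) hmlo 2
  have hδ4 : δ₀ ^ 4 ≤ δ ^ 4 := pow_le_pow_left₀ hδ₀.le hδ 4
  have hfin : c * N ^ 4 ≤ δ ^ 4 / 4000 * N ^ 4 :=
    mul_le_mul_of_nonneg_right (by linarith) (by positivity)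
  have hkN2 : 300 * (k : ℝ) * N ^ 2 ≤ c * N ^ 3 := by
    have h5 : 300 * (k : ℝ) * N ^ 2 ≤ c * N * N ^ 2 := mul_le_mul_of_nonneg_right hkN hN2.le
    linarith
  have h1 : N * (2 * (N * ν) + 9 * (k * κ + b)) ≤ δ ^ 4 / 16 * N ^ 4 + 20 * c * N ^ 4 := by
    have h2 : N * (2 * (N * ν)) ≤ δ ^ 4 / 16 * N ^ 4 := by
      have := mul_le_mul_of_nonneg_left hν (by positivity : (0 : ℝ) ≤ 2 * N ^ 2)
      linarith
    have h3 : k * κ ≤ c / 300 * N ^ 3 := by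
      have h4 : (k : ℝ) * κ ≤ k * (N ^ 2 / 6) := mul_le_mul_of_nonneg_left hup0 (by linarith)
      have h5 : 0 < c * N ^ 3 := by positivity
      linarith
    have h4 : N * (9 * (k * κ + b)) ≤ N * (9 * (c / 300 * N ^ 3 + 2 * c * N ^ 3)) :=
      mul_le_mul_of_nonneg_left (by linarith) hN.le
    have h5 : 0 < c * N ^ 4 := by positivity
    linarith
  have h2 : 0 < δ ^ 4 * N ^ 4 := by positivity
  have h3 : (31 / 32 * (δ ^ 2 * N ^ 2)) ^ 2 = 961 / 1024 * (δ ^ 4 * N ^ 4) := by ring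
  linarith

end Pool.Agent.Lib.MP_c82047_co97
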