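import Pool.Agent.Lib.MP_c82047_co97.Cherries
import Pool.Agent.Lib.MP_c82047_co97.GraphLemma
import Pool.Agent.Lib.MP_c82047_co97.Num

/-!
# Linear triple systems of density slightly below `1/12`
-/

namespace Pool.Agent.Lib.MP_c82047_co97

theorem dprime : ∃ c : ℝ, 0 < c ∧ ∀ (k n : ℕ), 5 ≤ k → (k : ℝ) ≤ c * n →
    ∀ H : Finset (Finset (Fin n)), Lin H → (1 / 12 - c) * (n : ℝ) ^ 2 ≤ (H.card : ℝ) →
    ∃ S : Finset (Fin n), k ≤ S.card ∧ S.card < 2 * k ∧ S.card ≤ e H S + 3 := by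
  classical
  obtain ⟨η, hη, δ₀, hδ₀, hG⟩ := graph_lemma
  set c₁ : ℝ := min (min (η ^ 3 / 4) (η ^ 2 / 3000)) (min (η / 2000) (δ₀ ^ 4 / 4000)) with hc₁
  have hc0 : 0 < c₁ := by
    rw [hc₁]
    refine lt_min (lt_min ?_ ?_) (lt_min ?_ ?_) <;> positivity
  have hc1 : c₁ ≤ η ^ 3 / 4 := (min_le_left _ _).trans (min_le_left _ _)
  have hc2 : c₁ ≤ η ^ 2 / 3000 := (min_le_left _ _).trans (min_le_right _ _)
  have hc3 : c₁ ≤ η / 2000 := (min_le_right _ _).trans (min_le_left _ _)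
  have hc4 : c₁ ≤ δ₀ ^ 4 / 4000 := (min_le_right _ _).trans (min_le_right _ _)
  clear_value c₁
  refine ⟨c₁ / 300, by positivity, fun k n hk hkn H hH hcard => ?_⟩
  by_contra hcon
  push Not at hcon
  have hfH : ∀ S : Finset (Fin n), k ≤ S.card → S.card < 2 * k → e H S + 4 ≤ S.card := by
    intro S h h'
    have := hcon S h h'
    omega
  obtain ⟨K, hKH, hG2, hdel⟩ := cleaning hH hk hfH
  have hfree : ∀ S : Finset (Fin n), k ≤ S.card → S.card < 2 * k → e K S + 4 ≤ S.card := by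
    intro S h h'
    have := hfH S h h'
    have := e_mono_left hKH S
    omega
  have hK : Lin K := hH.mono hKH
  have hk5 : (5 : ℝ) ≤ k := by exact_mod_cast hk
  have hk0 : (0 : ℝ) < k := by linarith
  have hkN : 300 * (k : ℝ) ≤ c₁ * n := by linarith
  have hN0 : (0 : ℝ) < n := by
    by_contra h
    push Not at h
    have : c₁ * (n : ℝ) ≤ 0 := mul_nonpos_of_nonneg_of_nonpos hc0.le h
    linarith
  obtain ⟨blk, bd, hblk, i1, i2, i3, i4⟩ := bad_setup hK hk hfree hG2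
  rw [Fintype.card_fin] at i1 i2
  obtain ⟨N, hNdef⟩ : ∃ N : ℝ, N = (n : ℝ) := ⟨_, rfl⟩
  obtain ⟨κ, hκdef⟩ : ∃ κ : ℝ, κ = (K.card : ℝ) := ⟨_, rfl⟩
  obtain ⟨b, hbdef⟩ : ∃ b : ℝ, b = ((∑ E ∈ K, (bd E).card : ℕ) : ℝ) := ⟨_, rfl⟩
  obtain ⟨S2, hS2def⟩ : ∃ S2 : ℝ, S2 = ∑ a, ((deg K a : ℕ) : ℝ) ^ 2 := ⟨_, rfl⟩
  obtain ⟨T, hTdef⟩ : ∃ T : ℝ, T = ((∑ E ∈ K, ∑ x ∈ Eᶜ,
    (jj K E x : ℤ) * ((jj K E x : ℤ) - 1) : ℤ) : ℝ) := ⟨_, rfl⟩
  rw [← hNdef] at hN0 hkN hcard
  have hb0 : 0 ≤ b := by rw [hbdef]; exact Nat.cast_nonneg _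
  have hκ0 : 0 ≤ κ := by rw [hκdef]; exact Nat.cast_nonneg _
  have i1R : b ≤ 30 * (3 * N * κ - 4 * S2 + (6 * k + 12) * κ) := by
    have := (Int.cast_le (R := ℝ)).2 i1
    push_cast at this
    rw [hbdef, hκdef, hNdef, hS2def]
    push_cast
    exact this
  have i2R : 8 * T ≤ 9 * N * κ + 39 * b + 48 * k * κ := by
    have := (Int.cast_le (R := ℝ)).2 i2
    rw [hbdef, hTdef, hκdef, hNdef]
    push_cast at this ⊢
    exact this
  clear i1 i2
  -- bounds for the number of triples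
  have hκup0 : κ ≤ N ^ 2 / 6 := by
    have h := card_le_sq hK
    rw [Fintype.card_fin] at h
    have : (6 : ℝ) * K.card ≤ (n : ℝ) ^ 2 := by exact_mod_cast h
    rw [hκdef, hNdef]
    linarith
  have hκlo : (1 / 12 - c₁ / 300) * N ^ 2 - 2 * k * N ≤ κ := by
    have h1 : H.card ≤ K.card + (H \ K).card := by
      have := Finset.card_union_le K (H \ K)
      rwa [Finset.union_sdiff_of_subset hKH] at this
    rw [Fintype.card_fin] at hdel
    have h2 : (H.card : ℝ) ≤ K.card + 2 * k * n := by exact_mod_cast h1.trans (by omega)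
    rw [← hκdef, ← hNdef] at h2
    linarith
  have hsd : ∑ a, ((deg K a : ℕ) : ℝ) = 3 * κ := by
    have := sum_deg hK.1
    rw [hκdef]
    exact_mod_cast this
  have hCS : (3 * κ) ^ 2 ≤ N * S2 := by
    have := sq_sum_le_card_mul_sum_sq (s := (Finset.univ : Finset (Fin n)))
      (f := fun a => ((deg K a : ℕ) : ℝ))
    rw [hsd, Finset.card_univ, Fintype.card_fin, ← hNdef, ← hS2def] at this
    exact this
  -- few bad pairs
  have hb : b ≤ 2 * c₁ * N ^ 3 := num_b hN0 hκ0 hc0 (by linarith) i1R hCS hκup0 hκlo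
  have hκup : κ ≤ (1 / 12 + c₁ / 1000) * N ^ 2 := num_κ hN0 hκ0 hc0 hb0 (by linarith) i1R hCS
  -- variance of the degrees
  have hvar : ∑ a, (N / 4 - ((deg K a : ℕ) : ℝ)) ^ 2 ≤ c₁ * N ^ 3 := by
    have h1 : ∑ a, (N / 4 - ((deg K a : ℕ) : ℝ)) ^ 2 = S2 - N / 2 * (3 * κ) + N ^ 3 / 16 := by
      have h2 : ∀ a : Fin n, (N / 4 - ((deg K a : ℕ) : ℝ)) ^ 2 =
          ((deg K a : ℕ) : ℝ) ^ 2 - N / 2 * ((deg K a : ℕ) : ℝ) + N ^ 2 / 16 := fun a => by ring
      rw [Finset.sum_congr rfl fun a _ => h2 a, Finset.sum_add_distrib, Finset.sum_sub_distrib,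
        ← Finset.mul_sum, hsd, Finset.sum_const, Finset.card_univ, Fintype.card_fin, nsmul_eq_mul,
        ← hNdef, ← hS2def]
      ring
    rw [h1]
    exact num_var hN0 hκ0 hc0 hb0 hk5 hkN i1R hκup0 hκlo
  -- the codegrees of adjacent pairs
  have hcod : ∑ p ∈ Finset.univ.filter (fun p : Fin n × Fin n => Adj K p.1 p.2),
      (cdeg (Adj K) p.1 p.2 : ℝ) ≤ (3 / 32 + η) * N ^ 3 := by
    have h1 := sum_cdeg hK
    have h2 : ∑ p ∈ Finset.univ.filter (fun p : Fin n × Fin n => Adj K p.1 p.2),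
      (cdeg (Adj K) p.1 p.2 : ℝ) = T + 6 * κ := by
      rw [hTdef, hκdef]
      exact_mod_cast h1
    rw [h2]
    exact num_cod hN0 hκ0 hk5 hkN hη hc3 hb i2R hκup0 hκup
  -- the number of adjacent pairs
  have hadj : (1 / 2 - η) * N ^ 2 ≤
      ((Finset.univ.filter (fun p : Fin n × Fin n => Adj K p.1 p.2)).card : ℝ) := by
    rw [card_adj_pairs hK]
    push_cast
    rw [← hκdef]
    exact num_adj hN0 hkN hη hc3 hκlo
  -- the codegrees of nonadjacent pairs
  have hlow : ((Finset.univ.filter (fun p : Fin n × Fin n => ¬ Adj K p.1 p.2 ∧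
      (cdeg (Adj K) p.1 p.2 : ℝ) < (1 / 4 - η) * N)).card : ℝ) ≤ η * N ^ 2 := by
    set Lo := Finset.univ.filter (fun p : Fin n × Fin n => ¬ Adj K p.1 p.2 ∧
      (cdeg (Adj K) p.1 p.2 : ℝ) < (1 / 4 - η) * N) with hLo
    set Lo' := Lo.filter (fun p => p.1 ≠ p.2) with hLo'
    have h1 : (Lo.card : ℝ) ≤ Lo'.card + N := by
      have h2 : Lo ⊆ Lo' ∪ (Finset.univ : Finset (Fin n)).image (fun x => (x, x)) := by
        rintro ⟨x, y⟩ hp
        rw [Finset.mem_union]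
        by_cases h : x = y
        · exact Or.inr (Finset.mem_image.2 ⟨x, Finset.mem_univ _, by rw [h]⟩)
        · exact Or.inl (Finset.mem_filter.2 ⟨hp, h⟩)
      have h3 := (Finset.card_le_card h2).trans (Finset.card_union_le _ _)
      have h4 : ((Finset.univ : Finset (Fin n)).image (fun x => (x, x))).card ≤ n := by
        refine Finset.card_image_le.trans ?_
        simp
      have h5 : Lo.card ≤ Lo'.card + n := by omega
      rw [hNdef]
      exact_mod_cast h5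
    set bb : Fin n × Fin n → ℕ := fun p => (K.filter (fun F => p.1 ∈ F ∧ p.2 ∈ bd F)).card with hbb
    have hbbsum : ∑ p, (bb p : ℝ) = 3 * b := by
      have h2 : ∑ p, bb p = 3 * ∑ F ∈ K, (bd F).card := by
        simp only [hbb, Finset.card_filter]
        rw [Finset.sum_comm, Finset.mul_sum]
        refine Finset.sum_congr rfl fun F hF => ?_
        rw [← Finset.card_filter]
        have h3 : Finset.univ.filter (fun p : Fin n × Fin n => p.1 ∈ F ∧ p.2 ∈ bd F) =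
            F ×ˢ bd F := by
          ext ⟨x, y⟩
          simp
        rw [h3, Finset.card_product, hK.1 F hF]
      rw [hbdef]
      exact_mod_cast h2
    have hterm : ∀ p ∈ Lo', η * N / 2 ≤ (N / 4 - ((deg K p.1 : ℕ) : ℝ)) ^ 2 / (2 * (η * N)) +
        k + bb p := by
      rintro ⟨x, y⟩ hp
      rw [hLo', Finset.mem_filter, hLo, Finset.mem_filter] at hp
      obtain ⟨⟨-, hna, hcd⟩, hxy⟩ := hp
      have h2 := i3 x y hxy hna
      have h3 : ((deg K x : ℕ) : ℝ) ≤ (cdeg (Adj K) x y : ℝ) + k + bb (x, y) := by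
        exact_mod_cast h2
      simp only at hcd ⊢
      refine num_term (by positivity) ?_
      linarith
    have hsum : η * N / 2 * (Lo'.card : ℝ) ≤ N * (c₁ * N ^ 3) / (2 * (η * N)) + k * N ^ 2 +
        3 * b := by
      calc η * N / 2 * (Lo'.card : ℝ) = ∑ p ∈ Lo', η * N / 2 := by
            rw [Finset.sum_const, nsmul_eq_mul, mul_comm]
        _ ≤ ∑ p ∈ Lo', ((N / 4 - ((deg K p.1 : ℕ) : ℝ)) ^ 2 / (2 * (η * N)) + k + bb p) :=
            Finset.sum_le_sum hterm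
        _ ≤ ∑ p, ((N / 4 - ((deg K p.1 : ℕ) : ℝ)) ^ 2 / (2 * (η * N)) + k + bb p) :=
            Finset.sum_le_sum_of_subset_of_nonneg (Finset.subset_univ _) fun p _ _ => by positivity
        _ = N * (∑ a, (N / 4 - ((deg K a : ℕ) : ℝ)) ^ 2) / (2 * (η * N)) + k * N ^ 2 + 3 * b := by
            rw [Finset.sum_add_distrib, Finset.sum_add_distrib, hbbsum, Fintype.sum_prod_type]
            simp only [Finset.sum_const, Finset.card_univ, Fintype.card_prod, Fintype.card_fin,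
              nsmul_eq_mul, ← Finset.sum_div, ← Finset.mul_sum]
            push_cast
            rw [← hNdef]
            ring
        _ ≤ N * (c₁ * N ^ 3) / (2 * (η * N)) + k * N ^ 2 + 3 * b := by
            gcongr
    exact num_low hN0 hη hk5 hkN hc1 hc2 hc3 hb h1 hsum
  -- a rectangle
  rw [hNdef] at hadj hcod hlow
  obtain ⟨δ, hδ, A, B, hA, hB, hNA⟩ := hG (Fin n) (Adj K) (fun x y h => h.symm)
    (by rw [Fintype.card_fin]; rw [hNdef] at hN0; exact_mod_cast hN0)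
    (by rw [Fintype.card_fin]; exact hadj)
    (by rw [Fintype.card_fin]; exact hcod) (by rw [Fintype.card_fin]; exact hlow)
  rw [Fintype.card_fin] at hA hB hNA
  obtain ⟨m, hm1, hm2⟩ := cherry_count hK (fun F => blk F ∪ bd F) i4 A B _ le_rfl
  obtain ⟨ν, hν⟩ : ∃ ν : ℕ, ν = ((A ×ˢ B).filter (fun p => ¬ Adj K p.1 p.2)).card := ⟨_, rfl⟩
  rw [← hν] at hm1 hm2 hNA
  rw [Fintype.card_fin] at hm2
  have hm1R : (A.card : ℝ) * B.card ≤ m + ν := by exact_mod_cast hm1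
  have hWsum : ((∑ F ∈ K, (blk F ∪ bd F).card : ℕ) : ℝ) ≤ k * κ + b := by
    have h1 : ∑ F ∈ K, (blk F ∪ bd F).card ≤ k * K.card + ∑ F ∈ K, (bd F).card := by
      calc ∑ F ∈ K, (blk F ∪ bd F).card ≤ ∑ F ∈ K, (k + (bd F).card) := by
            refine Finset.sum_le_sum fun F hF => ?_
            have h2 := Finset.card_union_le (blk F) (bd F)
            have h3 := (hblk F hF).2
            omega
        _ = k * K.card + ∑ F ∈ K, (bd F).card := by
            rw [Finset.sum_add_distrib, Finset.sum_const, smul_eq_mul, mul_comm]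
    rw [hκdef, hbdef]
    exact_mod_cast h1
  have hm2R : (m : ℝ) ^ 2 ≤ N * (2 * (N * ν) + 9 * (k * κ + b)) := by
    have h1 : (m : ℝ) ^ 2 ≤ (n : ℝ) * (2 * ((n : ℝ) * ν) +
        9 * ((∑ F ∈ K, (blk F ∪ bd F).card : ℕ) : ℝ)) := by
      have h2 := (Nat.cast_le (α := ℝ)).2 hm2
      simpa only [Nat.cast_pow, Nat.cast_mul, Nat.cast_add, Nat.cast_ofNat] using h2
    rw [← hNdef] at h1
    refine h1.trans (mul_le_mul_of_nonneg_left ?_ hN0.le)
    linarith
  have haN : (A.card : ℝ) ≤ N := by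
    have := Finset.card_le_univ A
    rw [Fintype.card_fin] at this
    rw [hNdef]
    exact_mod_cast this
  rw [← hNdef] at hA hB hNA
  exact num_fin hN0 hc0 hk5 hkN hδ₀ hc4 hδ hb hκup0 hA hB haN hNA hm1R hm2R

end Pool.Agent.Lib.MP_c82047_co97
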