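import Pool.Agent.Lib.MP_c82047_co97.Goodman

/-!
# From the two main inequalities to the theorems for exact orders

`H` is `k`-free if no set of exactly `k` points contains `k - 3` or more triples of `H`.
-/

namespace Pool.Agent.Lib.MP_c82047_co97

/-- No set of exactly `k` points contains `k - 3` or more triples. -/
def KFree {V : Type*} [DecidableEq V] (H : Finset (Finset V)) (k : ℕ) : Prop :=
  ∀ S : Finset V, S.card = k → e H S + 4 ≤ S.card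

/-- The two-colour theorem follows from the inequality `c · cnt H ≤ θ H + O(n²)`. -/
theorem ramsey_of_main {k : ℕ} {c C : ℝ} (hc : 0 < c)
    (main : ∀ (n : ℕ) (H : Finset (Finset (Fin n))), Lin H → KFree H k →
      c * (cnt H : ℝ) ≤ (theta H : ℝ) + C * (n : ℝ) ^ 2) :
    ∃ ε : ℝ, 0 < ε ∧ ∃ n₀ : ℕ, ∀ n : ℕ, n₀ ≤ n → ∀ T : Finset (Finset (Fin n)), Lin T →
      (1 / 6 - ε) * (n : ℝ) ^ 2 ≤ (T.card : ℝ) → ∀ A ⊆ T,
      ∃ S : Finset (Fin n), S.card = k ∧ (S.card ≤ e A S + 3 ∨ S.card ≤ e (T \ A) S + 3) := by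
  wlog hc1 : c ≤ 1 with hw
  · refine hw (c := 1) (C := C) one_pos (fun n H hH hk => ?_) le_rfl
    refine le_trans ?_ (main n H hH hk)
    refine mul_le_mul_of_nonneg_right (le_of_not_ge hc1) (Nat.cast_nonneg _)
  have hC : 0 ≤ C ⊔ 0 := le_max_right _ _
  obtain ⟨n₀, hn₀⟩ := exists_nat_gt (100 * (c + 2 * (C ⊔ 0)) / c)
  refine ⟨c / 100, by positivity, max n₀ 1, fun n hn T hT hcard A hA => ?_⟩
  have hn1 : 1 ≤ n := (le_max_right _ _).trans hn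
  have hn2 : n₀ ≤ n := (le_max_left _ _).trans hn
  by_contra hcon
  push Not at hcon
  have hfA : KFree A k := by
    intro S h
    have := (hcon S h).1
    omega
  have hfB : KFree (T \ A) k := by
    intro S h
    have := (hcon S h).2
    omega
  have mA := main n A (hT.mono hA) hfA
  have mB := main n (T \ A) (hT.mono Finset.sdiff_subset) hfB
  obtain ⟨g1, g2⟩ := goodman (A := A) (B := T \ A) hT (Finset.union_sdiff_of_subset hA)
    Finset.disjoint_sdiff (ε := c / 100) (by positivity) (by linarith) (by simpa using hcard)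
  rw [Fintype.card_fin] at g1 g2
  have hnpos : (0 : ℝ) < n := by exact_mod_cast hn1
  have hlt : 100 * (c + 2 * (C ⊔ 0)) < c * n := by
    have h1 : 100 * (c + 2 * (C ⊔ 0)) / c < n := hn₀.trans_le (by exact_mod_cast hn2)
    rw [div_lt_iff₀ hc] at h1
    linarith
  have hCn : C * (n : ℝ) ^ 2 ≤ (C ⊔ 0) * (n : ℝ) ^ 2 :=
    mul_le_mul_of_nonneg_right (le_max_left _ _) (by positivity)
  have h2 : c * ((1 / 12 - c / 100) * (n : ℝ) ^ 3 - (n : ℝ) ^ 2) ≤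
      6 * (c / 100) * (n : ℝ) ^ 3 + 2 * ((C ⊔ 0) * (n : ℝ) ^ 2) := by
    have h3 := mul_le_mul_of_nonneg_left g2 hc.le
    linarith
  have h3 : c / 100 * (n : ℝ) ^ 3 ≤ (c + 2 * (C ⊔ 0)) * (n : ℝ) ^ 2 := by
    have h4 : 0 ≤ c * (n : ℝ) ^ 3 := by positivity
    have h5 : c * (c / 100) * (n : ℝ) ^ 3 ≤ c / 100 * (n : ℝ) ^ 3 := by
      have : c * (c / 100) ≤ c / 100 := by nlinarith
      exact mul_le_mul_of_nonneg_right this (by positivity)
    linarith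
  have h4 : 100 * (c + 2 * (C ⊔ 0)) * (n : ℝ) ^ 2 < c * n * (n : ℝ) ^ 2 :=
    mul_lt_mul_of_pos_right hlt (by positivity)
  linarith

/-- The density theorem follows from the inequality `(7/12) ∑ j ≤ cnt H + O(n²)`. -/
theorem density_of_main {k : ℕ} {C : ℝ}
    (main : ∀ (n : ℕ) (H : Finset (Finset (Fin n))), Lin H → KFree H k →
      7 / 12 * ((∑ E ∈ H, ∑ x ∈ Eᶜ, (jj H E x : ℤ) : ℤ) : ℝ) ≤ (cnt H : ℝ) + C * (n : ℝ) ^ 2) :
    ∃ C' : ℝ, ∀ (n : ℕ) (H : Finset (Finset (Fin n))), Lin H → KFree H k →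
      (H.card : ℝ) ≤ 2 / 21 * (n : ℝ) ^ 2 + C' * (n : ℝ) := by
  refine ⟨2 / 21 * (7 / 2 + 21 * (C ⊔ 0)), fun n H hH hk => ?_⟩
  have hC : 0 ≤ C ⊔ 0 := le_max_right _ _
  by_cases hsmall : (H.card : ℝ) ≤ 2 / 21 * (n : ℝ) ^ 2
  · have : 0 ≤ 2 / 21 * (7 / 2 + 21 * (C ⊔ 0)) * (n : ℝ) := by positivity
    linarith
  push Not at hsmall
  have h1 := main n H hH hk
  rw [sum_jj hH] at h1
  have h2 : ∑ a, (deg H a : ℤ) * (2 * (deg H a : ℤ) - 2) =
      2 * ∑ a, (deg H a : ℤ) ^ 2 - 6 * H.card := by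
    have h6 := sum_deg hH.1
    have h7 : ∑ a, (deg H a : ℤ) = 3 * H.card := by exact_mod_cast h6
    calc ∑ a, (deg H a : ℤ) * (2 * (deg H a : ℤ) - 2) =
        2 * ∑ a, (deg H a : ℤ) ^ 2 - 2 * ∑ a, (deg H a : ℤ) := by
          rw [Finset.mul_sum, Finset.mul_sum, ← Finset.sum_sub_distrib]
          exact Finset.sum_congr rfl fun a _ => by ring
      _ = _ := by rw [h7]; ring
  rw [h2] at h1
  have h3 : cnt H ≤ H.card * n := by
    unfold cnt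
    calc ∑ E ∈ H, (Eᶜ.filter (fun x => 1 ≤ jj H E x)).card ≤ ∑ _E ∈ H, n := by
          refine Finset.sum_le_sum fun E _ => ?_
          have := Finset.card_le_univ (Eᶜ.filter (fun x => 1 ≤ jj H E x))
          rwa [Fintype.card_fin] at this
      _ = H.card * n := by rw [Finset.sum_const, smul_eq_mul]
  have h4 : (3 * (H.card : ℤ)) ^ 2 ≤ n * ∑ a, (deg H a : ℤ) ^ 2 := by
    have h5 := sq_sum_le_card_mul_sum_sq (s := (Finset.univ : Finset (Fin n)))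
      (f := fun a => (deg H a : ℤ))
    have h6 := sum_deg hH.1
    have h7 : ∑ a, (deg H a : ℤ) = 3 * H.card := by exact_mod_cast h6
    rwa [h7, Finset.card_univ, Fintype.card_fin] at h5
  obtain ⟨N, hN⟩ : ∃ N : ℝ, N = (n : ℝ) := ⟨_, rfl⟩
  obtain ⟨κ, hκ⟩ : ∃ κ : ℝ, κ = (H.card : ℝ) := ⟨_, rfl⟩
  obtain ⟨S2, hS2⟩ : ∃ S2 : ℤ, S2 = ∑ a, (deg H a : ℤ) ^ 2 := ⟨_, rfl⟩
  obtain ⟨s, hs⟩ : ∃ s : ℝ, s = (S2 : ℝ) := ⟨_, rfl⟩
  rw [← hS2] at h1 h4
  have r1 : 7 / 12 * (2 * s - 6 * κ) ≤ (cnt H : ℝ) + C * N ^ 2 := by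
    rw [hs, hκ, hN]
    exact_mod_cast h1
  have r3 : (cnt H : ℝ) ≤ κ * N := by rw [hκ, hN]; exact_mod_cast h3
  have r4 : (3 * κ) ^ 2 ≤ N * s := by rw [hκ, hN, hs]; exact_mod_cast h4
  rw [← hN, ← hκ] at hsmall
  rw [← hN, ← hκ]
  have hN0 : 0 ≤ N := by rw [hN]; positivity
  have hκ0 : 0 < κ := lt_of_le_of_lt (by positivity) hsmall
  have hNpos : 0 < N := by
    rcases hN0.eq_or_lt with h | h
    · rw [← h] at r4; nlinarith
    · exact h
  have hCN : C * N ^ 2 ≤ (C ⊔ 0) * N ^ 2 :=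
    mul_le_mul_of_nonneg_right (le_max_left _ _) (by positivity)
  have h5 : 7 / 12 * (2 * s) ≤ κ * N + 7 / 2 * κ + (C ⊔ 0) * N ^ 2 := by linarith
  have h6 : 21 / 2 * κ ^ 2 ≤ κ * N ^ 2 + 7 / 2 * κ * N + (C ⊔ 0) * N ^ 3 := by
    have h7 := mul_le_mul_of_nonneg_left h5 hNpos.le
    linarith
  have h8 : (C ⊔ 0) * N ^ 3 ≤ 21 / 2 * (C ⊔ 0) * N * κ := by
    have h9 := mul_le_mul_of_nonneg_left hsmall.le (by positivity : 0 ≤ 21 / 2 * (C ⊔ 0) * N)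
    linarith
  have h10 : 21 / 2 * κ * κ ≤ (N ^ 2 + 7 / 2 * N + 21 / 2 * (C ⊔ 0) * N) * κ := by linarith
  have h11 := le_of_mul_le_mul_right h10 hκ0
  have h12 : 0 ≤ (C ⊔ 0) * N := by positivity
  linarith

end Pool.Agent.Lib.MP_c82047_co97
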