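import Pool.Agent.Lib.MP_c82047_co97.Final
import Pool.Agent.Lib.MP_c82047_co97.ThetaCherry

/-!
# The exact-order theorems from inequalities for cherries
-/

namespace Pool.Agent.Lib.MP_c82047_co97

/-- The two-colour theorem from `c · #cherries ≤ ∑ (2 - w) + O(n²)`. -/
theorem ramsey_of_cherries {k : ℕ} {c C : ℝ} (hc : 0 < c)
    (main : ∀ (n : ℕ) (H : Finset (Finset (Fin n))), Lin H → KFree H k →
      c * ((cherries H).card : ℝ) ≤ ((∑ p ∈ cherries H, (2 - (wt H p.1 p.2 : ℤ)) : ℤ) : ℝ) +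
        C * (n : ℝ) ^ 2) :
    ∃ ε : ℝ, 0 < ε ∧ ∃ n₀ : ℕ, ∀ n : ℕ, n₀ ≤ n → ∀ T : Finset (Finset (Fin n)), Lin T →
      (1 / 6 - ε) * (n : ℝ) ^ 2 ≤ (T.card : ℝ) → ∀ A ⊆ T,
      ∃ S : Finset (Fin n), S.card = k ∧ (S.card ≤ e A S + 3 ∨ S.card ≤ e (T \ A) S + 3) := by
  refine ramsey_of_main (c := c / 2) (C := C) (by positivity) fun n H hH hk => ?_
  have h1 := main n H hH hk
  rw [← theta_cherries hH] at h1
  have h2 : cnt H ≤ 2 * (cherries H).card := by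
    rw [← sum_jj_cherries hH]
    unfold cnt
    refine Finset.sum_le_sum fun E _ => ?_
    rw [Finset.card_filter]
    refine Finset.sum_le_sum fun x _ => ?_
    split_ifs with h
    · exact h
    · exact Nat.zero_le _
  have h3 : (cnt H : ℝ) ≤ 2 * ((cherries H).card : ℝ) := by exact_mod_cast h2
  have h4 := mul_le_mul_of_nonneg_left h3 hc.le
  linarith

/-- The density theorem from the two inequalities for cherries and wheels. -/
theorem density_of_cherries {k : ℕ} {C : ℝ}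
    (main1 : ∀ (n : ℕ) (H : Finset (Finset (Fin n))), Lin H → KFree H k →
      2 * ((∑ p ∈ cherries H, wt H p.1 p.2 : ℕ) : ℝ) ≤
        3 * ((cherries H).card : ℝ) + 6 * (wheels H : ℝ) + C * (n : ℝ) ^ 2)
    (main2 : ∀ (n : ℕ) (H : Finset (Finset (Fin n))), Lin H → KFree H k →
      ((∑ p ∈ cherries H, wt H p.1 p.2 : ℕ) : ℝ) ≤
        2 * ((cherries H).card : ℝ) + C * (n : ℝ) ^ 2) :
    ∃ C' : ℝ, ∀ (n : ℕ) (H : Finset (Finset (Fin n))), Lin H → KFree H k →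
      (H.card : ℝ) ≤ 2 / 21 * (n : ℝ) ^ 2 + C' * (n : ℝ) := by
  refine density_of_main (k := k) (C := C ⊔ 0) fun n H hH hk => ?_
  have h1 := main1 n H hH hk
  have h2 := main2 n H hH hk
  have h3 := cnt_cherries hH
  have h4 : 2 * (cnt H : ℝ) + ((∑ p ∈ cherries H, wt H p.1 p.2 : ℕ) : ℝ) =
      4 * ((cherries H).card : ℝ) + 2 * (wheels H : ℝ) := by exact_mod_cast h3
  have h5 : ((∑ E ∈ H, ∑ x ∈ Eᶜ, (jj H E x : ℤ) : ℤ) : ℝ) = 2 * ((cherries H).card : ℝ) := by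
    have := sum_jj_cherries hH
    exact_mod_cast this
  rw [h5]
  have h6 : C * (n : ℝ) ^ 2 ≤ (C ⊔ 0) * (n : ℝ) ^ 2 :=
    mul_le_mul_of_nonneg_right (le_max_left _ _) (by positivity)
  have h7 : 0 ≤ (C ⊔ 0) * (n : ℝ) ^ 2 := mul_nonneg (le_max_right _ _) (by positivity)
  linarith

end Pool.Agent.Lib.MP_c82047_co97
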