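import Pool.Agent.Lib.MP_c82047_co97.Defs

/-!
# Hulls and cleaning
-/

namespace Pool.Agent.Lib.MP_c82047_co97

variable {V : Type*} [DecidableEq V]

theorem e_mono (H : Finset (Finset V)) {S T : Finset V} (h : S ⊆ T) : e H S ≤ e H T :=
  Finset.card_le_card fun E hE => by
    simp only [Finset.mem_filter] at hE ⊢
    exact ⟨hE.1, hE.2.trans h⟩

theorem e_mono_left {K H : Finset (Finset V)} (h : K ⊆ H) (S : Finset V) : e K S ≤ e H S :=
  Finset.card_le_card fun E hE => by
    simp only [Finset.mem_filter] at hE ⊢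
    exact ⟨h hE.1, hE.2⟩

theorem e_submod (H : Finset (Finset V)) (S T : Finset V) :
    e H S + e H T ≤ e H (S ∪ T) + e H (S ∩ T) := by
  unfold e
  rw [← Finset.card_union_add_card_inter]
  refine Nat.add_le_add (Finset.card_le_card ?_) (Finset.card_le_card ?_)
  · intro E hE
    simp only [Finset.mem_union, Finset.mem_filter] at hE ⊢
    rcases hE with ⟨h1, h2⟩ | ⟨h1, h2⟩
    · exact ⟨h1, h2.trans Finset.subset_union_left⟩
    · exact ⟨h1, h2.trans Finset.subset_union_right⟩
  · intro E hE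
    simp only [Finset.mem_inter, Finset.mem_filter] at hE ⊢
    exact ⟨hE.1.1, Finset.subset_inter hE.1.2 hE.2.2⟩

theorem e_pos {H : Finset (Finset V)} {E S : Finset V} (hE : E ∈ H) (h : E ⊆ S) : 1 ≤ e H S :=
  Finset.card_pos.2 ⟨E, by simp [hE, h]⟩

theorem card_union_add_inter (S T : Finset V) : (S ∪ T).card + (S ∩ T).card = S.card + T.card :=
  Finset.card_union_add_card_inter S T

/-- The union of two small dense sets whose intersection is not too dense is small. -/
theorem union_small {H : Finset (Finset V)} {k r : ℕ}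
    (hfree : ∀ S : Finset V, k ≤ S.card → S.card < 2 * k → e H S + 4 ≤ S.card) (hr : r ≤ 3)
    {M S : Finset V} (hM : M.card < k) (hS : S.card < k) (h : (M ∪ S).card ≤ e H (M ∪ S) + r) :
    (M ∪ S).card < k := by
  by_contra hk
  have h1 := Finset.card_union_le M S
  have := hfree (M ∪ S) (by omega) (by omega)
  omega

theorem hull {H : Finset (Finset V)} {k r : ℕ}
    (hfree : ∀ S : Finset V, k ≤ S.card → S.card < 2 * k → e H S + 4 ≤ S.card) (hr : r ≤ 3)
    {A : Finset V} (hA : A.card < k) (hAe : A.card ≤ e H A + r)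
    (hup : ∀ S : Finset V, A ⊆ S → S.card < k → e H S + r ≤ S.card) :
    ∃ M : Finset V, A ⊆ M ∧ M.card < k ∧ M.card = e H M + r ∧
      ∀ S : Finset V, A ⊆ S → S.card < k → S.card ≤ e H S + r → S ⊆ M := by
  set C : Set ℕ := {c | ∃ S : Finset V, A ⊆ S ∧ S.card < k ∧ S.card ≤ e H S + r ∧ S.card = c}
  have hne : C.Nonempty := ⟨A.card, A, subset_rfl, hA, hAe, rfl⟩
  have hbd : BddAbove C := ⟨k, by rintro c ⟨S, -, h, -, rfl⟩; exact h.le⟩
  obtain ⟨M, hAM, hMk, hMe, hMc⟩ := Nat.sSup_mem hne hbd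
  refine ⟨M, hAM, hMk, le_antisymm hMe (hup M hAM hMk), fun S hAS hSk hSe => ?_⟩
  have h1 := e_submod H M S
  have h2 := card_union_add_inter M S
  have h3 := hup (M ∩ S) (Finset.subset_inter hAM hAS)
    (lt_of_le_of_lt (Finset.card_le_card Finset.inter_subset_left) hMk)
  have hU : (M ∪ S).card ≤ e H (M ∪ S) + r := by omega
  have hUk := union_small hfree hr hMk hSk hU
  have hmem : (M ∪ S).card ∈ C :=
    ⟨M ∪ S, hAM.trans Finset.subset_union_left, hUk, hU, rfl⟩
  have hle := le_csSup hbd hmem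
  rw [← hMc] at hle
  have heq : M = M ∪ S := Finset.eq_of_subset_of_card_le Finset.subset_union_left hle
  rw [heq]
  exact Finset.subset_union_right

/-- Triples of a linear system through `v` inside `W`. -/
theorem two_mul_card_le {H : Finset (Finset V)} (hH : Lin H) (v : V) (W : Finset V) :
    2 * (H.filter (fun E => v ∈ E ∧ E ⊆ W)).card ≤ W.card := by
  have h1 : ((H.filter (fun E => v ∈ E ∧ E ⊆ W)).biUnion (fun E => E.erase v)).card
      = ∑ E ∈ H.filter (fun E => v ∈ E ∧ E ⊆ W), (E.erase v).card := by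
    refine Finset.card_biUnion ?_
    intro E hE F hF hEF
    rw [Finset.mem_coe, Finset.mem_filter] at hE hF
    rw [Function.onFun, Finset.disjoint_left]
    intro y hyE hyF
    have hyv : y ≠ v := Finset.ne_of_mem_erase hyE
    have hyE' := Finset.mem_of_mem_erase hyE
    have hyF' := Finset.mem_of_mem_erase hyF
    have := hH.2 E hE.1 F hF.1 hEF
    have h2 : 1 < (E ∩ F).card :=
      Finset.one_lt_card.2 ⟨y, Finset.mem_inter.2 ⟨hyE', hyF'⟩, v,
        Finset.mem_inter.2 ⟨hE.2.1, hF.2.1⟩, hyv⟩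
    omega
  have h2 : ∑ E ∈ H.filter (fun E => v ∈ E ∧ E ⊆ W), (E.erase v).card
      = ∑ _E ∈ H.filter (fun E => v ∈ E ∧ E ⊆ W), 2 := by
    refine Finset.sum_congr rfl fun E hE => ?_
    simp only [Finset.mem_filter] at hE
    rw [Finset.card_erase_of_mem hE.2.1, hH.1 E hE.1]
  rw [h2, Finset.sum_const, smul_eq_mul] at h1
  have h3 : ((H.filter (fun E => v ∈ E ∧ E ⊆ W)).biUnion (fun E => E.erase v)).card ≤ W.card := by
    refine Finset.card_le_card ?_
    intro y hy
    simp only [Finset.mem_biUnion, Finset.mem_filter] at hy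
    obtain ⟨E, hE, hy⟩ := hy
    exact hE.2.2 (Finset.mem_of_mem_erase hy)
  omega

theorem Lin.mono {K H : Finset (Finset V)} (hH : Lin H) (h : K ⊆ H) : Lin K :=
  ⟨fun E hE => hH.1 E (h hE), fun E hE F hF => hH.2 E (h hE) F (h hF)⟩

variable [Fintype V]

theorem deg_le {H : Finset (Finset V)} (hH : Lin H) (v : V) : 2 * deg H v ≤ Fintype.card V := by
  have := two_mul_card_le hH v Finset.univ
  simpa [deg] using this

theorem sum_deg {H : Finset (Finset V)} (hH : ∀ E ∈ H, E.card = 3) :
    ∑ v : V, deg H v = 3 * H.card := by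
  unfold deg
  simp_rw [Finset.card_filter]
  rw [Finset.sum_comm]
  have : ∀ E ∈ H, (∑ v : V, if v ∈ E then 1 else 0) = 3 := by
    intro E hE
    rw [← Finset.card_filter]
    simpa using hH E hE
  rw [Finset.sum_congr rfl this, Finset.sum_const, smul_eq_mul, mul_comm]

theorem card_le_sq {H : Finset (Finset V)} (hH : Lin H) : 6 * H.card ≤ Fintype.card V ^ 2 := by
  have h1 := sum_deg hH.1
  have h2 : ∑ v : V, 2 * deg H v ≤ ∑ _v : V, Fintype.card V :=
    Finset.sum_le_sum fun v _ => deg_le hH v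
  rw [← Finset.mul_sum, h1, Finset.sum_const, Finset.card_univ, smul_eq_mul] at h2
  nlinarith

/-- Cleaning: after deleting few triples, every small set `S` with at least two points contains at
most `|S| - 2` triples. -/
theorem cleaning {H : Finset (Finset V)} (hH : Lin H) {k : ℕ} (hk : 5 ≤ k)
    (hfree : ∀ S : Finset V, k ≤ S.card → S.card < 2 * k → e H S + 4 ≤ S.card) :
    ∃ K ⊆ H, (∀ S : Finset V, 2 ≤ S.card → S.card < k → e K S + 2 ≤ S.card) ∧
      (H \ K).card ≤ 2 * k * Fintype.card V := by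
  -- the set Z
  set C : Set ℕ := {c | ∃ S : Finset V, S.card < k ∧ S.card ≤ e H S ∧ S.card = c}
  have hne : C.Nonempty := ⟨0, ∅, by simp; omega, by simp, rfl⟩
  have hbd : BddAbove C := ⟨k, by rintro c ⟨S, h, -, rfl⟩; exact h.le⟩
  obtain ⟨Z, hZk, hZe, hZc⟩ := Nat.sSup_mem hne hbd
  set H₁ := H.filter (fun E => Disjoint E Z) with hH₁
  have hH₁H : H₁ ⊆ H := Finset.filter_subset _ _
  have c1 : ∀ S : Finset V, S.Nonempty → S.card < k → e H₁ S + 1 ≤ S.card := by
    intro S hS hSk
    by_contra hcon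
    have hcon' : S.card ≤ e H₁ S := by omega
    have h1 : e H₁ S ≤ e H₁ (S \ Z) := by
      refine Finset.card_le_card fun E hE => ?_
      simp only [Finset.mem_filter, hH₁] at hE ⊢
      refine ⟨hE.1, fun y hy => Finset.mem_sdiff.2 ⟨hE.2 hy, fun hz => ?_⟩⟩
      exact (Finset.disjoint_left.1 hE.1.2 hy) hz
    have h2 : e H Z + e H₁ (S \ Z) ≤ e H (Z ∪ S \ Z) := by
      unfold e
      rw [← Finset.card_union_of_disjoint]
      · refine Finset.card_le_card fun E hE => ?_
        simp only [Finset.mem_union, Finset.mem_filter] at hE ⊢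
        rcases hE with ⟨g1, g2⟩ | ⟨g1, g2⟩
        · exact ⟨g1, g2.trans Finset.subset_union_left⟩
        · exact ⟨hH₁H g1, g2.trans Finset.subset_union_right⟩
      · rw [Finset.disjoint_left]
        intro E hE hE'
        simp only [Finset.mem_filter, hH₁] at hE hE'
        have h3 := hH.1 E hE.1
        obtain ⟨y, hy⟩ := Finset.card_pos.1 (by omega : 0 < E.card)
        exact (Finset.disjoint_left.1 hE'.1.2 hy) (hE.2 hy)
    have h3 : (Z ∪ S \ Z).card = Z.card + (S \ Z).card :=
      Finset.card_union_of_disjoint Finset.disjoint_sdiff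
    have h4 : (S \ Z).card ≤ S.card := Finset.card_le_card Finset.sdiff_subset
    have h5 : (Z ∪ S \ Z).card ≤ e H (Z ∪ S \ Z) := by omega
    have h6 : (Z ∪ S \ Z).card < k :=
      union_small (r := 0) hfree (by norm_num) hZk (by omega) (by omega)
    have h7 := le_csSup hbd (⟨Z ∪ S \ Z, h6, h5, rfl⟩ : (Z ∪ S \ Z).card ∈ C)
    rw [← hZc, h3] at h7
    have h8 : (S \ Z).card = 0 := by omega
    have h9 : e H₁ (S \ Z) = 0 := by
      rw [Finset.card_eq_zero] at h8
      rw [h8]
      unfold e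
      rw [Finset.card_eq_zero, Finset.filter_eq_empty_iff]
      intro E hE hE0
      have h3 := hH.1 E (hH₁H hE)
      rw [Finset.subset_empty.1 hE0] at h3
      simp at h3
    have := Finset.card_pos.2 hS
    omega
  have hfree₁ : ∀ S : Finset V, k ≤ S.card → S.card < 2 * k → e H₁ S + 4 ≤ S.card :=
    fun S h h' => le_trans (Nat.add_le_add_right (e_mono_left hH₁H S) 4) (hfree S h h')
  have hW : ∀ v : V, ∃ M : Finset V, {v} ⊆ M ∧ M.card < k ∧ M.card = e H₁ M + 1 ∧
      ∀ S : Finset V, {v} ⊆ S → S.card < k → S.card ≤ e H₁ S + 1 → S ⊆ M := by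
    intro v
    refine hull hfree₁ (by norm_num) (by simp; omega) (by simp) ?_
    intro S hS hSk
    exact c1 S ⟨v, hS (Finset.mem_singleton_self v)⟩ hSk
  choose W hvW hWk hWe hWmax using hW
  classical
  set K := H₁.filter (fun E => ∀ S : Finset V, E ⊆ S → S.card < k → e H₁ S + 2 ≤ S.card) with hK
  have hKH₁ : K ⊆ H₁ := Finset.filter_subset _ _
  refine ⟨K, hKH₁.trans hH₁H, ?_, ?_⟩
  · intro S hS2 hSk
    by_cases h0 : e K S = 0
    · omega
    · obtain ⟨E, hE⟩ := Finset.card_pos.1 (Nat.pos_of_ne_zero h0)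
      simp only [Finset.mem_filter, hK] at hE
      have h1 := hE.1.2 S hE.2 hSk
      have h2 := e_mono_left hKH₁ S
      omega
  · -- counting
    have hsub : H \ K ⊆ (Z.biUnion fun z => H.filter (fun E => z ∈ E ∧ E ⊆ Finset.univ)) ∪
        (Finset.univ.biUnion fun v => H.filter (fun E => v ∈ E ∧ E ⊆ W v)) := by
      intro E hE
      simp only [Finset.mem_sdiff] at hE
      by_cases hE1 : E ∈ H₁
      · refine Finset.mem_union_right _ ?_
        have hnot : ¬ ∀ S : Finset V, E ⊆ S → S.card < k → e H₁ S + 2 ≤ S.card :=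
          fun h => hE.2 (Finset.mem_filter.2 ⟨hE1, h⟩)
        push Not at hnot
        obtain ⟨S, hES, hSk, hSe⟩ := hnot
        have h3 := hH.1 E hE.1
        obtain ⟨v, hv⟩ := Finset.card_pos.1 (by omega : 0 < E.card)
        refine Finset.mem_biUnion.2 ⟨v, Finset.mem_univ v, Finset.mem_filter.2 ⟨hE.1, hv, ?_⟩⟩
        exact hES.trans (hWmax v S (Finset.singleton_subset_iff.2 (hES hv)) hSk (by omega))
      · refine Finset.mem_union_left _ ?_
        have : ¬ Disjoint E Z := fun h => hE1 (Finset.mem_filter.2 ⟨hE.1, h⟩)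
        rw [Finset.not_disjoint_iff] at this
        obtain ⟨z, hz, hzZ⟩ := this
        exact Finset.mem_biUnion.2 ⟨z, hzZ, Finset.mem_filter.2 ⟨hE.1, hz, Finset.subset_univ _⟩⟩
    have h1 := Finset.card_le_card hsub
    have h2 := Finset.card_union_le (Z.biUnion fun z => H.filter (fun E => z ∈ E ∧ E ⊆ Finset.univ))
        (Finset.univ.biUnion fun v => H.filter (fun E => v ∈ E ∧ E ⊆ W v))
    have h3 : (Z.biUnion fun z => H.filter (fun E => z ∈ E ∧ E ⊆ Finset.univ)).card
        ≤ Z.card * Fintype.card V := by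
      refine Finset.card_biUnion_le_card_mul _ _ _ fun z _ => ?_
      have := two_mul_card_le hH z Finset.univ
      rw [Finset.card_univ] at this
      omega
    have h4 : (Finset.univ.biUnion fun v => H.filter (fun E => v ∈ E ∧ E ⊆ W v)).card
        ≤ (Finset.univ : Finset V).card * k := by
      refine Finset.card_biUnion_le_card_mul _ _ _ fun v _ => ?_
      have := two_mul_card_le hH v (W v)
      have := hWk v
      omega
    rw [Finset.card_univ] at h4
    have h5 : Z.card * Fintype.card V ≤ k * Fintype.card V := Nat.mul_le_mul_right _ hZk.le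
    nlinarith

end Pool.Agent.Lib.MP_c82047_co97
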