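import Pool.Agent.Lib.MP_c82047_co97.Defs

/-!
# The plane inequality

`plane_ineq`: in a plane `P` (a dense set closed under third points, with its blocks) the sum of
`f (jj K E x)` over the pairs `(E, x)`, `E ⊆ P`, `x ∈ P \ blk E`, is at least `1`.
-/

namespace Pool.Agent.Lib.MP_c82047_co97

namespace Plane

variable {V : Type*} [DecidableEq V]

theorem adj_symm {K : Finset (Finset V)} {x y : V} (h : Adj K x y) : Adj K y x :=
  ⟨h.1.symm, by obtain ⟨E, hE, h1, h2⟩ := h.2; exact ⟨E, hE, h2, h1⟩⟩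

theorem eq_of_two {K : Finset (Finset V)} (hK : Lin K) {E F : Finset V} (hE : E ∈ K) (hF : F ∈ K)
    {x y : V} (hxy : x ≠ y) (h1 : x ∈ E) (h2 : y ∈ E) (h3 : x ∈ F) (h4 : y ∈ F) : E = F := by
  by_contra hne
  have := hK.2 E hE F hF hne
  have h5 : ({x, y} : Finset V) ⊆ E ∩ F := by
    intro z hz
    simp only [Finset.mem_insert, Finset.mem_singleton] at hz
    rcases hz with rfl | rfl
    · exact Finset.mem_inter.2 ⟨h1, h3⟩
    · exact Finset.mem_inter.2 ⟨h2, h4⟩
  have h6 := Finset.card_le_card h5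
  rw [Finset.card_pair hxy] at h6
  omega

/-- At most one triple of a linear system contains two given points. -/
theorem card_pair_le {K : Finset (Finset V)} (hK : Lin K) {x y : V} (hxy : x ≠ y) :
    (K.filter (fun F => x ∈ F ∧ y ∈ F)).card ≤ 1 := by
  refine Finset.card_le_one.2 fun E hE F hF => ?_
  simp only [Finset.mem_filter] at hE hF
  exact eq_of_two hK hE.1 hF.1 hxy hE.2.1 hE.2.2 hF.2.1 hF.2.2

theorem jj_eq {K : Finset (Finset V)} (hK : Lin K) {E : Finset V} (hE : E ∈ K) {x : V}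
    (hx : x ∉ E) : jj K E x = (K.filter (fun F => x ∈ F ∧ (F ∩ E).Nonempty)).card := by
  have h1 : jj K E x = ∑ a ∈ E, (K.filter (fun F => x ∈ F ∧ a ∈ F)).card := by
    unfold jj
    rw [Finset.card_filter]
    refine Finset.sum_congr rfl fun a ha => ?_
    have hxa : x ≠ a := fun h => hx (h ▸ ha)
    have hle := card_pair_le hK hxa
    by_cases hadj : Adj K x a
    · rw [if_pos hadj]
      obtain ⟨F, hF, h1, h2⟩ := hadj.2
      have : 0 < (K.filter (fun F => x ∈ F ∧ a ∈ F)).card :=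
        Finset.card_pos.2 ⟨F, by simp [hF, h1, h2]⟩
      omega
    · rw [if_neg hadj]
      symm
      rw [Finset.card_eq_zero, Finset.filter_eq_empty_iff]
      rintro F hF ⟨h1, h2⟩
      exact hadj ⟨hxa, F, hF, h1, h2⟩
  rw [h1]
  simp_rw [Finset.card_filter]
  rw [Finset.sum_comm]
  refine Finset.sum_congr rfl fun F hF => ?_
  by_cases hxF : x ∈ F
  · have hne : F ≠ E := fun h => hx (h ▸ hxF)
    have hc := hK.2 F hF E hE hne
    have h2 : ∑ a ∈ E, (if x ∈ F ∧ a ∈ F then 1 else 0) = (F ∩ E).card := by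
      rw [← Finset.card_filter]
      congr 1
      ext a
      simp only [Finset.mem_filter, Finset.mem_inter, hxF, true_and]
      tauto
    rw [h2]
    by_cases hn : (F ∩ E).Nonempty
    · rw [if_pos ⟨hxF, hn⟩]
      have := Finset.card_pos.2 hn
      omega
    · rw [if_neg (fun h => hn h.2)]
      rw [Finset.not_nonempty_iff_eq_empty] at hn
      simp [hn]
  · rw [if_neg (fun h => hxF h.1)]
    exact Finset.sum_eq_zero fun a _ => by simp [hxF]

theorem jj_le {K : Finset (Finset V)} (hK : Lin K) {E : Finset V} (hE : E ∈ K) (x : V) :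
    jj K E x ≤ 3 := by
  have := hK.1 E hE
  unfold jj
  exact (Finset.card_filter_le _ _).trans this.le

theorem jj_pos {K : Finset (Finset V)} {E : Finset V} {x a : V} (ha : a ∈ E) (h : Adj K x a) :
    1 ≤ jj K E x := Finset.card_pos.2 ⟨a, by simp [ha, h]⟩

theorem jj_eq_three {K : Finset (Finset V)} (hK : Lin K) {E : Finset V} (hE : E ∈ K) (x : V) :
    jj K E x = 3 ↔ ∀ a ∈ E, Adj K x a := by
  have h3 := hK.1 E hE
  unfold jj
  rw [← h3]
  constructor
  · intro h a ha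
    have := Finset.eq_of_subset_of_card_le (Finset.filter_subset (fun a => Adj K x a) E) h.ge
    rw [← this] at ha
    exact (Finset.mem_filter.1 ha).2
  · intro h
    rw [Finset.filter_true_of_mem h]

theorem f_eq {j : ℕ} (h : j ≤ 3) :
    f j = 2 * (if 1 ≤ j then 1 else 0) - 2 * (if j = 3 then 1 else 0) - (j : ℤ) := by
  unfold f
  interval_cases j <;> norm_num

end Plane

open Plane

variable {V : Type*} [DecidableEq V]

section

variable {K : Finset (Finset V)} (hK : Lin K) (P : Finset V) (blk : Finset V → Finset V)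
    (hb0 : ∀ E ∈ K, E ⊆ P → E ⊆ blk E ∧ blk E ⊆ P)
    (hb1 : ∀ E ∈ K, E ⊆ P → (blk E).card = e K (blk E) + 2)
    (hb2 : ∀ E ∈ K, ∀ F ∈ K, E ⊆ P → F ⊆ P → 2 ≤ (blk E ∩ blk F).card → blk E = blk F)
    (hg3 : ∀ E ∈ K, ∀ x ∈ P, E ⊆ P → x ∉ blk E → ∀ S : Finset V, E ⊆ S → x ∈ S → S ⊆ P →
      e K S + 3 ≤ S.card)
    (hcl : ∀ F ∈ K, 2 ≤ (F ∩ P).card → F ⊆ P)

/-- Triples inside `P`. -/
def KP (K : Finset (Finset V)) (P : Finset V) : Finset (Finset V) := K.filter (fun E => E ⊆ P)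

/-- Points seeing `E`. -/
def VE (K : Finset (Finset V)) (P : Finset V) (blk : Finset V → Finset V) (E : Finset V) :
    Finset V := (P \ blk E).filter (fun x => 1 ≤ jj K E x)

/-- Triples meeting `E`, in another block. -/
def SE (K : Finset (Finset V)) (P : Finset V) (blk : Finset V → Finset V) (E : Finset V) :
    Finset (Finset V) := (KP K P).filter (fun F => (F ∩ E).Nonempty ∧ blk F ≠ blk E)

/-- Triples all of whose points are adjacent to `v`. -/
def HH (K : Finset (Finset V)) (P : Finset V) (blk : Finset V → Finset V) (v : V) :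
    Finset (Finset V) := (KP K P).filter (fun G => v ∉ blk G ∧ ∀ y ∈ G, Adj K v y)

/-- Triples through `v` inside `P`. -/
def DD (K : Finset (Finset V)) (P : Finset V) (v : V) : Finset (Finset V) :=
  (KP K P).filter (fun E => v ∈ E)

/-- `kap E = |V_E| - e_E`. -/
def kap (K : Finset (Finset V)) (P : Finset V) (blk : Finset V → Finset V) (E : Finset V) : ℤ :=
  ((VE K P blk E).card : ℤ) - ((SE K P blk E).card : ℤ)

include hcl in
theorem third_mem {F : Finset V} (hF : F ∈ K) {a x : V} (hax : a ≠ x) (ha : a ∈ F) (hx : x ∈ F)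
    (haP : a ∈ P) (hxP : x ∈ P) : F ⊆ P := by
  refine hcl F hF ?_
  have h : ({a, x} : Finset V) ⊆ F ∩ P := by
    intro z hz
    simp only [Finset.mem_insert, Finset.mem_singleton] at hz
    rcases hz with rfl | rfl
    · exact Finset.mem_inter.2 ⟨ha, haP⟩
    · exact Finset.mem_inter.2 ⟨hx, hxP⟩
  have := Finset.card_le_card h
  rwa [Finset.card_pair hax] at this

include hb0 hb2 in
theorem inter_le_one {E F : Finset V} (hE : E ∈ K) (hF : F ∈ K) (hEP : E ⊆ P) (hFP : F ⊆ P)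
    (hne : blk F ≠ blk E) : (F ∩ blk E).card ≤ 1 := by
  by_contra h
  push Not at h
  refine hne (hb2 F hF E hE hFP hEP (le_trans h (Finset.card_le_card ?_)))
  exact Finset.inter_subset_inter_right (hb0 F hF hFP).1

include hK hb0 hb2 hcl in
/-- (0) -/
theorem sum_jj {E : Finset V} (hE : E ∈ K) (hEP : E ⊆ P) :
    ∑ x ∈ P \ blk E, jj K E x = 2 * (SE K P blk E).card := by
  have h1 : ∀ x ∈ P \ blk E, jj K E x = ((SE K P blk E).filter (fun F => x ∈ F)).card := by
    intro x hx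
    rw [Finset.mem_sdiff] at hx
    have hxE : x ∉ E := fun h => hx.2 ((hb0 E hE hEP).1 h)
    rw [jj_eq hK hE hxE]
    congr 1
    ext F
    simp only [SE, KP, Finset.mem_filter]
    constructor
    · rintro ⟨hF, hxF, a, ha⟩
      rw [Finset.mem_inter] at ha
      have hax : a ≠ x := fun h => hxE (h ▸ ha.2)
      have hFP : F ⊆ P := third_mem P hcl hF hax ha.1 hxF (hEP ha.2) hx.1
      refine ⟨⟨⟨hF, hFP⟩, ⟨a, Finset.mem_inter.2 ha⟩, fun h => hx.2 ?_⟩, hxF⟩
      rw [← h]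
      exact (hb0 F hF hFP).1 hxF
    · rintro ⟨⟨⟨hF, -⟩, hn, -⟩, hxF⟩
      exact ⟨hF, hxF, hn⟩
  rw [Finset.sum_congr rfl h1]
  simp_rw [Finset.card_filter]
  rw [Finset.sum_comm, Finset.card_eq_sum_ones, Finset.mul_sum]
  refine Finset.sum_congr rfl fun F hF => ?_
  simp only [SE, KP, Finset.mem_filter] at hF
  obtain ⟨⟨hFK, hFP⟩, ⟨a, ha⟩, hne⟩ := hF
  rw [Finset.mem_inter] at ha
  have h2 : (F ∩ blk E).card ≤ 1 := inter_le_one P blk hb0 hb2 hE hFK hEP hFP hne
  have h3 : 0 < (F ∩ blk E).card :=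
    Finset.card_pos.2 ⟨a, Finset.mem_inter.2 ⟨ha.1, (hb0 E hE hEP).1 ha.2⟩⟩
  have h4 : (∑ x ∈ P \ blk E, if x ∈ F then 1 else 0) = (F \ blk E).card := by
    rw [← Finset.card_filter]
    congr 1
    ext x
    simp only [Finset.mem_filter, Finset.mem_sdiff]
    constructor
    · rintro ⟨⟨-, h⟩, h'⟩
      exact ⟨h', h⟩
    · rintro ⟨h, h'⟩
      exact ⟨⟨hFP h, h'⟩, h⟩
  rw [h4]
  have h5 := Finset.card_sdiff_add_card_inter F (blk E)
  have h6 := hK.1 F hFK
  omega

include hK hb0 hb2 in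
theorem blk_eq_of_subset {E F : Finset V} (hE : E ∈ K) (hF : F ∈ K) (hEP : E ⊆ P) (hFP : F ⊆ P)
    (h : F ⊆ blk E) : blk F = blk E := by
  refine hb2 F hF E hE hFP hEP ?_
  have h1 := Finset.card_le_card (Finset.subset_inter (hb0 F hF hFP).1 h)
  have h2 := hK.1 F hF
  omega

include hK hb0 hb1 hb2 hg3 in
/-- (L1) -/
theorem L1 {E : Finset V} (hE : E ∈ K) (hEP : E ⊆ P) (hne : (VE K P blk E).Nonempty) {v : V}
    (hv : v ∈ E) :
    1 + (((HH K P blk v).filter (fun G => ¬ (G ∩ E).Nonempty)).card : ℤ) ≤ kap K P blk E := by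
  obtain ⟨x, hx⟩ := hne
  have hx' := hx
  simp only [VE, Finset.mem_filter, Finset.mem_sdiff] at hx'
  set S := blk E ∪ VE K P blk E with hS
  have hVP : VE K P blk E ⊆ P := fun y hy => by
    simp only [VE, Finset.mem_filter, Finset.mem_sdiff] at hy
    exact hy.1.1
  have hSP : S ⊆ P := Finset.union_subset (hb0 E hE hEP).2 hVP
  have h1 := hg3 E hE x hx'.1.1 hEP hx'.1.2 S
    ((hb0 E hE hEP).1.trans Finset.subset_union_left) (Finset.mem_union_right _ hx) hSP
  have hdisj : Disjoint (blk E) (VE K P blk E) := by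
    rw [Finset.disjoint_left]
    intro y hy hy'
    simp only [VE, Finset.mem_filter, Finset.mem_sdiff] at hy'
    exact hy'.1.2 hy
  have h2 : S.card = (blk E).card + (VE K P blk E).card := Finset.card_union_of_disjoint hdisj
  have hmemS : ∀ y ∈ P, ∀ a ∈ E, Adj K y a → y ∈ S := by
    intro y hy a ha hadj
    by_cases hyb : y ∈ blk E
    · exact Finset.mem_union_left _ hyb
    · refine Finset.mem_union_right _ ?_
      simp only [VE, Finset.mem_filter, Finset.mem_sdiff]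
      exact ⟨⟨hy, hyb⟩, jj_pos ha hadj⟩
  set A := K.filter (fun F => F ⊆ blk E) with hA
  set B := SE K P blk E with hB
  set C := (HH K P blk v).filter (fun G => ¬ (G ∩ E).Nonempty) with hC
  have hAB : Disjoint A (B ∪ C) := by
    rw [Finset.disjoint_left]
    intro F hF hF'
    simp only [hA, Finset.mem_filter] at hF
    have hFP : F ⊆ P := hF.2.trans (hb0 E hE hEP).2
    have hEq := blk_eq_of_subset hK P blk hb0 hb2 hE hF.1 hEP hFP hF.2
    rw [Finset.mem_union] at hF'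
    rcases hF' with hF' | hF'
    · simp only [hB, SE, Finset.mem_filter] at hF'
      exact hF'.2.2 hEq
    · simp only [hC, HH, Finset.mem_filter] at hF'
      exact hF'.1.2.1 (hEq ▸ (hb0 E hE hEP).1 hv)
  have hBC : Disjoint B C := by
    rw [Finset.disjoint_left]
    intro F hF hF'
    simp only [hB, SE, Finset.mem_filter] at hF
    simp only [hC, Finset.mem_filter] at hF'
    exact hF'.2 hF.2.1
  have hsub : A ∪ (B ∪ C) ⊆ K.filter (fun F => F ⊆ S) := by
    intro F hF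
    rw [Finset.mem_union, Finset.mem_union] at hF
    rw [Finset.mem_filter]
    rcases hF with hF | hF | hF
    · simp only [hA, Finset.mem_filter] at hF
      exact ⟨hF.1, hF.2.trans Finset.subset_union_left⟩
    · simp only [hB, SE, KP, Finset.mem_filter] at hF
      obtain ⟨⟨hFK, hFP⟩, ⟨a, ha⟩, -⟩ := hF
      rw [Finset.mem_inter] at ha
      refine ⟨hFK, fun y hy => ?_⟩
      by_cases hya : y = a
      · rw [hya]
        exact Finset.mem_union_left _ ((hb0 E hE hEP).1 ha.2)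
      · exact hmemS y (hFP hy) a ha.2 ⟨hya, F, hFK, hy, ha.1⟩
    · simp only [hC, HH, KP, Finset.mem_filter] at hF
      obtain ⟨⟨⟨hFK, hFP⟩, -, hadj⟩, -⟩ := hF
      exact ⟨hFK, fun y hy => hmemS y (hFP hy) v hv (adj_symm (hadj y hy))⟩
  have h3 := Finset.card_le_card hsub
  rw [Finset.card_union_of_disjoint hAB, Finset.card_union_of_disjoint hBC] at h3
  have h4 := hb1 E hE hEP
  have h5 : e K (blk E) = A.card := rfl
  have h6 : e K S = (K.filter (fun F => F ⊆ S)).card := rfl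
  unfold kap
  rw [← hB]
  push_cast
  omega

include hK hb0 hb2 hcl in
theorem kap_of_empty {E : Finset V} (hE : E ∈ K) (hEP : E ⊆ P)
    (hne : ¬ (VE K P blk E).Nonempty) : kap K P blk E = 0 := by
  rw [Finset.not_nonempty_iff_eq_empty] at hne
  have h1 := sum_jj hK P blk hb0 hb2 hcl hE hEP
  have h2 : ∑ x ∈ P \ blk E, jj K E x = 0 := by
    refine Finset.sum_eq_zero fun x hx => ?_
    by_contra h
    have : x ∈ VE K P blk E := by
      simp only [VE, Finset.mem_filter]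
      exact ⟨hx, Nat.one_le_iff_ne_zero.2 h⟩
    rw [hne] at this
    simp at this
  have h3 : (SE K P blk E).card = 0 := by omega
  unfold kap
  rw [hne, h3]
  simp

include hK hb0 hb1 hb2 hg3 hcl in
theorem kap_nonneg {E : Finset V} (hE : E ∈ K) (hEP : E ⊆ P) : 0 ≤ kap K P blk E := by
  by_cases hne : (VE K P blk E).Nonempty
  · obtain ⟨v, hv⟩ : E.Nonempty := by
      rw [← Finset.card_pos, hK.1 E hE]; norm_num
    have := L1 hK P blk hb0 hb1 hb2 hg3 hE hEP hne hv
    have h2 : (0 : ℤ) ≤ (((HH K P blk v).filter (fun G => ¬ (G ∩ E).Nonempty)).card : ℤ) := by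
      positivity
    linarith
  · rw [kap_of_empty hK P blk hb0 hb2 hcl hE hEP hne]

include hK hb0 hb2 in
theorem VE_nonempty_of_two {E F : Finset V} (hE : E ∈ K) (hF : F ∈ K) (hEP : E ⊆ P) (hFP : F ⊆ P)
    {v : V} (hvE : v ∈ E) (hvF : v ∈ F) (hne : blk F ≠ blk E) : (VE K P blk E).Nonempty := by
  obtain ⟨y, hy, hyb⟩ : ∃ y ∈ F, y ∉ blk E := by
    by_contra h
    push Not at h
    exact hne (blk_eq_of_subset hK P blk hb0 hb2 hE hF hEP hFP h)
  refine ⟨y, ?_⟩
  simp only [VE, Finset.mem_filter, Finset.mem_sdiff]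
  refine ⟨⟨hFP hy, hyb⟩, jj_pos hvE ⟨fun h => hyb (h ▸ (hb0 E hE hEP).1 hvE), F, hF, hy, hvF⟩⟩

include hK hb0 hb2 hg3 hcl in
/-- (L2), first half. -/
theorem L2 {E F : Finset V} (hE : E ∈ K) (hF : F ∈ K) (hEP : E ⊆ P) (hFP : F ⊆ P)
    {v : V} (hvE : v ∈ E) (hvF : v ∈ F) (hne : blk F ≠ blk E) :
    (HH K P blk v).card + 2 ≤ (DD K P v).card := by
  obtain ⟨y, hy, hyb⟩ : ∃ y ∈ F, y ∉ blk E := by
    by_contra h
    push Not at h
    exact hne (blk_eq_of_subset hK P blk hb0 hb2 hE hF hEP hFP h)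
  set S : Finset V := insert v ((DD K P v).biUnion (fun G => G.erase v)) with hS
  have hmem : ∀ G ∈ DD K P v, G ⊆ S := by
    intro G hG z hz
    by_cases hzv : z = v
    · rw [hzv]; exact Finset.mem_insert_self _ _
    · exact Finset.mem_insert_of_mem (Finset.mem_biUnion.2 ⟨G, hG, Finset.mem_erase.2 ⟨hzv, hz⟩⟩)
  have hED : E ∈ DD K P v := by simp [DD, KP, hE, hEP, hvE]
  have hFD : F ∈ DD K P v := by simp [DD, KP, hF, hFP, hvF]
  have hSP : S ⊆ P := by
    intro z hz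
    rw [hS, Finset.mem_insert, Finset.mem_biUnion] at hz
    rcases hz with rfl | ⟨G, hG, hz⟩
    · exact hEP hvE
    · simp only [DD, KP, Finset.mem_filter] at hG
      exact hG.1.2 (Finset.mem_of_mem_erase hz)
  have h1 := hg3 E hE y (hFP hy) hEP hyb S (hmem E hED) (hmem F hFD hy) hSP
  have h2 : S.card ≤ 1 + 2 * (DD K P v).card := by
    have h3 : ((DD K P v).biUnion (fun G => G.erase v)).card ≤ (DD K P v).card * 2 := by
      refine Finset.card_biUnion_le_card_mul _ _ _ fun G hG => ?_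
      simp only [DD, KP, Finset.mem_filter] at hG
      rw [Finset.card_erase_of_mem hG.2, hK.1 G hG.1.1]
    have h4 : S.card ≤ ((DD K P v).biUnion (fun G => G.erase v)).card + 1 :=
      Finset.card_insert_le _ _
    omega
  have h3 : (DD K P v) ∪ (HH K P blk v) ⊆ K.filter (fun G => G ⊆ S) := by
    intro G hG
    rw [Finset.mem_union] at hG
    rw [Finset.mem_filter]
    rcases hG with hG | hG
    · refine ⟨?_, hmem G hG⟩
      simp only [DD, KP, Finset.mem_filter] at hG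
      exact hG.1.1
    · simp only [HH, KP, Finset.mem_filter] at hG
      obtain ⟨⟨hGK, hGP⟩, -, hadj⟩ := hG
      refine ⟨hGK, fun z hz => ?_⟩
      obtain ⟨hvz, T, hT, hvT, hzT⟩ := hadj z hz
      have hTP : T ⊆ P := third_mem P hcl hT hvz hvT hzT (hEP hvE) (hGP hz)
      exact hmem T (by simp [DD, KP, hT, hTP, hvT]) hzT
  have h4 : Disjoint (DD K P v) (HH K P blk v) := by
    rw [Finset.disjoint_left]
    intro G hG hG'
    simp only [DD, KP, Finset.mem_filter] at hG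
    simp only [HH, KP, Finset.mem_filter] at hG'
    exact hG'.2.1 ((hb0 G hG.1.1 hG.1.2).1 hG.2)
  have h5 := Finset.card_le_card h3
  rw [Finset.card_union_of_disjoint h4] at h5
  have h6 : e K S = (K.filter (fun G => G ⊆ S)).card := rfl
  omega

include hK hb0 hb2 hcl in
/-- (L2), second half. -/
theorem L2' {v : V} (hvP : v ∈ P)
    (h : ∀ E ∈ DD K P v, ∀ F ∈ DD K P v, blk F = blk E) : (HH K P blk v).card = 0 := by
  rw [Finset.card_eq_zero, Finset.eq_empty_iff_forall_notMem]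
  intro G hG
  simp only [HH, KP, Finset.mem_filter] at hG
  obtain ⟨⟨hGK, hGP⟩, hvG, hadj⟩ := hG
  have hT : ∀ z ∈ G, ∃ T ∈ DD K P v, z ∈ T := by
    intro z hz
    obtain ⟨hvz, T, hT, hvT, hzT⟩ := hadj z hz
    have hTP : T ⊆ P := third_mem P hcl hT hvz hvT hzT hvP (hGP hz)
    exact ⟨T, by simp [DD, KP, hT, hTP, hvT], hzT⟩
  obtain ⟨z, hz⟩ : G.Nonempty := by
    rw [← Finset.card_pos, hK.1 G hGK]; norm_num
  obtain ⟨T, hTD, hzT⟩ := hT z hz
  have hTD' := hTD
  simp only [DD, KP, Finset.mem_filter] at hTD'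
  have hsub : G ⊆ blk T := by
    intro y hy
    obtain ⟨T', hT', hyT'⟩ := hT y hy
    rw [← h T hTD T' hT']
    simp only [DD, KP, Finset.mem_filter] at hT'
    exact (hb0 T' hT'.1.1 hT'.1.2).1 hyT'
  have := blk_eq_of_subset hK P blk hb0 hb2 hTD'.1.1 hGK hTD'.1.2 hGP hsub
  rw [this] at hvG
  exact hvG ((hb0 T hTD'.1.1 hTD'.1.2).1 hTD'.2)

include hK hb0 in
/-- (L3) -/
theorem L3 {v : V} {G : Finset V} (hG : G ∈ HH K P blk v) :
    ((DD K P v).filter (fun E => (G ∩ E).Nonempty)).card ≤ 3 := by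
  simp only [HH, KP, Finset.mem_filter] at hG
  obtain ⟨⟨hGK, hGP⟩, hvG, hadj⟩ := hG
  have hvG' : v ∉ G := fun h => hvG ((hb0 G hGK hGP).1 h)
  have h1 : (DD K P v).filter (fun E => (G ∩ E).Nonempty) ⊆
      G.biUnion (fun y => K.filter (fun F => v ∈ F ∧ y ∈ F)) := by
    intro E hE
    simp only [DD, KP, Finset.mem_filter] at hE
    obtain ⟨⟨⟨hEK, -⟩, hvE⟩, y, hy⟩ := hE
    rw [Finset.mem_inter] at hy
    rw [Finset.mem_biUnion]
    exact ⟨y, hy.1, by simp [hEK, hvE, hy.2]⟩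
  refine (Finset.card_le_card h1).trans ?_
  have h2 : (G.biUnion (fun y => K.filter (fun F => v ∈ F ∧ y ∈ F))).card ≤ G.card * 1 := by
    refine Finset.card_biUnion_le_card_mul _ _ _ fun y hy => ?_
    exact card_pair_le hK (fun h => hvG' (h ▸ hy))
  rw [hK.1 G hGK] at h2
  omega

/-- `t_v`. -/
def tt (K : Finset (Finset V)) (P : Finset V) (blk : Finset V → Finset V) (v : V) : ℤ :=
  ∑ E ∈ DD K P v, kap K P blk E - 3 * ((HH K P blk v).card : ℤ)

include hK hb0 hb1 hb2 hg3 hcl in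
theorem tt_two {E F : Finset V} (hE : E ∈ K) (hF : F ∈ K) (hEP : E ⊆ P) (hFP : F ⊆ P)
    {v : V} (hvE : v ∈ E) (hvF : v ∈ F) (hne : blk F ≠ blk E) :
    0 ≤ tt K P blk v ∧ (tt K P blk v = 0 → 3 ≤ (DD K P v).card) := by
  have hV : ∀ T ∈ DD K P v, (VE K P blk T).Nonempty := by
    intro T hT
    simp only [DD, KP, Finset.mem_filter] at hT
    by_cases h : blk E = blk T
    · exact VE_nonempty_of_two hK P blk hb0 hb2 hT.1.1 hF hT.1.2 hFP hT.2 hvF (h ▸ hne)
    · exact VE_nonempty_of_two hK P blk hb0 hb2 hT.1.1 hE hT.1.2 hEP hT.2 hvE h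
  have h1 : ∀ T ∈ DD K P v,
      1 + (((HH K P blk v).filter (fun G => ¬ (G ∩ T).Nonempty)).card : ℤ) ≤ kap K P blk T := by
    intro T hT
    have hT' := hT
    simp only [DD, KP, Finset.mem_filter] at hT'
    exact L1 hK P blk hb0 hb1 hb2 hg3 hT'.1.1 hT'.1.2 (hV T hT) hT'.2
  have h2 := Finset.sum_le_sum h1
  rw [Finset.sum_add_distrib] at h2
  have h3 : ∑ T ∈ DD K P v, (((HH K P blk v).filter (fun G => ¬ (G ∩ T).Nonempty)).card : ℤ)
      = ∑ G ∈ HH K P blk v, (((DD K P v).filter (fun T => ¬ (G ∩ T).Nonempty)).card : ℤ) := by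
    simp_rw [Finset.card_filter]
    push_cast
    exact Finset.sum_comm
  have h4 : ∀ G ∈ HH K P blk v, ((DD K P v).card : ℤ) - 3 ≤
      (((DD K P v).filter (fun T => ¬ (G ∩ T).Nonempty)).card : ℤ) := by
    intro G hG
    have h5 := L3 hK P blk hb0 hG
    have h6 := Finset.card_filter_add_card_filter_not (s := DD K P v)
      (fun T => (G ∩ T).Nonempty)
    omega
  have h5 := Finset.sum_le_sum h4
  rw [h3] at h2
  simp only [Finset.sum_const, nsmul_eq_mul, mul_one] at h2 h5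
  have h6 := L2 hK P blk hb0 hb2 hg3 hcl hE hF hEP hFP hvE hvF hne
  set D := (DD K P v).card
  set h := (HH K P blk v).card
  have hkey : (D : ℤ) + h * (D - 3) - 3 * h ≤ tt K P blk v := by
    unfold tt
    linarith
  have hDh : (h : ℤ) + 2 ≤ D := by exact_mod_cast h6
  have hh0 : (0 : ℤ) ≤ h := by positivity
  by_cases hD6 : 6 ≤ D
  · have : (6 : ℤ) ≤ D := by exact_mod_cast hD6
    have h7 : 0 ≤ (h : ℤ) * ((D : ℤ) - 6) := mul_nonneg hh0 (by linarith)
    have h8 : (6 : ℤ) ≤ tt K P blk v := by nlinarith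
    exact ⟨by linarith, fun h0 => by omega⟩
  · push Not at hD6
    have hD5 : D ≤ 5 := by omega
    have hh3 : h ≤ 3 := by omega
    have hDlow : 2 ≤ D := by omega
    clear_value D h
    clear h5 h4 h3 h2 h1
    have hD : D = 2 ∨ D = 3 ∨ D = 4 ∨ D = 5 := by omega
    have hh : h = 0 ∨ h = 1 ∨ h = 2 ∨ h = 3 := by omega
    rcases hD with rfl | rfl | rfl | rfl <;> rcases hh with rfl | rfl | rfl | rfl <;>
      push_cast at hkey hDh <;> constructor <;> intros <;> omega

include hK hb0 hb1 hb2 hg3 hcl in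
theorem tt_one {v : V} (hvP : v ∈ P) (h : ∀ E ∈ DD K P v, ∀ F ∈ DD K P v, blk F = blk E) :
    tt K P blk v = ∑ E ∈ DD K P v, kap K P blk E ∧ 0 ≤ ∑ E ∈ DD K P v, kap K P blk E := by
  have h1 := L2' hK P blk hb0 hb2 hcl hvP h
  refine ⟨by unfold tt; rw [h1]; simp, Finset.sum_nonneg fun E hE => ?_⟩
  simp only [DD, KP, Finset.mem_filter] at hE
  exact kap_nonneg hK P blk hb0 hb1 hb2 hg3 hcl hE.1.1 hE.1.2

/-- (L4) -/
theorem L4 (hK : Lin K) (hb0 : ∀ E ∈ K, E ⊆ P → E ⊆ blk E ∧ blk E ⊆ P)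
    (hb2 : ∀ E ∈ K, ∀ F ∈ K, E ⊆ P → F ⊆ P → 2 ≤ (blk E ∩ blk F).card → blk E = blk F)
    (hcl : ∀ F ∈ K, 2 ≤ (F ∩ P).card → F ⊆ P) :
    ∑ E ∈ KP K P, ∑ x ∈ P \ blk E, f (jj K E x)
      = 2 * (∑ E ∈ KP K P, kap K P blk E - ∑ v ∈ P, ((HH K P blk v).card : ℤ)) := by
  have h1 : ∀ E ∈ KP K P, ∑ x ∈ P \ blk E, f (jj K E x)
      = 2 * kap K P blk E - 2 * (((P \ blk E).filter (fun x => jj K E x = 3)).card : ℤ) := by
    intro E hE
    simp only [KP, Finset.mem_filter] at hE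
    have h2 := sum_jj hK P blk hb0 hb2 hcl hE.1 hE.2
    have h3 : ∀ x ∈ P \ blk E, f (jj K E x) = 2 * (if 1 ≤ jj K E x then 1 else 0)
        - 2 * (if jj K E x = 3 then 1 else 0) - (jj K E x : ℤ) :=
      fun x _ => f_eq (jj_le hK hE.1 x)
    rw [Finset.sum_congr rfl h3, Finset.sum_sub_distrib, Finset.sum_sub_distrib,
      ← Finset.mul_sum, ← Finset.mul_sum]
    have h4 : (∑ x ∈ P \ blk E, (jj K E x : ℤ)) = 2 * ((SE K P blk E).card : ℤ) := by
      exact_mod_cast h2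
    rw [h4]
    have h5 : (∑ x ∈ P \ blk E, (if 1 ≤ jj K E x then (1 : ℤ) else 0))
        = ((VE K P blk E).card : ℤ) := by
      unfold VE
      rw [Finset.card_filter]
      push_cast
      rfl
    have h6 : (∑ x ∈ P \ blk E, (if jj K E x = 3 then (1 : ℤ) else 0))
        = (((P \ blk E).filter (fun x => jj K E x = 3)).card : ℤ) := by
      rw [Finset.card_filter]
      push_cast
      rfl
    rw [h5, h6]
    unfold kap
    ring
  rw [Finset.sum_congr rfl h1, Finset.sum_sub_distrib, ← Finset.mul_sum, ← Finset.mul_sum]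
  have h7 : ∑ E ∈ KP K P, (((P \ blk E).filter (fun x => jj K E x = 3)).card : ℤ)
      = ∑ v ∈ P, ((HH K P blk v).card : ℤ) := by
    have h8 : ∀ E ∈ KP K P, (((P \ blk E).filter (fun x => jj K E x = 3)).card : ℤ)
        = ∑ v ∈ P, (if v ∉ blk E ∧ ∀ y ∈ E, Adj K v y then (1 : ℤ) else 0) := by
      intro E hE
      simp only [KP, Finset.mem_filter] at hE
      have : (P \ blk E).filter (fun x => jj K E x = 3)
          = P.filter (fun v => v ∉ blk E ∧ ∀ y ∈ E, Adj K v y) := by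
        ext v
        simp only [Finset.mem_filter, Finset.mem_sdiff, jj_eq_three hK hE.1]
        tauto
      rw [this, Finset.card_filter]
      push_cast
      rfl
    rw [Finset.sum_congr rfl h8, Finset.sum_comm]
    refine Finset.sum_congr rfl fun v _ => ?_
    unfold HH
    rw [Finset.card_filter]
    push_cast
    rfl
  rw [h7]
  ring

theorem sum_tt (hK : Lin K) :
    ∑ v ∈ P, tt K P blk v
      = 3 * (∑ E ∈ KP K P, kap K P blk E - ∑ v ∈ P, ((HH K P blk v).card : ℤ)) := by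
  unfold tt
  rw [Finset.sum_sub_distrib, ← Finset.mul_sum, mul_sub]
  congr 1
  have h1 : ∀ v ∈ P, ∑ E ∈ DD K P v, kap K P blk E
      = ∑ E ∈ KP K P, (if v ∈ E then kap K P blk E else 0) := by
    intro v _
    unfold DD
    rw [Finset.sum_filter]
  rw [Finset.sum_congr rfl h1, Finset.sum_comm, Finset.mul_sum]
  refine Finset.sum_congr rfl fun E hE => ?_
  simp only [KP, Finset.mem_filter] at hE
  rw [← Finset.sum_filter, Finset.sum_const]
  have : P.filter (fun v => v ∈ E) = E := by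
    ext v
    simp only [Finset.mem_filter]
    exact ⟨fun h => h.2, fun h => ⟨hE.2 h, h⟩⟩
  rw [this, hK.1 E hE.1]
  simp

end

theorem plane_ineq {K : Finset (Finset V)} (hK : Lin K) (P : Finset V)
    (blk : Finset V → Finset V)
    (hb0 : ∀ E ∈ K, E ⊆ P → E ⊆ blk E ∧ blk E ⊆ P)
    (hb1 : ∀ E ∈ K, E ⊆ P → (blk E).card = e K (blk E) + 2)
    (hb2 : ∀ E ∈ K, ∀ F ∈ K, E ⊆ P → F ⊆ P → 2 ≤ (blk E ∩ blk F).card → blk E = blk F)
    (hg3 : ∀ E ∈ K, ∀ x ∈ P, E ⊆ P → x ∉ blk E → ∀ S : Finset V, E ⊆ S → x ∈ S → S ⊆ P →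
      e K S + 3 ≤ S.card)
    (hcl : ∀ F ∈ K, 2 ≤ (F ∩ P).card → F ⊆ P)
    (hpos : ∃ E ∈ K, E ⊆ P ∧ ∃ x ∈ P \ blk E, 1 ≤ jj K E x) :
    1 ≤ ∑ E ∈ K.filter (fun E => E ⊆ P), ∑ x ∈ P \ blk E, f (jj K E x) := by
  have h4 := L4 P blk hK hb0 hb2 hcl
  have h5 := sum_tt (K := K) P blk hK
  have hnn : ∀ v ∈ P, 0 ≤ tt K P blk v := by
    intro v hv
    by_cases h : ∀ E ∈ DD K P v, ∀ F ∈ DD K P v, blk F = blk E
    · obtain ⟨h1, h2⟩ := tt_one hK P blk hb0 hb1 hb2 hg3 hcl hv h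
      rw [h1]; exact h2
    · push Not at h
      obtain ⟨E, hE, F, hF, hne⟩ := h
      simp only [DD, KP, Finset.mem_filter] at hE hF
      exact (tt_two hK P blk hb0 hb1 hb2 hg3 hcl hE.1.1 hF.1.1 hE.1.2 hF.1.2 hE.2 hF.2 hne).1
  have hpos' : 0 < ∑ v ∈ P, tt K P blk v := by
    by_contra hle
    push Not at hle
    have hz : ∀ v ∈ P, tt K P blk v = 0 :=
      (Finset.sum_eq_zero_iff_of_nonneg hnn).1 (le_antisymm hle (Finset.sum_nonneg hnn))
    set Q : Finset V := P.filter (fun v => ¬ ∀ E ∈ DD K P v, ∀ F ∈ DD K P v, blk F = blk E) with hQ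
    -- a triple with `V_E` nonempty is inside `Q`
    have hEQ : ∀ E ∈ K, E ⊆ P → (VE K P blk E).Nonempty → E ⊆ Q := by
      intro E hE hEP hne v hv
      rw [hQ, Finset.mem_filter]
      refine ⟨hEP hv, fun h => ?_⟩
      obtain ⟨h1, h2⟩ := tt_one hK P blk hb0 hb1 hb2 hg3 hcl (hEP hv) h
      have h3 := hz v (hEP hv)
      rw [h1] at h3
      have h6 := (Finset.sum_eq_zero_iff_of_nonneg (fun T hT => by
        simp only [DD, KP, Finset.mem_filter] at hT
        exact kap_nonneg hK P blk hb0 hb1 hb2 hg3 hcl hT.1.1 hT.1.2)).1 h3 E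
        (by simp [DD, KP, hE, hEP, hv])
      have h7 := L1 hK P blk hb0 hb1 hb2 hg3 hE hEP hne hv
      have h8 : (0 : ℤ) ≤ (((HH K P blk v).filter (fun G => ¬ (G ∩ E).Nonempty)).card : ℤ) := by
        positivity
      linarith
    -- a triple meeting `Q` is inside `Q`
    have hmeet : ∀ E ∈ K, E ⊆ P → ∀ v ∈ E, v ∈ Q → E ⊆ Q := by
      intro E hE hEP v hv hvQ
      rw [hQ, Finset.mem_filter] at hvQ
      obtain ⟨-, h⟩ := hvQ
      push Not at h
      obtain ⟨E1, hE1, F1, hF1, hne⟩ := h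
      simp only [DD, KP, Finset.mem_filter] at hE1 hF1
      refine hEQ E hE hEP ?_
      by_cases h : blk E1 = blk E
      · exact VE_nonempty_of_two hK P blk hb0 hb2 hE hF1.1.1 hEP hF1.1.2 hv hF1.2 (h ▸ hne)
      · exact VE_nonempty_of_two hK P blk hb0 hb2 hE hE1.1.1 hEP hE1.1.2 hv hE1.2 h
    obtain ⟨E0, hE0, hE0P, x0, hx0, hj⟩ := hpos
    have hV0 : (VE K P blk E0).Nonempty := ⟨x0, by simp only [VE, Finset.mem_filter]; exact ⟨hx0, hj⟩⟩
    have hE0Q := hEQ E0 hE0 hE0P hV0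
    rw [Finset.mem_sdiff] at hx0
    have hx0Q : x0 ∈ Q := by
      obtain ⟨a, ha⟩ := Finset.card_pos.1 hj
      rw [Finset.mem_filter] at ha
      obtain ⟨haE, hxa, T, hT, hxT, haT⟩ := ha
      have hTP : T ⊆ P := third_mem P hcl hT hxa hxT haT hx0.1 (hE0P haE)
      exact hmeet T hT hTP a haT (hE0Q haE) hxT
    have hQP : Q ⊆ P := Finset.filter_subset _ _
    have h6 := hg3 E0 hE0 x0 hx0.1 hE0P hx0.2 Q hE0Q hx0Q hQP
    -- degrees in `Q` are at least three
    have hdeg : ∀ v ∈ Q, 3 ≤ (DD K P v).card := by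
      intro v hv
      rw [hQ, Finset.mem_filter] at hv
      obtain ⟨hvP, h⟩ := hv
      push Not at h
      obtain ⟨E, hE, F, hF, hne⟩ := h
      simp only [DD, KP, Finset.mem_filter] at hE hF
      exact (tt_two hK P blk hb0 hb1 hb2 hg3 hcl hE.1.1 hF.1.1 hE.1.2 hF.1.2 hE.2 hF.2 hne).2
        (hz v hvP)
    have h7 : ∑ v ∈ Q, (DD K P v).card = 3 * e K Q := by
      have h8 : ∀ v ∈ Q, (DD K P v).card = ∑ E ∈ K.filter (fun E => E ⊆ Q), (if v ∈ E then 1 else 0) := by
        intro v hv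
        rw [← Finset.card_filter]
        congr 1
        ext E
        simp only [DD, KP, Finset.mem_filter]
        constructor
        · rintro ⟨⟨hE, hEP⟩, hvE⟩
          exact ⟨⟨hE, hmeet E hE hEP v hvE hv⟩, hvE⟩
        · rintro ⟨⟨hE, hEQ'⟩, hvE⟩
          exact ⟨⟨hE, hEQ'.trans hQP⟩, hvE⟩
      rw [Finset.sum_congr rfl h8, Finset.sum_comm]
      unfold e
      rw [Finset.card_eq_sum_ones, Finset.mul_sum]
      refine Finset.sum_congr rfl fun E hE => ?_
      rw [Finset.mem_filter] at hE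
      rw [← Finset.card_filter]
      have : Q.filter (fun v => v ∈ E) = E := by
        ext v
        simp only [Finset.mem_filter]
        exact ⟨fun h => h.2, fun h => ⟨hE.2 h, h⟩⟩
      rw [this, hK.1 E hE.1]
      norm_num
    have h9 := Finset.card_nsmul_le_sum Q (fun v => (DD K P v).card) 3 hdeg
    rw [h7, smul_eq_mul] at h9
    omega
  have h8 : K.filter (fun E => E ⊆ P) = KP K P := rfl
  rw [h8, h4]
  rw [h5] at hpos'
  omega

end Pool.Agent.Lib.MP_c82047_co97
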