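import Pool.Agent.Lib.MP_c82047_co97.Blocks

/-!
# Seven-point planes

A seven-point plane consists of three triples through a point and a transversal.  Only the
following consequences are used.
-/

namespace Pool.Agent.Lib.MP_c82047_co97

variable {V : Type*} [DecidableEq V]

/-- The properties of a seven-point plane (three triples through a point and a transversal) that
are used below. -/
structure Seven (K : Finset (Finset V)) (blk : Finset V → Finset V) (P : Finset V) : Prop where
  one_le : ∀ E ∈ K, E ⊆ P → ∀ x ∈ P, x ∉ blk E → 1 ≤ jj K E x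
  sum_j : 0 ≤ ∑ E ∈ K.filter (fun E => E ⊆ P), ∑ x ∈ P \ blk E, (3 - 2 * (jj K E x : ℤ))
  sum_jj : 0 ≤ ∑ E ∈ K.filter (fun E => E ⊆ P), ∑ x ∈ P \ blk E,
    (9 - 8 * ((jj K E x : ℤ) * ((jj K E x : ℤ) - 1)))
  no_matched : ∀ F ∈ K, ∀ F' ∈ K, F ⊆ P → F' ⊆ P → F ≠ F' → ∀ v x y x' y' : V,
    F = {v, x, y} → F' = {v, x', y'} → ¬ (Adj K x y' ∧ Adj K y x')

end Pool.Agent.Lib.MP_c82047_co97
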