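import Pool.Agent.Lib.MP_c82047_co97.Seven
import Pool.Agent.Lib.MP_c82047_co80.Glue
import Pool.Agent.Lib.MP_c82047_co80.Stable0

/-!
# The stable plane inequality

In every plane the average of `jj` over the pairs `(E, x)`, `x ∉ blk E`, is at most `89/60`, or the
plane is a seven-point plane.
-/

set_option autoImplicit false

namespace Pool.Agent.Lib.MP_c82047_co97

open Finset Pool.Agent.MPc82047h80

variable {V : Type*} [DecidableEq V]

/-- Four pairwise intersecting lines forming a plane of seven points. -/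
theorem seven_of {K : Finset (Finset V)} (hK : Lin K) {k : ℕ} {blk : Finset V → Finset V}
    {P : Finset V} (hP : PlaneData K k blk P)
    (hb : ∀ E ∈ K.filter (fun E => E ⊆ P), blk E = E)
    (h4 : (K.filter (fun E => E ⊆ P)).card = 4) (h12 : ip (K.filter (fun E => E ⊆ P)) = 12) :
    Seven K blk P := by
  have hp := isPlane_of_data hK hP
  set L := K.filter (fun E => E ⊆ P) with hL
  have hLK : ∀ E ∈ L, E ∈ K := fun E hE => (mem_filter.1 hE).1
  have hLP : ∀ E ∈ L, E ⊆ P := fun E hE => (mem_filter.1 hE).2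
  have hL3 : ∀ E ∈ L, E.card = 3 := fun E hE => hK.1 E (hLK E hE)
  have hP7 : P.card = 7 := by rw [hp.tight, h4]
  -- all lines meet
  have hmeet : ∀ A ∈ L, ∀ B ∈ L, A ≠ B → (A ∩ B).Nonempty := by
    intro A hA B hB hne
    by_contra hcon
    have h1 : ip L < ∑ _A ∈ L, 3 := by
      rw [ip]
      apply sum_lt_sum
      · intro C hC
        have h2 : L.filter (fun D => D ≠ C ∧ (D ∩ C).Nonempty) ⊆ L.erase C := by
          intro D hD
          rw [mem_filter] at hD
          exact mem_erase.2 ⟨hD.2.1, hD.1⟩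
        have h3 := card_le_card h2
        rw [card_erase_of_mem hC, h4] at h3
        exact h3
      · refine ⟨A, hA, ?_⟩
        have h2 : L.filter (fun D => D ≠ A ∧ (D ∩ A).Nonempty) ⊆ (L.erase A).erase B := by
          intro D hD
          rw [mem_filter] at hD
          refine mem_erase.2 ⟨?_, mem_erase.2 ⟨hD.2.1, hD.1⟩⟩
          rintro rfl
          exact hcon (by rw [inter_comm]; exact hD.2.2)
        have h3 := card_le_card h2
        rw [card_erase_of_mem (mem_erase.2 ⟨hne.symm, hB⟩), card_erase_of_mem hA, h4] at h3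
        omega
    rw [sum_const, h4, h12] at h1
    simp at h1
  -- the lines cover the plane
  have hT : triv L blk = L := by
    rw [triv, filter_true_of_mem]
    intro E hE
    rw [card_eq_one]
    refine ⟨E, ?_⟩
    ext F
    rw [mem_filter, mem_singleton]
    constructor
    · rintro ⟨hF, hFE⟩
      rw [hb F hF, hb E hE] at hFE
      exact hFE
    · rintro rfl
      exact ⟨hE, rfl⟩
  have hcov : Cov L := hT ▸ triv_cov hp
  have hU : L.biUnion id = P := by
    apply eq_of_subset_of_card_le
    · intro x hx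
      obtain ⟨A, hA, hxA⟩ := mem_biUnion.1 hx
      exact hLP A hA hxA
    · have := hcov L (Subset.refl _) (by omega)
      omega
  have hcl : ∀ F ∈ K, ∀ x ∈ P, ∀ y ∈ P, x ≠ y → x ∈ F → y ∈ F → F ∈ L := by
    intro F hF x hx y hy hne hxF hyF
    refine mem_filter.2 ⟨hF, hP.closed F hF ?_⟩
    have h1 : ({x, y} : Finset V) ⊆ F ∩ P := by
      intro z hz
      rw [mem_insert, mem_singleton] at hz
      rcases hz with rfl | rfl
      · exact mem_inter.2 ⟨hxF, hx⟩
      · exact mem_inter.2 ⟨hyF, hy⟩
    have h2 := card_le_card h1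
    rwa [card_pair hne] at h2
  have hone : ∀ A ∈ L, ∀ B ∈ L, ∀ x y : V, x ≠ y → x ∈ A → y ∈ A → x ∈ B → y ∈ B → A = B := by
    intro A hA B hB x y hne hxA hyA hxB hyB
    by_contra hAB
    have h1 := hK.2 A (hLK A hA) B (hLK B hB) hAB
    rw [card_le_one] at h1
    exact hne (h1 x (mem_inter.2 ⟨hxA, hxB⟩) y (mem_inter.2 ⟨hyA, hyB⟩))
  refine ⟨?_, plane_sum hK hP, ?_, ?_⟩
  · -- every point is joined to every line
    intro E hE hEP x hx hxb
    have hEL : E ∈ L := mem_filter.2 ⟨hE, hEP⟩
    rw [hb E hEL] at hxb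
    rw [← hU] at hx
    obtain ⟨F, hF, hxF⟩ := mem_biUnion.1 hx
    obtain ⟨a, ha⟩ := hmeet F hF E hEL (by rintro rfl; exact hxb hxF)
    rw [mem_inter] at ha
    refine card_pos.2 ⟨a, mem_filter.2 ⟨ha.2, ?_, F, hLK F hF, hxF, ha.1⟩⟩
    rintro rfl
    exact hxb ha.2
  · -- second moment
    have hjj : ∀ E ∈ L, ∀ x ∈ P \ blk E, jj K E x ≤ dg L x := by
      intro E hE x hx
      rw [hb E hE, mem_sdiff] at hx
      calc jj K E x ≤ ((L.filter (fun F => x ∈ F)).biUnion (fun F => F ∩ E)).card := by
            apply card_le_card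
            intro a ha
            rw [mem_filter] at ha
            obtain ⟨haE, hne, F, hF, hxF, haF⟩ := ha
            exact mem_biUnion.2 ⟨F, mem_filter.2 ⟨hcl F hF x hx.1 a (hLP E hE haE) hne hxF haF, hxF⟩,
              mem_inter.2 ⟨haF, haE⟩⟩
        _ ≤ ∑ F ∈ L.filter (fun F => x ∈ F), (F ∩ E).card := card_biUnion_le
        _ ≤ ∑ _F ∈ L.filter (fun F => x ∈ F), 1 := by
            apply sum_le_sum
            intro F hF
            rw [mem_filter] at hF
            exact hK.2 F (hLK F hF.1) E (hLK E hE) (by rintro rfl; exact hx.2 hF.2)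
        _ = dg L x := by simp [dg]
    set g : V → ℕ := fun x => dg L x * (dg L x - 1) with hg
    have hA : ∑ E ∈ L, ∑ x ∈ P \ blk E, g x + ∑ x ∈ P, dg L x * g x = 4 * ∑ x ∈ P, g x := by
      have h1 : ∑ x ∈ P, dg L x * g x = ∑ E ∈ L, ∑ x ∈ blk E, g x := by
        rw [← hU, ← sum_swap]
        exact sum_congr rfl (fun E hE => by rw [hb E hE])
      rw [h1, ← sum_add_distrib]
      have h2 : ∀ E ∈ L, ∑ x ∈ P \ blk E, g x + ∑ x ∈ blk E, g x = ∑ x ∈ P, g x := by
        intro E hE
        exact sum_sdiff (hp.blkP E hE)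
      rw [sum_congr rfl h2, sum_const, h4, smul_eq_mul]
    have hB : ∑ x ∈ P, (5 * g x + 6) ≤ ∑ x ∈ P, (dg L x * g x + 6 * dg L x) := by
      apply sum_le_sum
      intro x hx
      have h1 : 1 ≤ dg L x := dg_pos (by rw [hU]; exact hx)
      have h2 : dg L x ≤ 4 := by rw [← h4]; exact card_filter_le _ _
      simp only [hg]
      interval_cases dg L x <;> simp
    have hC : ∑ x ∈ P, dg L x = 12 := by
      rw [← hU, sum_dg hL3, h4]
    have hD : 12 ≤ ∑ x ∈ P, g x := by
      rw [← h12, ← hU]
      exact ip_le_sum L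
    rw [sum_add_distrib, sum_add_distrib, ← mul_sum, ← mul_sum, sum_const, hP7, hC, smul_eq_mul] at hB
    have hE18 : ∑ E ∈ L, ∑ x ∈ P \ blk E, g x ≤ 18 := by omega
    have hcard4 : ∀ E ∈ L, (P \ blk E).card = 4 := by
      intro E hE
      rw [hb E hE, card_sdiff_of_subset (hLP E hE), hP7, hL3 E hE]
    have h1 : ∑ E ∈ L, ∑ x ∈ P \ blk E, (9 - 8 * ((jj K E x : ℤ) * ((jj K E x : ℤ) - 1)))
        ≥ ∑ E ∈ L, ∑ x ∈ P \ blk E, (9 - 8 * (g x : ℤ)) := by
      apply sum_le_sum
      intro E hE
      apply sum_le_sum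
      intro x hx
      have h2 := hjj E hE x hx
      have h3 : (g x : ℤ) = (dg L x : ℤ) * ((dg L x : ℤ) - 1) := by
        simp only [hg]
        rcases Nat.eq_zero_or_pos (dg L x) with h0 | h0
        · rw [h0]; simp
        · rw [Nat.cast_mul, Nat.cast_sub h0, Nat.cast_one]
      rw [h3]
      have h5 : (jj K E x : ℤ) ≤ dg L x := by exact_mod_cast h2
      have h6 : (0 : ℤ) ≤ jj K E x := by positivity
      rcases h5.eq_or_lt with h7 | h7
      · rw [h7]
      · nlinarith
    have h2 : ∑ E ∈ L, ∑ x ∈ P \ blk E, (9 - 8 * (g x : ℤ))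
        = 144 - 8 * ((∑ E ∈ L, ∑ x ∈ P \ blk E, g x : ℕ) : ℤ) := by
      push_cast
      rw [mul_sum]
      have h3 : ∀ E ∈ L, ∑ x ∈ P \ blk E, (9 - 8 * (g x : ℤ)) = 36 - 8 * ∑ x ∈ P \ blk E, (g x : ℤ) := by
        intro E hE
        rw [sum_sub_distrib, sum_const, hcard4 E hE, mul_sum]
        simp
      rw [sum_congr rfl h3, sum_sub_distrib, sum_const, h4]
      simp
    rw [h2] at h1
    have h3 : ((∑ E ∈ L, ∑ x ∈ P \ blk E, g x : ℕ) : ℤ) ≤ 18 := by exact_mod_cast hE18
    linarith
  · -- no matched pairs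
    intro F hF F' hF' hFP hFP' hne v x y x' y' hFe hFe' hcon
    obtain ⟨⟨hxy', G, hG, hxG, hyG⟩, ⟨hyx', G', hG', hyG', hxG'⟩⟩ := hcon
    have hFL : F ∈ L := mem_filter.2 ⟨hF, hFP⟩
    have hFL' : F' ∈ L := mem_filter.2 ⟨hF', hFP'⟩
    have hvF : v ∈ F := by rw [hFe]; simp
    have hxF : x ∈ F := by rw [hFe]; simp
    have hyF : y ∈ F := by rw [hFe]; simp
    have hvF' : v ∈ F' := by rw [hFe']; simp
    have hxF' : x' ∈ F' := by rw [hFe']; simp
    have hyF' : y' ∈ F' := by rw [hFe']; simp
    have hGL : G ∈ L := hcl G hG x (hFP hxF) y' (hFP' hyF') hxy' hxG hyG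
    have hGL' : G' ∈ L := hcl G' hG' y (hFP hyF) x' (hFP' hxF') hyx' hyG' hxG'
    have c1 := hL3 F hFL
    have c1' := hL3 F' hFL'
    have hvx : v ≠ x := by
      rintro rfl
      rw [hFe] at c1
      have := card_le_two (a := v) (b := y)
      simp at c1
      omega
    have hvy : v ≠ y := by
      rintro rfl
      rw [hFe, show ({v, x, v} : Finset V) = {v, x} by ext z; simp; tauto] at c1
      have := card_le_two (a := v) (b := x)
      omega
    have hxy : x ≠ y := by
      rintro rfl
      rw [hFe] at c1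
      have := card_le_two (a := v) (b := x)
      simp at c1
      omega
    have hvx' : v ≠ x' := by
      rintro rfl
      rw [hFe'] at c1'
      have := card_le_two (a := v) (b := y')
      simp at c1'
      omega
    have hvy' : v ≠ y' := by
      rintro rfl
      rw [hFe', show ({v, x', v} : Finset V) = {v, x'} by ext z; simp; tauto] at c1'
      have := card_le_two (a := v) (b := x')
      omega
    have hxy2 : x' ≠ y' := by
      rintro rfl
      rw [hFe'] at c1'
      have := card_le_two (a := v) (b := x')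
      simp at c1'
      omega
    have n1 : y' ∉ F := fun h => hne (hone F hFL F' hFL' v y' hvy' hvF h hvF' hyF')
    have n2 : x' ∉ F := fun h => hne (hone F hFL F' hFL' v x' hvx' hvF h hvF' hxF')
    have n3 : x ∉ F' := fun h => hne (hone F hFL F' hFL' v x hvx hvF hxF hvF' h)
    have n4 : y ∉ F' := fun h => hne (hone F hFL F' hFL' v y hvy hvF hyF hvF' h)
    have m1 : G ≠ F := by rintro rfl; exact n1 hyG
    have m2 : G ≠ F' := by rintro rfl; exact n3 hxG
    have m3 : G' ≠ F := by rintro rfl; exact n2 hxG'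
    have m4 : G' ≠ F' := by rintro rfl; exact n4 hyG'
    have m5 : G ≠ G' := by
      rintro rfl
      exact m1 (hone G hGL F hFL x y hxy hxG hyG' hxF hyF)
    obtain ⟨z, hz⟩ := hmeet G hGL G' hGL' m5
    rw [mem_inter] at hz
    have z1 : x ≠ z := by
      rintro rfl
      exact m3 (hone G' hGL' F hFL x y hxy hz.2 hyG' hxF hyF)
    have z2 : y' ≠ z := by
      rintro rfl
      exact m4 (hone G' hGL' F' hFL' x' y' hxy2 hxG' hz.2 hxF' hyF')
    have z3 : y ≠ z := by
      rintro rfl
      exact m1 (hone G hGL F hFL x y hxy hxG hz.1 hxF hyF)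
    have z4 : x' ≠ z := by
      rintro rfl
      exact m2 (hone G hGL F' hFL' x' y' hxy2 hz.1 hyG hxF' hyF')
    have eG : G = {x, y', z} := by
      symm
      apply eq_of_subset_of_card_le
      · intro w hw
        simp only [mem_insert, mem_singleton] at hw
        rcases hw with rfl | rfl | rfl
        · exact hxG
        · exact hyG
        · exact hz.1
      · rw [hL3 G hGL, card_eq_three.2 ⟨x, y', z, hxy', z1, z2, rfl⟩]
    have eG' : G' = {y, x', z} := by
      symm
      apply eq_of_subset_of_card_le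
      · intro w hw
        simp only [mem_insert, mem_singleton] at hw
        rcases hw with rfl | rfl | rfl
        · exact hyG'
        · exact hxG'
        · exact hz.2
      · rw [hL3 G' hGL', card_eq_three.2 ⟨y, x', z, hyx', z3, z4, rfl⟩]
    have eL : L = {F, F', G, G'} := by
      symm
      apply eq_of_subset_of_card_le
      · intro w hw
        simp only [mem_insert, mem_singleton] at hw
        rcases hw with rfl | rfl | rfl | rfl
        · exact hFL
        · exact hFL'
        · exact hGL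
        · exact hGL'
      · rw [h4, card_insert_of_notMem, card_insert_of_notMem, card_pair m5]
        · simp [m2.symm, m4.symm]
        · simp [hne, m1.symm, m3.symm]
    have hPs : P ⊆ {v, x, y, x', y', z} := by
      rw [← hU, eL]
      intro w hw
      simp only [mem_biUnion, mem_insert, mem_singleton, id] at hw
      obtain ⟨A, hA, hwA⟩ := hw
      rcases hA with rfl | rfl | rfl | rfl
      · rw [hFe] at hwA
        simp only [mem_insert, mem_singleton] at hwA ⊢
        tauto
      · rw [hFe'] at hwA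
        simp only [mem_insert, mem_singleton] at hwA ⊢
        tauto
      · rw [eG] at hwA
        simp only [mem_insert, mem_singleton] at hwA ⊢
        tauto
      · rw [eG'] at hwA
        simp only [mem_insert, mem_singleton] at hwA ⊢
        tauto
    have h6 := card_le_card hPs
    have h7 : ({v, x, y, x', y', z} : Finset V).card ≤ 6 := card_le_six
    omega

/-- Stable plane inequality. -/
theorem plane_stable {K : Finset (Finset V)} (hK : Lin K) {k : ℕ} {blk : Finset V → Finset V}
    {P : Finset V} (hP : PlaneData K k blk P) :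
    0 ≤ ∑ E ∈ K.filter (fun E => E ⊆ P), ∑ x ∈ P \ blk E, (89 - 60 * (jj K E x : ℤ)) ∨
      Seven K blk P := by
  have hp := isPlane_of_data hK hP
  rcases plane_ineq2 hp with h1 | ⟨hb, h4, h12⟩
  · left
    set L := K.filter (fun E => E ⊆ P) with hL
    have h2 : ∀ E ∈ L, (P \ blk E).card = (L.filter (fun F => blk F ≠ blk E)).card + 1 := by
      intro E hE
      have h3 := card_sdiff_add_card_eq_card (hp.blkP E hE)
      have h4 := hp.blkcard E hE
      have h5 := hp.tight
      have h6 : (L.filter (fun F => blk F = blk E)).card + (L.filter (fun F => ¬ blk F = blk E)).card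
          = L.card := card_filter_add_card_filter_not _
      change _ + (L.filter (fun F => blk F ≠ blk E)).card = _ at h6
      omega
    have h3 : ∑ E ∈ L, ∑ x ∈ P \ blk E, (89 - 60 * (jj K E x : ℤ))
        = 89 * ∑ E ∈ L, ((P \ blk E).card : ℤ) - 60 * ∑ E ∈ L, ∑ x ∈ P \ blk E, (jj K E x : ℤ) := by
      rw [mul_sum, mul_sum, ← sum_sub_distrib]
      apply sum_congr rfl
      intro E _
      rw [sum_sub_distrib, sum_const, mul_sum, nsmul_eq_mul]
      ring
    have h4 : ∑ E ∈ L, ∑ x ∈ P \ blk E, jj K E x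
        ≤ 2 * ∑ E ∈ L, (L.filter (fun F => blk F ≠ blk E ∧ (F ∩ E).Nonempty)).card := by
      rw [mul_sum]
      apply sum_le_sum
      intro E hE
      exact sum_jj_plane hK hP (mem_filter.1 hE).1 (mem_filter.1 hE).2
    rw [← sum_congr rfl h2] at h1
    rw [h3]
    have h5 : 60 * ∑ E ∈ L, ∑ x ∈ P \ blk E, jj K E x ≤ 89 * ∑ E ∈ L, (P \ blk E).card := by omega
    have h6 : 60 * ∑ E ∈ L, ∑ x ∈ P \ blk E, (jj K E x : ℤ)
        ≤ 89 * ∑ E ∈ L, ((P \ blk E).card : ℤ) := by
      exact_mod_cast h5
    linarith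
  · exact Or.inr (seven_of hK hP hb h4 h12)

end Pool.Agent.Lib.MP_c82047_co97
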