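import Pool.Agent.Lib.MP_c82047_co97.Blocks
import Pool.Agent.Lib.MP_c82047_co97.Plane

/-!
# The weighted sum over all pairs outside the blocks
-/

namespace Pool.Agent.Lib.MP_c82047_co97

variable {V : Type*} [DecidableEq V] [Fintype V]

theorem sum_K {K : Finset (Finset V)} (hK : Lin K) {k : ℕ} (hk : 5 ≤ k)
    (hfree : ∀ S : Finset V, k ≤ S.card → S.card < 2 * k → e K S + 4 ≤ S.card)
    (hG2 : ∀ S : Finset V, 2 ≤ S.card → S.card < k → e K S + 2 ≤ S.card) :
    ∃ blk : Finset V → Finset V, (∀ E ∈ K, E ⊆ blk E ∧ (blk E).card < k) ∧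
      0 ≤ ∑ E ∈ K, ∑ x ∈ (blk E)ᶜ,
        ((k : ℤ) ^ 2 * f (jj K E x) - if 1 ≤ jj K E x then 1 else 0) := by
  obtain ⟨blk, hb, -, hsum⟩ := exists_blocks hK hk hfree hG2
  refine ⟨blk, fun E hE => ⟨(hb E hE).1, (hb E hE).2.1⟩, hsum _ fun P hP => ?_⟩
  by_cases hpos : ∃ E ∈ K, E ⊆ P ∧ ∃ x ∈ P \ blk E, 1 ≤ jj K E x
  · have hmain := plane_ineq hK P blk hP.blk_sub hP.blk_card hP.blk_eq hP.sparse3 hP.closed hpos
    simp only [Finset.sum_sub_distrib, ← Finset.mul_sum]
    have hcount : ∑ F ∈ K.filter (fun F => F ⊆ P), ∑ y ∈ P \ blk F,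
        (if 1 ≤ jj K F y then (1 : ℤ) else 0) ≤ (k : ℤ) ^ 2 := by
      calc ∑ F ∈ K.filter (fun F => F ⊆ P), ∑ y ∈ P \ blk F,
            (if 1 ≤ jj K F y then (1 : ℤ) else 0)
          ≤ ∑ F ∈ K.filter (fun F => F ⊆ P), (k : ℤ) := by
            refine Finset.sum_le_sum fun F _ => ?_
            calc ∑ y ∈ P \ blk F, (if 1 ≤ jj K F y then (1 : ℤ) else 0)
                ≤ ∑ y ∈ P \ blk F, (1 : ℤ) := by
                  refine Finset.sum_le_sum fun y _ => ?_
                  split_ifs <;> norm_num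
              _ = ((P \ blk F).card : ℤ) := by simp
              _ ≤ (k : ℤ) := by
                  have := Finset.card_le_card (Finset.sdiff_subset : P \ blk F ⊆ P)
                  exact_mod_cast (this.trans hP.card_lt.le)
        _ = (e K P : ℤ) * k := by rw [Finset.sum_const, nsmul_eq_mul]; rfl
        _ ≤ (k : ℤ) * k := by
            refine mul_le_mul_of_nonneg_right ?_ (by positivity)
            have : e K P ≤ k := by
              have h1 := hP.card_lt
              have h2 := hP.card_eq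
              omega
            exact_mod_cast this
        _ = (k : ℤ) ^ 2 := by ring
    have hk0 : (0 : ℤ) ≤ (k : ℤ) ^ 2 := by positivity
    nlinarith
  · refine Finset.sum_nonneg fun F hF => Finset.sum_nonneg fun y hy => ?_
    push Not at hpos
    have h0 := hpos F (Finset.mem_filter.1 hF).1 (Finset.mem_filter.1 hF).2 y hy
    have h1 : jj K F y = 0 := by omega
    simp [h1, f_zero]

end Pool.Agent.Lib.MP_c82047_co97
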