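import Pool.Agent.Lib.MP_c82047_co97.Structure

/-!
# The lower bound for `theta`
-/

namespace Pool.Agent.Lib.MP_c82047_co97

variable {V : Type*} [DecidableEq V]

omit [DecidableEq V] in
theorem Adj.mono {K H : Finset (Finset V)} (h : K ⊆ H) {x y : V} (hxy : Adj K x y) : Adj H x y :=
  ⟨hxy.1, by obtain ⟨E, hE, h'⟩ := hxy.2; exact ⟨E, h hE, h'⟩⟩

variable [Fintype V]

theorem sum_diff_le {K H : Finset (Finset V)} (hH : Lin H) (hKH : K ⊆ H) :
    ∑ E ∈ K, (Finset.univ.filter (fun x => jj H E x ≠ jj K E x)).card ≤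
      9 * Fintype.card V * (H \ K).card := by
  classical
  have h1 : ∀ E ∈ K, (Finset.univ.filter (fun x => jj H E x ≠ jj K E x)).card ≤
      ∑ F ∈ H \ K, if (E ∩ F).Nonempty then 3 else 0 := by
    intro E hE
    have hsub : Finset.univ.filter (fun x => jj H E x ≠ jj K E x) ⊆
        (H \ K).biUnion (fun F => if (E ∩ F).Nonempty then F else ∅) := by
      intro x hx
      rw [Finset.mem_filter] at hx
      have hne : ∃ a ∈ E, Adj H x a ∧ ¬ Adj K x a := by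
        by_contra hcon
        push Not at hcon
        refine hx.2 ?_
        unfold jj
        congr 1
        refine Finset.filter_congr fun a ha => ⟨fun h => hcon a ha h, fun h => h.mono hKH⟩
      obtain ⟨a, haE, ⟨hxa, F, hF, hxF, haF⟩, hnot⟩ := hne
      refine Finset.mem_biUnion.2 ⟨F, Finset.mem_sdiff.2 ⟨hF, fun hFK => hnot ⟨hxa, F, hFK, hxF, haF⟩⟩, ?_⟩
      rw [if_pos ⟨a, Finset.mem_inter.2 ⟨haE, haF⟩⟩]
      exact hxF
    refine (Finset.card_le_card hsub).trans (Finset.card_biUnion_le.trans ?_)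
    refine Finset.sum_le_sum fun F hF => ?_
    split_ifs
    · rw [hH.1 F (Finset.mem_sdiff.1 hF).1]
    · simp
  refine (Finset.sum_le_sum h1).trans ?_
  rw [Finset.sum_comm]
  have h2 : ∀ F ∈ H \ K, (∑ E ∈ K, if (E ∩ F).Nonempty then 3 else 0) ≤ 9 * Fintype.card V := by
    intro F hF
    rw [← Finset.sum_filter, Finset.sum_const, smul_eq_mul]
    have h3 : (K.filter (fun E => (E ∩ F).Nonempty)).card ≤ F.card * Fintype.card V := by
      have hsub : K.filter (fun E => (E ∩ F).Nonempty) ⊆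
          F.biUnion (fun a => K.filter (fun E => a ∈ E)) := by
        intro E hE
        rw [Finset.mem_filter] at hE
        obtain ⟨hE, a, ha⟩ := hE
        rw [Finset.mem_inter] at ha
        exact Finset.mem_biUnion.2 ⟨a, ha.2, Finset.mem_filter.2 ⟨hE, ha.1⟩⟩
      refine (Finset.card_le_card hsub).trans (Finset.card_biUnion_le_card_mul _ _ _ fun a _ => ?_)
      have := deg_le (hH.mono hKH) a
      unfold deg at this
      omega
    rw [hH.1 F (Finset.mem_sdiff.1 hF).1] at h3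
    omega
  refine (Finset.sum_le_sum h2).trans ?_
  rw [Finset.sum_const, smul_eq_mul, mul_comm]

theorem theta_ge {H : Finset (Finset V)} (hH : Lin H) {k : ℕ} (hk : 5 ≤ k)
    (hfree : ∀ S : Finset V, k ≤ S.card → S.card < 2 * k → e H S + 4 ≤ S.card) :
    (cnt H : ℤ) - 100 * (k : ℤ) ^ 3 * (Fintype.card V : ℤ) ^ 2 ≤ (k : ℤ) ^ 2 * theta H := by
  obtain ⟨K, hKH, hG2, hKcard⟩ := cleaning hH hk hfree
  have hK := hH.mono hKH
  have hfreeK : ∀ S : Finset V, k ≤ S.card → S.card < 2 * k → e K S + 4 ≤ S.card :=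
    fun S h h' => le_trans (Nat.add_le_add_right (e_mono_left hKH S) 4) (hfree S h h')
  obtain ⟨blk, hblk, hsumK⟩ := sum_K hK hk hfreeK hG2
  set n := Fintype.card V with hn
  set w : Finset (Finset V) → Finset V → V → ℤ := fun L E x =>
    (k : ℤ) ^ 2 * f (jj L E x) - if 1 ≤ jj L E x then 1 else 0 with hw
  have hwlow : ∀ L : Finset (Finset V), ∀ E : Finset V, E.card = 3 → ∀ x,
      -(3 * (k : ℤ) ^ 2 + 1) ≤ w L E x := by
    intro L E hE x
    have h1 := (f_bounds (jj_le_three (H := L) hE x)).1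
    have h2 : (if 1 ≤ jj L E x then (1 : ℤ) else 0) ≤ 1 := by split_ifs <;> norm_num
    have h3 : (0 : ℤ) ≤ (k : ℤ) ^ 2 := by positivity
    simp only [hw]
    nlinarith
  have hkey : (k : ℤ) ^ 2 * theta H - (cnt H : ℤ) = ∑ E ∈ H, ∑ x ∈ Eᶜ, w H E x := by
    simp only [hw, theta, cnt, Finset.mul_sum, Finset.sum_sub_distrib]
    congr 1
    push_cast
    refine Finset.sum_congr rfl fun E _ => ?_
    rw [Finset.card_filter]
    push_cast
    rfl
  have hpart1 : -(3 * (k : ℤ) ^ 2 + 1) * n * (H \ K).card ≤ ∑ E ∈ H \ K, ∑ x ∈ Eᶜ, w H E x := by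
    have : ∀ E ∈ H \ K, -(3 * (k : ℤ) ^ 2 + 1) * n ≤ ∑ x ∈ Eᶜ, w H E x := by
      intro E hE
      have h1 : ∑ x ∈ Eᶜ, -(3 * (k : ℤ) ^ 2 + 1) ≤ ∑ x ∈ Eᶜ, w H E x :=
        Finset.sum_le_sum fun x _ => hwlow H E (hH.1 E (Finset.mem_sdiff.1 hE).1) x
      rw [Finset.sum_const, nsmul_eq_mul] at h1
      have h2 : (Eᶜ.card : ℤ) ≤ n := by exact_mod_cast Finset.card_le_univ _
      have h3 : (0 : ℤ) ≤ 3 * (k : ℤ) ^ 2 + 1 := by positivity
      nlinarith
    have h1 := Finset.sum_le_sum this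
    rw [Finset.sum_const, nsmul_eq_mul] at h1
    linarith
  have hpart2 : ∀ E ∈ K, ∑ x ∈ (blk E)ᶜ, w K E x - (3 * (k : ℤ) ^ 2 + 1) * k -
      (4 * (k : ℤ) ^ 2 + 1) * (Finset.univ.filter (fun x => jj H E x ≠ jj K E x)).card ≤
      ∑ x ∈ Eᶜ, w H E x := by
    intro E hE
    have hE3 := hK.1 E hE
    obtain ⟨hsub, hbk⟩ := hblk E hE
    have hsplit : ∑ x ∈ Eᶜ, w H E x = ∑ x ∈ (blk E)ᶜ, w H E x + ∑ x ∈ blk E \ E, w H E x := by
      rw [← Finset.sum_union]
      · congr 1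
        ext x
        simp only [Finset.mem_compl, Finset.mem_union, Finset.mem_sdiff]
        constructor
        · intro h
          by_cases hx : x ∈ blk E
          · exact Or.inr ⟨hx, h⟩
          · exact Or.inl hx
        · rintro (h | h)
          · exact fun h' => h (hsub h')
          · exact h.2
      · rw [Finset.disjoint_left]
        intro x hx hx'
        exact (Finset.mem_compl.1 hx) (Finset.mem_sdiff.1 hx').1
    have h1 : -(3 * (k : ℤ) ^ 2 + 1) * k ≤ ∑ x ∈ blk E \ E, w H E x := by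
      have h1 : ∑ x ∈ blk E \ E, -(3 * (k : ℤ) ^ 2 + 1) ≤ ∑ x ∈ blk E \ E, w H E x :=
        Finset.sum_le_sum fun x _ => hwlow H E hE3 x
      rw [Finset.sum_const, nsmul_eq_mul] at h1
      have h2 : ((blk E \ E).card : ℤ) ≤ k := by
        have := Finset.card_le_card (Finset.sdiff_subset : blk E \ E ⊆ blk E)
        exact_mod_cast this.trans hbk.le
      have h3 : (0 : ℤ) ≤ 3 * (k : ℤ) ^ 2 + 1 := by positivity
      nlinarith
    have h2 : ∑ x ∈ (blk E)ᶜ, w K E x - (4 * (k : ℤ) ^ 2 + 1) *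
        (Finset.univ.filter (fun x => jj H E x ≠ jj K E x)).card ≤ ∑ x ∈ (blk E)ᶜ, w H E x := by
      have h3 : ∀ x ∈ (blk E)ᶜ, w K E x - (4 * (k : ℤ) ^ 2 + 1) *
          (if jj H E x ≠ jj K E x then 1 else 0) ≤ w H E x := by
        intro x _
        by_cases hx : jj H E x = jj K E x
        · simp [hw, hx]
        · rw [if_pos hx]
          have h1 := (f_bounds (jj_le_three (H := H) hE3 x)).1
          have h2 := (f_bounds (jj_le_three (H := K) hE3 x)).2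
          have h3 : (if 1 ≤ jj H E x then (1 : ℤ) else 0) ≤ 1 := by split_ifs <;> norm_num
          have h4 : (0 : ℤ) ≤ (if 1 ≤ jj K E x then (1 : ℤ) else 0) := by split_ifs <;> norm_num
          have h5 : (0 : ℤ) ≤ (k : ℤ) ^ 2 := by positivity
          simp only [hw]
          nlinarith
      have h4 := Finset.sum_le_sum h3
      rw [Finset.sum_sub_distrib, ← Finset.mul_sum] at h4
      have h5 : ∑ x ∈ (blk E)ᶜ, (if jj H E x ≠ jj K E x then (1 : ℤ) else 0) ≤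
          (Finset.univ.filter (fun x => jj H E x ≠ jj K E x)).card := by
        rw [Finset.card_filter]
        push_cast
        refine Finset.sum_le_sum_of_subset_of_nonneg (Finset.subset_univ _) fun x _ _ => ?_
        split_ifs <;> norm_num
      have h6 : (0 : ℤ) ≤ 4 * (k : ℤ) ^ 2 + 1 := by positivity
      nlinarith
    rw [hsplit]
    linarith
  have hsumK2 := Finset.sum_le_sum hpart2
  rw [Finset.sum_sub_distrib, Finset.sum_sub_distrib, Finset.sum_const, nsmul_eq_mul,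
    show ∑ E ∈ K, (4 * (k : ℤ) ^ 2 + 1) *
      ((Finset.univ.filter (fun x => jj H E x ≠ jj K E x)).card : ℤ) = (4 * (k : ℤ) ^ 2 + 1) *
      ∑ E ∈ K, ((Finset.univ.filter (fun x => jj H E x ≠ jj K E x)).card : ℤ) from
      (Finset.mul_sum _ _ _).symm] at hsumK2
  have hdiff := sum_diff_le hH hKH
  have hdiff' : (∑ E ∈ K, ((Finset.univ.filter (fun x => jj H E x ≠ jj K E x)).card : ℤ)) ≤
      9 * n * (H \ K).card := by exact_mod_cast hdiff
  have hKn : (K.card : ℤ) ≤ (n : ℤ) ^ 2 := by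
    have h1 := card_le_sq hK
    have : K.card ≤ n ^ 2 := by rw [hn]; omega
    exact_mod_cast this
  have hcard' : ((H \ K).card : ℤ) ≤ 2 * k * n := by exact_mod_cast hKcard
  have hHsum : ∑ E ∈ H, ∑ x ∈ Eᶜ, w H E x =
      ∑ E ∈ H \ K, ∑ x ∈ Eᶜ, w H E x + ∑ E ∈ K, ∑ x ∈ Eᶜ, w H E x :=
    (Finset.sum_sdiff hKH).symm
  have hk5 : (5 : ℤ) ≤ k := by exact_mod_cast hk
  have hn0 : (0 : ℤ) ≤ n := by positivity
  have hd0 : (0 : ℤ) ≤ ((H \ K).card : ℤ) := by positivity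
  -- bounds of the three error terms
  have e1 : (3 * (k : ℤ) ^ 2 + 1) * n * (H \ K).card ≤ (3 * (k : ℤ) ^ 2 + 1) * (2 * k) * n ^ 2 := by
    have : (0 : ℤ) ≤ (3 * (k : ℤ) ^ 2 + 1) * n := by positivity
    calc (3 * (k : ℤ) ^ 2 + 1) * n * (H \ K).card ≤ (3 * (k : ℤ) ^ 2 + 1) * n * (2 * k * n) :=
          mul_le_mul_of_nonneg_left hcard' this
      _ = _ := by ring
  have e2 : (K.card : ℤ) * ((3 * (k : ℤ) ^ 2 + 1) * k) ≤ (3 * (k : ℤ) ^ 2 + 1) * k * n ^ 2 := by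
    have : (0 : ℤ) ≤ (3 * (k : ℤ) ^ 2 + 1) * k := by positivity
    calc (K.card : ℤ) * ((3 * (k : ℤ) ^ 2 + 1) * k) ≤ (n : ℤ) ^ 2 * ((3 * (k : ℤ) ^ 2 + 1) * k) :=
          mul_le_mul_of_nonneg_right hKn this
      _ = _ := by ring
  have e3 : (4 * (k : ℤ) ^ 2 + 1) *
      (∑ E ∈ K, ((Finset.univ.filter (fun x => jj H E x ≠ jj K E x)).card : ℤ)) ≤
      (4 * (k : ℤ) ^ 2 + 1) * (18 * k) * n ^ 2 := by
    have h1 : (0 : ℤ) ≤ 4 * (k : ℤ) ^ 2 + 1 := by positivity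
    have h2 : (9 : ℤ) * n * (H \ K).card ≤ 9 * n * (2 * k * n) :=
      mul_le_mul_of_nonneg_left hcard' (by positivity)
    calc _ ≤ (4 * (k : ℤ) ^ 2 + 1) * (9 * n * (2 * k * n)) :=
          mul_le_mul_of_nonneg_left (hdiff'.trans h2) h1
      _ = _ := by ring
  have e4 : (3 * (k : ℤ) ^ 2 + 1) * (2 * k) * (n : ℤ) ^ 2 + (3 * (k : ℤ) ^ 2 + 1) * k * n ^ 2 +
      (4 * (k : ℤ) ^ 2 + 1) * (18 * k) * n ^ 2 ≤ 100 * (k : ℤ) ^ 3 * n ^ 2 := by
    have h1 : (0 : ℤ) ≤ (n : ℤ) ^ 2 := by positivity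
    have h2 : (3 * (k : ℤ) ^ 2 + 1) * (2 * k) + (3 * (k : ℤ) ^ 2 + 1) * k +
      (4 * (k : ℤ) ^ 2 + 1) * (18 * k) ≤ 100 * (k : ℤ) ^ 3 := by
      nlinarith [mul_nonneg (by linarith : (0 : ℤ) ≤ k - 5) (by positivity : (0 : ℤ) ≤ (k : ℤ) ^ 2),
        mul_nonneg (by linarith : (0 : ℤ) ≤ (k : ℤ) - 5) (by linarith : (0 : ℤ) ≤ (k : ℤ))]
    nlinarith [mul_le_mul_of_nonneg_right h2 h1]
  linarith

end Pool.Agent.Lib.MP_c82047_co97
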